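import Mathlib

/-!
# Sublevel sets of sparse exponential sums
-/

open MeasureTheory Set

namespace Pool.Agent.Lib.MP_5efc61_nt

/-- `e t = exp (2 π i t)` -/
noncomputable def e (t : ℝ) : ℂ := Complex.exp (2 * Real.pi * t * Complex.I)

theorem norm_e (t : ℝ) : ‖e t‖ = 1 := by
  have : (2 * Real.pi * t * Complex.I : ℂ) = ((2 * Real.pi * t : ℝ) : ℂ) * Complex.I := by
    push_cast; ring
  rw [e, this, Complex.norm_exp_ofReal_mul_I]

theorem e_add (s t : ℝ) : e (s + t) = e s * e t := by
  rw [e, e, e, ← Complex.exp_add]; congr 1; push_cast; ring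

theorem e_zero : e 0 = 1 := by simp [e]

theorem continuous_e : Continuous e := by
  unfold e; fun_prop

theorem hasDerivAt_e_mul (a : ℝ) (t : ℝ) :
    HasDerivAt (fun t : ℝ => e (a * t)) ((2 * Real.pi * a * Complex.I) * e (a * t)) t := by
  have h1 : HasDerivAt (fun t : ℝ => (2 * Real.pi * ((a * t : ℝ) : ℂ) * Complex.I : ℂ))
      (2 * Real.pi * a * Complex.I) t := by
    have h2 : HasDerivAt (fun t : ℝ => ((t : ℝ) : ℂ)) 1 t := Complex.ofRealCLM.hasDerivAt
    have h3 := (h2.const_mul (2 * Real.pi * a * Complex.I : ℂ))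
    rw [mul_one] at h3
    refine h3.congr_of_eventuallyEq (Filter.Eventually.of_forall ?_)
    intro x
    push_cast; ring
  have h4 := h1.cexp
  unfold e
  convert h4 using 1
  ring

/-- local expansion gives separation -/
theorem local_sep (H H' H'' : ℝ → ℂ) (hH : ∀ t, HasDerivAt H (H' t) t)
    (hH' : ∀ t, HasDerivAt H' (H'' t) t) (L : ℝ) (hL : ∀ t, ‖H'' t‖ ≤ L) (s t : ℝ) :
    ‖H s - H t - ((s - t : ℝ) : ℂ) * H' t‖ ≤ L * |s - t| * |s - t| := by
  have hL0 : 0 ≤ L := (norm_nonneg _).trans (hL 0)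
  have h1 : ∀ τ ∈ uIcc t s, ‖H' τ - H' t‖ ≤ L * |s - t| := by
    intro τ hτ
    have h2 := (convex_univ (𝕜 := ℝ) (E := ℝ)).norm_image_sub_le_of_norm_hasDerivWithin_le
      (f := H') (f' := H'') (C := L) (fun x _ => (hH' x).hasDerivWithinAt) (fun x _ => hL x)
      (mem_univ t) (mem_univ τ)
    refine h2.trans ?_
    apply mul_le_mul_of_nonneg_left _ hL0
    rw [Real.norm_eq_abs]
    exact abs_sub_left_of_mem_uIcc hτ
  have h3 := (convex_uIcc t s).norm_image_sub_le_of_norm_hasDerivWithin_le
    (f := fun τ => H τ - (τ : ℂ) * H' t) (f' := fun τ => H' τ - H' t) (C := L * |s - t|)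
    (fun x _ => by
      have h4 : HasDerivAt (fun t : ℝ => ((t : ℝ) : ℂ)) 1 x := Complex.ofRealCLM.hasDerivAt
      have h5 := (hH x).sub (h4.mul_const (H' t))
      rw [one_mul] at h5
      exact h5.hasDerivWithinAt) h1 left_mem_uIcc right_mem_uIcc
  rw [Real.norm_eq_abs] at h3
  refine le_trans (le_of_eq ?_) h3
  congr 1
  push_cast
  ring

theorem count_lemma (H H' H'' : ℝ → ℂ) (hH : ∀ t, HasDerivAt H (H' t) t)
    (hH' : ∀ t, HasDerivAt H' (H'' t) t) (L : ℝ) (hL : ∀ t, ‖H'' t‖ ≤ L) (m δ : ℝ) (hm : 0 < m)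
    (hδ : 0 < δ) :
    volume {t : ℝ | t ∈ Icc (0 : ℝ) 1 ∧ ‖H t‖ < δ ∧ m ≤ ‖H' t‖} ≤
      ENNReal.ofReal ((2 * L / m + 1) * (4 * δ / m)) := by
  have hL0 : 0 ≤ L := (norm_nonneg _).trans (hL 0)
  set n : ℕ := ⌊2 * L / m⌋₊ + 1 with hn
  have hn0 : (0 : ℝ) < n := by rw [hn]; positivity
  have hn1 : 2 * L / m ≤ n := by
    rw [hn]; push_cast; exact (Nat.lt_floor_add_one _).le
  have hn2 : (n : ℝ) ≤ 2 * L / m + 1 := by
    rw [hn]; push_cast
    have := Nat.floor_le (show 0 ≤ 2 * L / m by positivity)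
    linarith
  set A : Set ℝ := {t : ℝ | t ∈ Icc (0 : ℝ) 1 ∧ ‖H t‖ < δ ∧ m ≤ ‖H' t‖} with hA
  have hcov : A ⊆ ⋃ k ∈ Finset.range n, A ∩ Icc ((k : ℝ) / n) ((k + 1 : ℝ) / n) := by
    intro t ht
    rw [mem_iUnion₂]
    have ht0 : 0 ≤ t := ht.1.1
    have ht1 : t ≤ 1 := ht.1.2
    rcases eq_or_lt_of_le ht1 with h1 | h1
    · refine ⟨n - 1, ?_, ht, ?_⟩
      · rw [Finset.mem_range]; omega
      · have h2 : ((n - 1 : ℕ) : ℝ) = n - 1 := by
          rw [Nat.cast_sub (by omega)]; simp
        rw [h1, h2]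
        refine ⟨?_, ?_⟩
        · rw [div_le_one hn0]; linarith
        · rw [sub_add_cancel, div_self hn0.ne']
    · refine ⟨⌊t * n⌋₊, ?_, ht, ?_⟩
      · rw [Finset.mem_range, Nat.floor_lt (by positivity)]
        nlinarith
      · refine ⟨?_, ?_⟩
        · rw [div_le_iff₀ hn0]
          exact Nat.floor_le (by positivity)
        · rw [le_div_iff₀ hn0]
          exact (Nat.lt_floor_add_one _).le
  have hpiece : ∀ k ∈ Finset.range n, volume (A ∩ Icc ((k : ℝ) / n) ((k + 1 : ℝ) / n)) ≤
      ENNReal.ofReal (4 * δ / m) := by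
    intro k _
    refine (Real.volume_le_diam _).trans ?_
    apply Metric.ediam_le
    intro s hs t ht
    rw [edist_dist, Real.dist_eq]
    apply ENNReal.ofReal_le_ofReal
    have h1 := local_sep H H' H'' hH hH' L hL s t
    have h2 : ‖((s - t : ℝ) : ℂ) * H' t‖ ≤ ‖H s - H t - ((s - t : ℝ) : ℂ) * H' t‖ +
        (‖H s‖ + ‖H t‖) := by
      have h3 : ((s - t : ℝ) : ℂ) * H' t =
          -(H s - H t - ((s - t : ℝ) : ℂ) * H' t) + (H s - H t) := by ring
      calc ‖((s - t : ℝ) : ℂ) * H' t‖ = ‖-(H s - H t - ((s - t : ℝ) : ℂ) * H' t) + (H s - H t)‖ := by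
            rw [← h3]
        _ ≤ ‖-(H s - H t - ((s - t : ℝ) : ℂ) * H' t)‖ + ‖H s - H t‖ := norm_add_le _ _
        _ ≤ _ := by rw [norm_neg]; gcongr; exact norm_sub_le _ _
    rw [norm_mul, Complex.norm_real, Real.norm_eq_abs] at h2
    have h4 : |s - t| ≤ 1 / n := by
      rw [abs_le]
      have e1 := hs.2.1; have e2 := hs.2.2; have e3 := ht.2.1; have e4 := ht.2.2
      have e5 : ((k : ℝ) + 1) / n = k / n + 1 / n := by ring
      rw [e5] at e2 e4
      constructor <;> linarith
    have h5 : L * |s - t| ≤ m / 2 := by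
      have h6 : 2 * L ≤ m * n := by
        rw [div_le_iff₀ hm] at hn1; linarith
      have h7 : L * |s - t| ≤ L * (1 / n) := mul_le_mul_of_nonneg_left h4 hL0
      have h8 : L * (1 / n) ≤ m / 2 := by
        rw [mul_one_div, div_le_iff₀ hn0]; linarith
      linarith
    have h9 : m * |s - t| ≤ |s - t| * ‖H' t‖ := by
      rw [mul_comm]
      exact mul_le_mul_of_nonneg_left ht.1.2.2 (abs_nonneg _)
    have h10 : L * |s - t| * |s - t| ≤ m / 2 * |s - t| :=
      mul_le_mul_of_nonneg_right h5 (abs_nonneg _)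
    have h11 : ‖H s‖ < δ := hs.1.2.1
    have h12 : ‖H t‖ < δ := ht.1.2.1
    rw [le_div_iff₀ hm]
    linarith
  calc volume A ≤ volume (⋃ k ∈ Finset.range n, A ∩ Icc ((k : ℝ) / n) ((k + 1 : ℝ) / n)) :=
        measure_mono hcov
    _ ≤ ∑ k ∈ Finset.range n, volume (A ∩ Icc ((k : ℝ) / n) ((k + 1 : ℝ) / n)) :=
        measure_biUnion_finset_le _ _
    _ ≤ ∑ k ∈ Finset.range n, ENNReal.ofReal (4 * δ / m) := Finset.sum_le_sum hpiece
    _ = ENNReal.ofReal (n * (4 * δ / m)) := by
        rw [Finset.sum_const, Finset.card_range, nsmul_eq_mul, ENNReal.ofReal_mul hn0.le,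
          ENNReal.ofReal_natCast]
    _ ≤ _ := by
        apply ENNReal.ofReal_le_ofReal
        apply mul_le_mul_of_nonneg_right hn2
        positivity

/-- exponential sum -/
noncomputable def expSum (S : Finset ℤ) (c : ℤ → ℂ) (t : ℝ) : ℂ := ∑ n ∈ S, c n * e (n * t)

theorem norm_expSum_shift (S : Finset ℤ) (c : ℤ → ℂ) (a : ℤ) (t : ℝ) :
    ‖expSum S c t‖ = ‖∑ n ∈ S, c n * e (((n - a : ℤ) : ℝ) * t)‖ := by
  have h : ∑ n ∈ S, c n * e (((n - a : ℤ) : ℝ) * t) = e (-(a * t)) * expSum S c t := by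
    rw [expSum, Finset.mul_sum]
    apply Finset.sum_congr rfl
    intro n _
    have h1 : ((n - a : ℤ) : ℝ) * t = -(a * t) + n * t := by push_cast; ring
    rw [h1, e_add]; ring
  rw [h, norm_mul, norm_e, one_mul]

theorem hasDerivAt_sum_e (S : Finset ℤ) (c : ℤ → ℂ) (f : ℤ → ℝ) (t : ℝ) :
    HasDerivAt (fun t : ℝ => ∑ n ∈ S, c n * e (f n * t))
      (∑ n ∈ S, (c n * (2 * Real.pi * f n * Complex.I)) * e (f n * t)) t := by
  apply HasDerivAt.fun_sum
  intro n _
  have h := (hasDerivAt_e_mul (f n) t).const_mul (c n)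
  rw [← mul_assoc] at h
  exact h

/-- Lawton type estimate: sublevel sets of an exponential sum with few terms and top coefficient
at least one in absolute value are small, uniformly in the frequencies. -/
theorem sublevel (B : ℝ) (K : ℕ) : ∃ m : ℕ, 0 < m ∧ ∃ C : ℝ, 0 ≤ C ∧
    ∀ (S : Finset ℤ) (c : ℤ → ℂ) (top : ℤ), S.card ≤ K + 1 → top ∈ S → (∀ n ∈ S, n ≤ top) →
      (∑ n ∈ S, ‖c n‖) ≤ B → 1 ≤ ‖c top‖ → ∀ η : ℝ, 0 < η → η ≤ 1 →
      volume {t : ℝ | t ∈ Icc (0 : ℝ) 1 ∧ ‖expSum S c t‖ < η ^ m} ≤ ENNReal.ofReal (C * η) := by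
  induction K with
  | zero =>
    refine ⟨1, one_pos, 0, le_rfl, ?_⟩
    intro S c top hcard htop _ _ hc η hη0 hη1
    have h1 : {t : ℝ | t ∈ Icc (0 : ℝ) 1 ∧ ‖expSum S c t‖ < η ^ 1} = ∅ := by
      rw [eq_empty_iff_forall_notMem]
      rintro t ⟨_, h⟩
      have h2 : S = {top} := by
        symm
        apply Finset.eq_of_subset_of_card_le
        · rwa [Finset.singleton_subset_iff]
        · rw [Finset.card_singleton]; omega
      rw [expSum, h2, Finset.sum_singleton, norm_mul, norm_e, mul_one, pow_one] at h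
      linarith
    rw [h1, measure_empty]
    exact zero_le
  | succ K ih =>
    obtain ⟨m, hm, C, hC, hmain⟩ := ih
    refine ⟨3 * m, by omega, C + (4 * Real.pi * |B| + 1) * 4, by positivity, ?_⟩
    intro S c top hcard htop hmax hB hc η hη0 hη1
    have hB0 : 0 ≤ B := (Finset.sum_nonneg (fun _ _ => norm_nonneg _)).trans hB
    have hpow : η ^ (3 * m) ≤ η ^ m := pow_le_pow_of_le_one hη0.le hη1 (by omega)
    rcases Nat.lt_or_ge S.card (K + 1 + 1) with hlt | hge
    · refine le_trans (measure_mono ?_) ((hmain S c top (by omega) htop hmax hB hc η hη0 hη1).trans ?_)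
      · rintro t ⟨ht, h⟩
        exact ⟨ht, h.trans_le hpow⟩
      · apply ENNReal.ofReal_le_ofReal
        apply mul_le_mul_of_nonneg_right _ hη0.le
        have : 0 ≤ (4 * Real.pi * |B| + 1) * 4 := by positivity
        linarith
    · have hne : S.Nonempty := ⟨top, htop⟩
      set a : ℤ := S.min' hne with ha
      have haS : a ∈ S := S.min'_mem hne
      have hmin : ∀ n ∈ S, a ≤ n := fun n hn => S.min'_le n hn
      have hlt : a < top := by
        rcases lt_or_eq_of_le (hmin top htop) with h | h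
        · exact h
        · exfalso
          have h2 : S ⊆ {top} := by
            intro n hn
            rw [Finset.mem_singleton]
            exact le_antisymm (hmax n hn) (h ▸ hmin n hn)
          have h3 := Finset.card_le_card h2
          rw [Finset.card_singleton] at h3
          omega
      set D : ℝ := ((top - a : ℤ) : ℝ) with hD
      have hD1 : 1 ≤ D := by
        rw [hD]
        exact_mod_cast (by omega : (1 : ℤ) ≤ top - a)
      have hD0 : 0 < D := by linarith
      set S' : Finset ℤ := S.erase a with hS'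
      set c' : ℤ → ℂ := fun n => c n * (((n - a : ℤ) : ℝ) / D : ℝ) with hc'
      have hratio : ∀ n ∈ S, 0 ≤ ((n - a : ℤ) : ℝ) / D ∧ ((n - a : ℤ) : ℝ) / D ≤ 1 := by
        intro n hn
        have h1 : (0 : ℝ) ≤ ((n - a : ℤ) : ℝ) := by
          exact_mod_cast (by have := hmin n hn; omega : (0 : ℤ) ≤ n - a)
        refine ⟨by positivity, ?_⟩
        rw [div_le_one hD0, hD]
        exact_mod_cast (by have := hmax n hn; omega : n - a ≤ top - a)
      have hnormc' : ∀ n ∈ S, ‖c' n‖ ≤ ‖c n‖ := by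
        intro n hn
        rw [hc']
        simp only [norm_mul, Complex.norm_real, Real.norm_eq_abs]
        rw [abs_of_nonneg (hratio n hn).1]
        exact mul_le_of_le_one_right (norm_nonneg _) (hratio n hn).2
      have htopS' : top ∈ S' := Finset.mem_erase.2 ⟨hlt.ne', htop⟩
      have hctop : 1 ≤ ‖c' top‖ := by
        rw [hc']
        simp only
        rw [← hD, div_self hD0.ne', Complex.ofReal_one, mul_one]
        exact hc
      have hIH := hmain S' c' top (by rw [hS', Finset.card_erase_of_mem haS]; omega) htopS'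
        (fun n hn => hmax n (Finset.mem_of_mem_erase hn))
        (by
          calc ∑ n ∈ S', ‖c' n‖ ≤ ∑ n ∈ S, ‖c' n‖ :=
                Finset.sum_le_sum_of_subset_of_nonneg (Finset.erase_subset _ _)
                  (fun _ _ _ => norm_nonneg _)
            _ ≤ ∑ n ∈ S, ‖c n‖ := Finset.sum_le_sum hnormc'
            _ ≤ B := hB) hctop η hη0 hη1
      -- the shifted function and its derivatives
      set H : ℝ → ℂ := fun t => ∑ n ∈ S, c n * e (((n - a : ℤ) : ℝ) * t) with hH
      set H' : ℝ → ℂ := fun t => ∑ n ∈ S, (c n * (2 * Real.pi * ((n - a : ℤ) : ℝ) * Complex.I)) *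
        e (((n - a : ℤ) : ℝ) * t) with hH'
      set H'' : ℝ → ℂ := fun t => ∑ n ∈ S, ((c n * (2 * Real.pi * ((n - a : ℤ) : ℝ) * Complex.I)) *
        (2 * Real.pi * ((n - a : ℤ) : ℝ) * Complex.I)) * e (((n - a : ℤ) : ℝ) * t) with hH''
      have hd1 : ∀ t, HasDerivAt H (H' t) t := fun t => hasDerivAt_sum_e S c _ t
      have hd2 : ∀ t, HasDerivAt H' (H'' t) t := fun t => hasDerivAt_sum_e S _ _ t
      have hL : ∀ t, ‖H'' t‖ ≤ (2 * Real.pi * D) ^ 2 * B := by
        intro t
        rw [hH'']
        simp only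
        refine (norm_sum_le _ _).trans ?_
        calc _ ≤ ∑ n ∈ S, (2 * Real.pi * D) ^ 2 * ‖c n‖ := by
              apply Finset.sum_le_sum
              intro n hn
              have h1 : (0 : ℝ) ≤ ((n - a : ℤ) : ℝ) := by
                exact_mod_cast (by have := hmin n hn; omega : (0 : ℤ) ≤ n - a)
              have h2 : ((n - a : ℤ) : ℝ) ≤ D := by
                rw [hD]
                exact_mod_cast (by have := hmax n hn; omega : n - a ≤ top - a)
              rw [norm_mul, norm_e, mul_one, norm_mul, norm_mul]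
              have h3 : ‖(2 * Real.pi * ((n - a : ℤ) : ℝ) * Complex.I : ℂ)‖ =
                  2 * Real.pi * ((n - a : ℤ) : ℝ) := by
                rw [norm_mul, Complex.norm_I, mul_one]
                have : (2 * Real.pi * ((n - a : ℤ) : ℝ) : ℂ) =
                    ((2 * Real.pi * ((n - a : ℤ) : ℝ) : ℝ) : ℂ) := by push_cast; ring
                rw [this, Complex.norm_real, Real.norm_eq_abs, abs_of_nonneg (by positivity)]
              rw [h3]
              have h4 : 2 * Real.pi * ((n - a : ℤ) : ℝ) ≤ 2 * Real.pi * D := by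
                apply mul_le_mul_of_nonneg_left h2; positivity
              have h5 : 0 ≤ 2 * Real.pi * ((n - a : ℤ) : ℝ) := by positivity
              have h6 : (2 * Real.pi * ((n - a : ℤ) : ℝ)) * (2 * Real.pi * ((n - a : ℤ) : ℝ)) ≤
                  (2 * Real.pi * D) ^ 2 := by
                rw [sq]; exact mul_le_mul h4 h4 h5 (by positivity)
              calc ‖c n‖ * (2 * Real.pi * ((n - a : ℤ) : ℝ)) * (2 * Real.pi * ((n - a : ℤ) : ℝ))
                  = ‖c n‖ * ((2 * Real.pi * ((n - a : ℤ) : ℝ)) *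
                    (2 * Real.pi * ((n - a : ℤ) : ℝ))) := by ring
                _ ≤ ‖c n‖ * (2 * Real.pi * D) ^ 2 :=
                    mul_le_mul_of_nonneg_left h6 (norm_nonneg _)
                _ = _ := by ring
          _ = (2 * Real.pi * D) ^ 2 * ∑ n ∈ S, ‖c n‖ := by rw [Finset.mul_sum]
          _ ≤ _ := by apply mul_le_mul_of_nonneg_left hB; positivity
      have hH'G : ∀ t, ‖H' t‖ = 2 * Real.pi * D * ‖expSum S' c' t‖ := by
        intro t
        rw [norm_expSum_shift S' c' a t]
        have h1 : H' t = (2 * Real.pi * D * Complex.I) *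
            ∑ n ∈ S', c' n * e (((n - a : ℤ) : ℝ) * t) := by
          rw [hH']
          simp only
          rw [← Finset.add_sum_erase _ _ haS, Finset.mul_sum]
          have h2 : ((a - a : ℤ) : ℝ) = 0 := by simp
          rw [h2, Complex.ofReal_zero, mul_zero, zero_mul, mul_zero, zero_mul, zero_add, hS']
          apply Finset.sum_congr rfl
          intro n _
          rw [hc']
          simp only
          have h3 : (D : ℂ) ≠ 0 := by exact_mod_cast hD0.ne'
          rw [Complex.ofReal_div]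
          field_simp
        rw [h1, norm_mul]
        congr 1
        rw [norm_mul, Complex.norm_I, mul_one]
        have : (2 * Real.pi * D : ℂ) = ((2 * Real.pi * D : ℝ) : ℂ) := by push_cast; ring
        rw [this, Complex.norm_real, Real.norm_eq_abs, abs_of_nonneg (by positivity)]
      have hηm : 0 < η ^ m := by positivity
      have hcount := count_lemma H H' H'' hd1 hd2 ((2 * Real.pi * D) ^ 2 * B) hL
        (2 * Real.pi * D * η ^ m) (η ^ (3 * m)) (by positivity) (by positivity)
      have hsub : {t : ℝ | t ∈ Icc (0 : ℝ) 1 ∧ ‖expSum S c t‖ < η ^ (3 * m)} ⊆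
          {t : ℝ | t ∈ Icc (0 : ℝ) 1 ∧ ‖expSum S' c' t‖ < η ^ m} ∪
          {t : ℝ | t ∈ Icc (0 : ℝ) 1 ∧ ‖H t‖ < η ^ (3 * m) ∧
            2 * Real.pi * D * η ^ m ≤ ‖H' t‖} := by
        rintro t ⟨ht, h⟩
        by_cases h1 : ‖expSum S' c' t‖ < η ^ m
        · exact Or.inl ⟨ht, h1⟩
        · right
          refine ⟨ht, ?_, ?_⟩
          · rw [norm_expSum_shift S c a t] at h
            exact h
          · rw [hH'G]
            apply mul_le_mul_of_nonneg_left (not_lt.1 h1)
            positivity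
      refine (measure_mono hsub).trans ((measure_union_le _ _).trans ?_)
      refine (add_le_add hIH hcount).trans ?_
      rw [← ENNReal.ofReal_add (by positivity) (by positivity)]
      apply ENNReal.ofReal_le_ofReal
      rw [add_mul C]
      refine add_le_add (le_refl (C * η)) ?_
      · have hηle : η ^ m ≤ η := by
          calc η ^ m ≤ η ^ 1 := pow_le_pow_of_le_one hη0.le hη1 (by omega)
            _ = η := pow_one _
        have h3m : η ^ (3 * m) = η ^ m * η ^ m * η ^ m := by
          rw [← pow_add, ← pow_add]; congr 1; ring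
        rw [abs_of_nonneg hB0, h3m]
        have hpi := Real.pi_pos
        have hpi3 := Real.pi_gt_three
        set x : ℝ := η ^ m with hx
        have hx1 : x ≤ 1 := pow_le_one₀ hη0.le hη1
        have e1 : 2 * ((2 * Real.pi * D) ^ 2 * B) / (2 * Real.pi * D * x) =
            4 * Real.pi * D * B / x := by
          field_simp; ring
        have e2 : 4 * (x * x * x) / (2 * Real.pi * D * x) = 4 * (x * x) / (2 * Real.pi * D) := by
          field_simp
        rw [e1, e2]
        have e3 : (4 * Real.pi * D * B / x + 1) * (4 * (x * x) / (2 * Real.pi * D)) =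
            (4 * Real.pi * D * B + x) / (2 * Real.pi * D) * (4 * x) := by
          field_simp
        rw [e3]
        have e4 : (4 * Real.pi * D * B + x) / (2 * Real.pi * D) ≤ 4 * Real.pi * B + 1 := by
          rw [div_le_iff₀ (by positivity)]
          have e5 : 4 * Real.pi * D * B ≤ 4 * Real.pi * B * (2 * Real.pi * D) := by
            have : 0 ≤ 4 * Real.pi * D * B := by positivity
            nlinarith
          have e6 : x ≤ 2 * Real.pi * D := by nlinarith
          nlinarith
        calc (4 * Real.pi * D * B + x) / (2 * Real.pi * D) * (4 * x)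
            ≤ (4 * Real.pi * B + 1) * (4 * x) := by
              apply mul_le_mul_of_nonneg_right e4; positivity
          _ ≤ (4 * Real.pi * B + 1) * (4 * η) := by
              apply mul_le_mul_of_nonneg_left _ (by positivity)
              linarith
          _ = _ := by ring

end Pool.Agent.Lib.MP_5efc61_nt
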