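import Mathlib
import Pool.Agent.Lib.MP_5efc61_nt.Sub

/-!
# Convergence of integrals of logarithms from convergence of moments
-/

open MeasureTheory Set Filter Topology

namespace Pool.Agent.Lib.MP_5efc61_nt

section tail
variable {Ω : Type*} [MeasurableSpace Ω] (μ : Measure Ω) [IsProbabilityMeasure μ]

theorem lintegral_exp_tail (m : ℕ) (hm : 0 < m) (C a : ℝ) (hC : 0 ≤ C) :
    ∫⁻ s in Ioi (0 : ℝ), ENNReal.ofReal (C * Real.exp (-(a + s) / m)) ≤
      ENNReal.ofReal (C * m * Real.exp (-a / m)) := by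
  have hm0 : (0 : ℝ) < m := by exact_mod_cast hm
  have h1 : ∀ s : ℝ, C * Real.exp (-(a + s) / m) = C * Real.exp (-a / m) *
      Real.exp (-(1 / m : ℝ) * s) := by
    intro s
    rw [mul_assoc, ← Real.exp_add]
    congr 2
    field_simp
    ring
  have hneg : -(1 / m : ℝ) < 0 := by
    have : 0 < (1 / m : ℝ) := by positivity
    linarith
  have h2 : IntegrableOn (fun s : ℝ => C * Real.exp (-(a + s) / m)) (Ioi 0) := by
    simp_rw [h1]
    exact (integrableOn_exp_mul_Ioi hneg 0).const_mul _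
  rw [← ofReal_integral_eq_lintegral_ofReal h2
    (Eventually.of_forall fun s => by positivity)]
  apply ENNReal.ofReal_le_ofReal
  simp_rw [h1]
  rw [integral_const_mul, integral_exp_mul_Ioi hneg 0]
  apply le_of_eq
  rw [mul_zero, Real.exp_zero]
  field_simp

variable (X : Ω → ℝ) (B : ℝ)

/-- The truncated logarithm as a continuous function of the square. -/
noncomputable def tlog (a : ℝ) (u : ℝ) : ℝ := 1 / 2 * Real.log (max u (Real.exp (-(2 * a))))

theorem continuous_tlog (a : ℝ) : Continuous (tlog a) := by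
  unfold tlog
  apply continuous_const.mul
  apply Continuous.log
  · exact continuous_id.max continuous_const
  · intro u
    exact (lt_of_lt_of_le (Real.exp_pos _) (le_max_right _ _)).ne'

theorem tlog_sq (a x : ℝ) (hx : 0 < x) : tlog a (x ^ 2) = max (Real.log x) (-a) := by
  unfold tlog
  rcases le_total (Real.log x) (-a) with h | h
  · have h1 : x ^ 2 ≤ Real.exp (-(2 * a)) := by
      rw [Real.log_le_iff_le_exp hx] at h
      calc x ^ 2 ≤ Real.exp (-a) ^ 2 := pow_le_pow_left₀ hx.le h 2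
        _ = _ := by rw [← Real.exp_nat_mul]; congr 1; push_cast; ring
    rw [max_eq_right h1, max_eq_right h, Real.log_exp]; ring
  · have h1 : Real.exp (-(2 * a)) ≤ x ^ 2 := by
      rw [Real.le_log_iff_exp_le hx] at h
      calc Real.exp (-(2 * a)) = Real.exp (-a) ^ 2 := by
            rw [← Real.exp_nat_mul]; congr 1; push_cast; ring
        _ ≤ _ := pow_le_pow_left₀ (Real.exp_pos _).le h 2
    rw [max_eq_left h1, max_eq_left h, Real.log_pow]; push_cast; ring

theorem log_tail (hX : Measurable X) (hX0 : ∀ ω, 0 ≤ X ω) (hXB : ∀ ω, X ω ≤ B) (C : ℝ)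
    (hC : 0 ≤ C) (m : ℕ) (hm : 0 < m)
    (htail : ∀ s : ℝ, 0 ≤ s → μ {ω | X ω < Real.exp (-s)} ≤ ENNReal.ofReal (C * Real.exp (-s / m))) :
    Integrable (fun ω => Real.log (X ω)) μ ∧ ∀ a : ℝ, 0 ≤ a →
      |∫ ω, Real.log (X ω) ∂μ - ∫ ω, tlog a (X ω ^ 2) ∂μ| ≤ C * m * Real.exp (-a / m) := by
  have hm0 : (0 : ℝ) < m := by exact_mod_cast hm
  -- X is a.e. positive
  have hpos : ∀ᵐ ω ∂μ, 0 < X ω := by
    rw [ae_iff]
    have h1 : {ω | ¬ 0 < X ω} ⊆ {ω | X ω = 0} := by
      intro ω hω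
      exact le_antisymm (not_lt.1 hω) (hX0 ω)
    refine measure_mono_null h1 ?_
    have h2 : ∀ s : ℝ, 0 ≤ s → μ {ω | X ω = 0} ≤ ENNReal.ofReal (C * Real.exp (-s / m)) := by
      intro s hs
      refine (measure_mono ?_).trans (htail s hs)
      intro ω hω
      rw [mem_ofPred_eq] at hω ⊢
      rw [hω]
      exact Real.exp_pos _
    have h3 : Tendsto (fun s : ℝ => ENNReal.ofReal (C * Real.exp (-s / m))) atTop (𝓝 0) := by
      have h4 : Tendsto (fun s : ℝ => C * Real.exp (-s / m)) atTop (𝓝 (C * 0)) := by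
        apply Tendsto.const_mul
        apply Real.tendsto_exp_atBot.comp
        have : (fun s : ℝ => -s / m) = fun s : ℝ => -(s / m) := by ext s; ring
        rw [this]
        exact tendsto_neg_atTop_atBot.comp (tendsto_id.atTop_div_const hm0)
      rw [mul_zero] at h4
      have h5 := (ENNReal.continuous_ofReal.tendsto 0).comp h4
      rwa [ENNReal.ofReal_zero] at h5
    exact le_antisymm (ge_of_tendsto h3 ((eventually_ge_atTop 0).mono h2)) zero_le
  -- the truncated part
  have hYint : ∀ a : ℝ, Integrable (fun ω => tlog a (X ω ^ 2)) μ := by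
    intro a
    have hB0 : 0 ≤ B := by
      have : Nonempty Ω := by
        by_contra h
        rw [not_nonempty_iff] at h
        have := measure_univ (μ := μ)
        rw [Set.univ_eq_empty_iff.2 h, measure_empty] at this
        exact zero_ne_one this
      obtain ⟨ω⟩ := this
      exact (hX0 ω).trans (hXB ω)
    obtain ⟨K, hK⟩ := (isCompact_Icc (a := (0 : ℝ)) (b := B ^ 2)).exists_bound_of_continuousOn
      (continuous_tlog a).continuousOn
    refine Integrable.of_bound ((continuous_tlog a).measurable.comp (hX.pow_const 2)).aestronglyMeasurable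
      K (Eventually.of_forall fun ω => ?_)
    exact hK _ ⟨by positivity, pow_le_pow_left₀ (hX0 ω) (hXB ω) 2⟩
  -- the tail part
  set Z : ℝ → Ω → ℝ := fun a ω => tlog a (X ω ^ 2) - Real.log (X ω) with hZ
  have hZ0 : ∀ a, 0 ≤ᵐ[μ] Z a := by
    intro a
    filter_upwards [hpos] with ω hω
    rw [hZ]
    simp only [Pi.zero_apply]
    rw [tlog_sq a _ hω, sub_nonneg]
    exact le_max_left _ _
  have hZmeas : ∀ a, Measurable (Z a) := fun a =>
    ((continuous_tlog a).measurable.comp (hX.pow_const 2)).sub (Real.measurable_log.comp hX)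
  have hZl : ∀ a, 0 ≤ a → ∫⁻ ω, ENNReal.ofReal (Z a ω) ∂μ ≤
      ENNReal.ofReal (C * m * Real.exp (-a / m)) := by
    intro a ha
    rw [lintegral_eq_lintegral_meas_lt μ (hZ0 a) (hZmeas a).aemeasurable]
    refine le_trans ?_ (lintegral_exp_tail m hm C a hC)
    apply lintegral_mono_ae
    rw [ae_restrict_iff' measurableSet_Ioi]
    refine Eventually.of_forall ?_
    intro s hs
    rw [mem_Ioi] at hs
    refine le_trans (measure_mono_ae ?_) (htail (a + s) (by linarith))
    filter_upwards [hpos] with ω hω h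
    change s < Z a ω at h
    change X ω < Real.exp (-(a + s))
    rw [← Real.log_lt_iff_lt_exp hω]
    rw [hZ] at h
    simp only at h
    rw [tlog_sq a _ hω] at h
    rcases le_total (Real.log (X ω)) (-a) with h1 | h1
    · rw [max_eq_right h1] at h; linarith
    · rw [max_eq_left h1] at h; linarith
  have hZint : ∀ a, 0 ≤ a → Integrable (Z a) μ := by
    intro a ha
    refine ⟨(hZmeas a).aestronglyMeasurable, ?_⟩
    rw [hasFiniteIntegral_iff_ofReal (hZ0 a)]
    exact (hZl a ha).trans_lt ENNReal.ofReal_lt_top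
  have hlogint : Integrable (fun ω => Real.log (X ω)) μ := by
    have h1 := (hYint 0).sub (hZint 0 le_rfl)
    refine h1.congr (Eventually.of_forall fun ω => ?_)
    rw [hZ]
    simp
  refine ⟨hlogint, ?_⟩
  intro a ha
  have h1 : ∫ ω, Z a ω ∂μ = ∫ ω, tlog a (X ω ^ 2) ∂μ - ∫ ω, Real.log (X ω) ∂μ :=
    integral_sub (hYint a) hlogint
  have h2 : 0 ≤ ∫ ω, Z a ω ∂μ := integral_nonneg_of_ae (hZ0 a)
  have h3 : ∫ ω, Z a ω ∂μ ≤ C * m * Real.exp (-a / m) := by
    rw [integral_eq_lintegral_of_nonneg_ae (hZ0 a) (hZmeas a).aestronglyMeasurable]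
    exact ENNReal.toReal_le_of_le_ofReal (by positivity) (hZl a ha)
  rw [abs_sub_comm, ← h1, abs_of_nonneg h2]
  exact h3

end tail

/-- the unit interval as a probability space -/
noncomputable abbrev ν : Measure ℝ := volume.restrict (Icc (0 : ℝ) 1)

instance : IsProbabilityMeasure ν := ⟨by simp [ν]⟩

section conv
variable {Ω : Type*} [MeasurableSpace Ω] (μ : Measure Ω) [IsProbabilityMeasure μ]
  (X : Ω → ℝ) (Y : ℕ → ℝ → ℝ) (B : ℝ)

theorem integrable_of_bdd {Ω : Type*} [MeasurableSpace Ω] (μ : Measure Ω) [IsProbabilityMeasure μ]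
    (X : Ω → ℝ) (B : ℝ) (hX : Measurable X) (hX0 : ∀ ω, 0 ≤ X ω) (hXB : ∀ ω, X ω ≤ B)
    (g : ℝ → ℝ) (hg : Continuous g) : Integrable (fun ω => g (X ω ^ 2)) μ := by
  obtain ⟨K, hK⟩ := (isCompact_Icc (a := (0 : ℝ)) (b := B ^ 2)).exists_bound_of_continuousOn
    hg.continuousOn
  refine Integrable.of_bound (hg.measurable.comp (hX.pow_const 2)).aestronglyMeasurable
    K (Eventually.of_forall fun ω => ?_)
  exact hK _ ⟨by positivity, pow_le_pow_left₀ (hX0 ω) (hXB ω) 2⟩

theorem poly_near {Ω : Type*} [MeasurableSpace Ω] (μ : Measure Ω) [IsProbabilityMeasure μ]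
    (X : Ω → ℝ) (B : ℝ) (hX : Measurable X) (hX0 : ∀ ω, 0 ≤ X ω) (hXB : ∀ ω, X ω ≤ B)
    (g : ℝ → ℝ) (hg : Continuous g) (p : Polynomial ℝ) (ε : ℝ)
    (hp : ∀ x ∈ Icc 0 (B ^ 2), |p.eval x - g x| < ε) :
    |∫ ω, g (X ω ^ 2) ∂μ - ∫ ω, p.eval (X ω ^ 2) ∂μ| ≤ ε := by
  rw [← integral_sub (integrable_of_bdd μ X B hX hX0 hXB g hg)
    (integrable_of_bdd μ X B hX hX0 hXB (fun u => p.eval u) p.continuous)]
  have h2 := norm_integral_le_of_norm_le_const (μ := μ) (C := ε)
    (f := fun ω => g (X ω ^ 2) - p.eval (X ω ^ 2)) (Eventually.of_forall fun ω => by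
      have := hp (X ω ^ 2) ⟨by positivity, pow_le_pow_left₀ (hX0 ω) (hXB ω) 2⟩
      rw [abs_sub_comm] at this
      rw [Real.norm_eq_abs]
      exact this.le)
  rw [Real.norm_eq_abs] at h2
  simpa using h2

theorem conv_poly (hX : Measurable X) (hX0 : ∀ ω, 0 ≤ X ω) (hXB : ∀ ω, X ω ≤ B)
    (hY : ∀ n, Measurable (Y n)) (hY0 : ∀ n t, 0 ≤ Y n t) (hYB : ∀ n t, Y n t ≤ B)
    (hmom : ∀ k : ℕ, Tendsto (fun n => ∫ t, (Y n t ^ 2) ^ k ∂ν) atTop
      (𝓝 (∫ ω, (X ω ^ 2) ^ k ∂μ))) (p : Polynomial ℝ) :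
    Tendsto (fun n => ∫ t, p.eval (Y n t ^ 2) ∂ν) atTop (𝓝 (∫ ω, p.eval (X ω ^ 2) ∂μ)) := by
  have h1 : ∀ n, ∫ t, p.eval (Y n t ^ 2) ∂ν =
      ∑ k ∈ Finset.range (p.natDegree + 1), p.coeff k * ∫ t, (Y n t ^ 2) ^ k ∂ν := by
    intro n
    simp_rw [Polynomial.eval_eq_sum_range]
    rw [integral_finsetSum]
    · apply Finset.sum_congr rfl
      intro k _
      rw [integral_const_mul]
    · intro k _
      exact (integrable_of_bdd ν (Y n) B (hY n) (hY0 n) (hYB n) (fun u => u ^ k)
        (continuous_pow k)).const_mul _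
  have h2 : ∫ ω, p.eval (X ω ^ 2) ∂μ =
      ∑ k ∈ Finset.range (p.natDegree + 1), p.coeff k * ∫ ω, (X ω ^ 2) ^ k ∂μ := by
    simp_rw [Polynomial.eval_eq_sum_range]
    rw [integral_finsetSum]
    · apply Finset.sum_congr rfl
      intro k _
      rw [integral_const_mul]
    · intro k _
      exact (integrable_of_bdd μ X B hX hX0 hXB (fun u => u ^ k) (continuous_pow k)).const_mul _
  simp_rw [h1]
  rw [h2]
  apply tendsto_finsetSum
  intro k _
  exact (hmom k).const_mul _

theorem conv_cont (hX : Measurable X) (hX0 : ∀ ω, 0 ≤ X ω) (hXB : ∀ ω, X ω ≤ B)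
    (hY : ∀ n, Measurable (Y n)) (hY0 : ∀ n t, 0 ≤ Y n t) (hYB : ∀ n t, Y n t ≤ B)
    (hmom : ∀ k : ℕ, Tendsto (fun n => ∫ t, (Y n t ^ 2) ^ k ∂ν) atTop
      (𝓝 (∫ ω, (X ω ^ 2) ^ k ∂μ))) (g : ℝ → ℝ) (hg : Continuous g) :
    Tendsto (fun n => ∫ t, g (Y n t ^ 2) ∂ν) atTop (𝓝 (∫ ω, g (X ω ^ 2) ∂μ)) := by
  rw [Metric.tendsto_atTop]
  intro ε hε
  obtain ⟨p, hp⟩ := exists_polynomial_near_of_continuousOn 0 (B ^ 2) g hg.continuousOn (ε / 4)
    (by linarith)
  have hconv := conv_poly μ X Y B hX hX0 hXB hY hY0 hYB hmom p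
  rw [Metric.tendsto_atTop] at hconv
  obtain ⟨N, hN⟩ := hconv (ε / 4) (by linarith)
  refine ⟨N, fun n hn => ?_⟩
  have h1 := hN n hn
  rw [Real.dist_eq] at h1 ⊢
  have h3 := poly_near ν (Y n) B (hY n) (hY0 n) (hYB n) g hg p (ε / 4) hp
  have h4 := poly_near μ X B hX hX0 hXB g hg p (ε / 4) hp
  have h5 : ∫ t, g (Y n t ^ 2) ∂ν - ∫ ω, g (X ω ^ 2) ∂μ =
      (∫ t, g (Y n t ^ 2) ∂ν - ∫ t, p.eval (Y n t ^ 2) ∂ν) +
      (∫ t, p.eval (Y n t ^ 2) ∂ν - ∫ ω, p.eval (X ω ^ 2) ∂μ) -
      (∫ ω, g (X ω ^ 2) ∂μ - ∫ ω, p.eval (X ω ^ 2) ∂μ) := by ring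
  rw [h5]
  refine (abs_sub _ _).trans_lt ?_
  refine (add_le_add_left (abs_add_le _ _) _).trans_lt ?_
  linarith

/-- Boyd-Lawton, abstract form. -/
theorem conv_log (hX : Measurable X) (hX0 : ∀ ω, 0 ≤ X ω) (hXB : ∀ ω, X ω ≤ B)
    (hY : ∀ n, Measurable (Y n)) (hY0 : ∀ n t, 0 ≤ Y n t) (hYB : ∀ n t, Y n t ≤ B)
    (hmom : ∀ k : ℕ, Tendsto (fun n => ∫ t, (Y n t ^ 2) ^ k ∂ν) atTop
      (𝓝 (∫ ω, (X ω ^ 2) ^ k ∂μ))) (C : ℝ) (hC : 0 ≤ C) (m : ℕ) (hm : 0 < m)
    (htail : ∀ᶠ n in atTop, ∀ s : ℝ, 0 ≤ s →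
      ν {t | Y n t < Real.exp (-s)} ≤ ENNReal.ofReal (C * Real.exp (-s / m))) :
    Integrable (fun ω => Real.log (X ω)) μ ∧
    Tendsto (fun n => ∫ t, Real.log (Y n t) ∂ν) atTop (𝓝 (∫ ω, Real.log (X ω) ∂μ)) := by
  have hm0 : (0 : ℝ) < m := by exact_mod_cast hm
  have hm1 : (1 : ℝ) ≤ m := by exact_mod_cast hm
  set C' : ℝ := (C + 1) * Real.exp 1 with hC'
  have hC'0 : 0 ≤ C' := by positivity
  -- tail of the limit
  have htailX : ∀ s : ℝ, 0 ≤ s →
      μ {ω | X ω < Real.exp (-s)} ≤ ENNReal.ofReal (C' * Real.exp (-s / m)) := by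
    intro s hs
    rcases lt_or_ge s 1 with h1 | h1
    · refine (prob_le_one).trans ?_
      rw [← ENNReal.ofReal_one]
      apply ENNReal.ofReal_le_ofReal
      rw [hC', mul_assoc, ← Real.exp_add]
      have h2 : 0 ≤ 1 + -s / m := by
        have : s / m ≤ 1 := by
          rw [div_le_one hm0]; linarith
        rw [neg_div]; linarith
      have h3 : 1 ≤ Real.exp (1 + -s / m) := Real.one_le_exp h2
      nlinarith
    · set g : ℝ → ℝ := fun u => max 0 (min 1 (2 - u * Real.exp (2 * s))) with hg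
      have hgc : Continuous g := by
        rw [hg]; fun_prop
      have hg0 : ∀ u, 0 ≤ g u := fun u => le_max_left _ _
      have hg1 : ∀ u, g u ≤ 1 := fun u => max_le zero_le_one (min_le_left _ _)
      have hconv := conv_cont μ X Y B hX hX0 hXB hY hY0 hYB hmom g hgc
      have hbd : ∀ᶠ n in atTop, ∫ t, g (Y n t ^ 2) ∂ν ≤ C * Real.exp (-(s - 1) / m) := by
        filter_upwards [htail] with n hn
        have h2 : ∀ t, g (Y n t ^ 2) ≤
            indicator {t | Y n t < Real.exp (-(s - 1))} (fun _ => (1 : ℝ)) t := by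
          intro t
          by_cases h3 : Y n t < Real.exp (-(s - 1))
          · rw [indicator_of_mem (by exact h3)]
            exact hg1 _
          · rw [indicator_of_notMem (by exact h3)]
            rw [hg]
            simp only
            rw [max_eq_left]
            refine (min_le_right _ _).trans ?_
            rw [not_lt] at h3
            have h4 : Real.exp (-(s - 1)) ^ 2 ≤ Y n t ^ 2 :=
              pow_le_pow_left₀ (Real.exp_pos _).le h3 2
            have h5 : Real.exp (-(s - 1)) ^ 2 * Real.exp (2 * s) = Real.exp 2 := by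
              rw [← Real.exp_nat_mul, ← Real.exp_add]; congr 1; push_cast; ring
            have h6 : (2 : ℝ) ≤ Real.exp 2 := by
              have := Real.add_one_le_exp (2 : ℝ); linarith
            have h7 : Real.exp (-(s - 1)) ^ 2 * Real.exp (2 * s) ≤ Y n t ^ 2 * Real.exp (2 * s) :=
              mul_le_mul_of_nonneg_right h4 (Real.exp_pos _).le
            linarith
        have hms : MeasurableSet {t | Y n t < Real.exp (-(s - 1))} :=
          measurableSet_lt (hY n) measurable_const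
        calc ∫ t, g (Y n t ^ 2) ∂ν ≤
            ∫ t, indicator {t | Y n t < Real.exp (-(s - 1))} (fun _ => (1 : ℝ)) t ∂ν := by
              apply integral_mono
              · exact integrable_of_bdd ν (Y n) B (hY n) (hY0 n) (hYB n) g hgc
              · exact (integrable_const (1 : ℝ)).indicator hms
              · exact h2
          _ = (ν {t | Y n t < Real.exp (-(s - 1))}).toReal := by
              rw [integral_indicator_const _ hms, smul_eq_mul, mul_one]; rfl
          _ ≤ _ := ENNReal.toReal_le_of_le_ofReal (by positivity) (hn (s - 1) (by linarith))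
      have hlim : ∫ ω, g (X ω ^ 2) ∂μ ≤ C * Real.exp (-(s - 1) / m) := le_of_tendsto hconv hbd
      have hms : MeasurableSet {ω | X ω < Real.exp (-s)} := measurableSet_lt hX measurable_const
      have h8 : (μ {ω | X ω < Real.exp (-s)}).toReal ≤ ∫ ω, g (X ω ^ 2) ∂μ := by
        calc (μ {ω | X ω < Real.exp (-s)}).toReal =
            ∫ ω, indicator {ω | X ω < Real.exp (-s)} (fun _ => (1 : ℝ)) ω ∂μ := by
              rw [integral_indicator_const _ hms, smul_eq_mul, mul_one]; rfl
          _ ≤ _ := by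
              apply integral_mono
              · exact (integrable_const (1 : ℝ)).indicator hms
              · exact integrable_of_bdd μ X B hX hX0 hXB g hgc
              · intro ω
                by_cases h3 : X ω < Real.exp (-s)
                · rw [indicator_of_mem (by exact h3)]
                  change 1 ≤ g (X ω ^ 2)
                  rw [hg]
                  simp only
                  refine le_max_of_le_right (le_min le_rfl ?_)
                  have h4 : X ω ^ 2 ≤ Real.exp (-s) ^ 2 := pow_le_pow_left₀ (hX0 ω) h3.le 2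
                  have h5 : Real.exp (-s) ^ 2 * Real.exp (2 * s) = 1 := by
                    rw [← Real.exp_nat_mul, ← Real.exp_add, ← Real.exp_zero]
                    congr 1; push_cast; ring
                  have h7 : X ω ^ 2 * Real.exp (2 * s) ≤ Real.exp (-s) ^ 2 * Real.exp (2 * s) :=
                    mul_le_mul_of_nonneg_right h4 (Real.exp_pos _).le
                  linarith
                · rw [indicator_of_notMem (by exact h3)]
                  exact hg0 _
      have h9 : C * Real.exp (-(s - 1) / m) ≤ C' * Real.exp (-s / m) := by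
        have e1 : Real.exp (-(s - 1) / m) ≤ Real.exp 1 * Real.exp (-s / m) := by
          rw [← Real.exp_add]
          apply Real.exp_le_exp.2
          have : -(s - 1) / m = -s / m + 1 / m := by ring
          rw [this]
          have : (1 : ℝ) / m ≤ 1 := by rw [div_le_one hm0]; exact hm1
          linarith
        calc C * Real.exp (-(s - 1) / m) ≤ C * (Real.exp 1 * Real.exp (-s / m)) :=
              mul_le_mul_of_nonneg_left e1 hC
          _ ≤ (C + 1) * (Real.exp 1 * Real.exp (-s / m)) := by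
              apply mul_le_mul_of_nonneg_right (by linarith); positivity
          _ = _ := by rw [hC']; ring
      rw [← ENNReal.ofReal_toReal (measure_ne_top μ _)]
      exact ENNReal.ofReal_le_ofReal ((h8.trans hlim).trans h9)
  obtain ⟨hint, hXa⟩ := log_tail μ X B hX hX0 hXB C' hC'0 m hm htailX
  refine ⟨hint, ?_⟩
  rw [Metric.tendsto_atTop]
  intro ε hε
  -- choose a
  have hta : Tendsto (fun a : ℝ => (C + C') * m * Real.exp (-a / m)) atTop (𝓝 0) := by
    have h4 : Tendsto (fun a : ℝ => (C + C') * m * Real.exp (-a / m)) atTop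
        (𝓝 ((C + C') * m * 0)) := by
      apply Tendsto.const_mul
      apply Real.tendsto_exp_atBot.comp
      have : (fun s : ℝ => -s / m) = fun s : ℝ => -(s / m) := by ext s; ring
      rw [this]
      exact tendsto_neg_atTop_atBot.comp (tendsto_id.atTop_div_const hm0)
    rwa [mul_zero] at h4
  obtain ⟨a, ha0, ha⟩ : ∃ a : ℝ, 0 ≤ a ∧ (C + C') * m * Real.exp (-a / m) < ε / 2 := by
    have h1 := (hta.eventually (gt_mem_nhds (show (0 : ℝ) < ε / 2 by linarith))).and
      (eventually_ge_atTop 0)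
    obtain ⟨a, h2, h3⟩ := h1.exists
    exact ⟨a, h3, h2⟩
  have hconv := conv_cont μ X Y B hX hX0 hXB hY hY0 hYB hmom (tlog a) (continuous_tlog a)
  rw [Metric.tendsto_atTop] at hconv
  obtain ⟨N1, hN1⟩ := hconv (ε / 2) (by linarith)
  obtain ⟨N2, hN2⟩ := eventually_atTop.1 htail
  refine ⟨max N1 N2, fun n hn => ?_⟩
  have h1 := hN1 n (le_trans (le_max_left _ _) hn)
  have h2 := (log_tail ν (Y n) B (hY n) (hY0 n) (hYB n) C hC m hm
    (hN2 n (le_trans (le_max_right _ _) hn))).2 a ha0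
  have h3 := hXa a ha0
  rw [Real.dist_eq] at h1 ⊢
  have h5 : ∫ t, Real.log (Y n t) ∂ν - ∫ ω, Real.log (X ω) ∂μ =
      (∫ t, Real.log (Y n t) ∂ν - ∫ t, tlog a (Y n t ^ 2) ∂ν) +
      (∫ t, tlog a (Y n t ^ 2) ∂ν - ∫ ω, tlog a (X ω ^ 2) ∂μ) -
      (∫ ω, Real.log (X ω) ∂μ - ∫ ω, tlog a (X ω ^ 2) ∂μ) := by ring
  rw [h5]
  refine (abs_sub _ _).trans_lt ?_
  refine (add_le_add_left (abs_add_le _ _) _).trans_lt ?_
  have h6 : (C + C') * m * Real.exp (-a / m) = C * m * Real.exp (-a / m) +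
      C' * m * Real.exp (-a / m) := by ring
  linarith

end conv

end Pool.Agent.Lib.MP_5efc61_nt
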