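import Mathlib

/-!
# A number field is `ℚ` when inertia acts trivially on it
-/

open NumberField Pointwise

namespace Pool.Agent.Lib.MP_5efc61_nt

section ram
variable {K L : Type*} [Field K] [NumberField K] [Field L] [NumberField L] [Algebra K L]

/-- `σ` is in the inertia group of `P`, in elementary terms -/
def InertiaAt (P : Ideal (𝓞 L)) (σ : L → L) : Prop :=
  ∀ x y : 𝓞 L, σ (x : L) = (y : L) → y - x ∈ P

theorem perfect_residue {R : Type*} [CommRing R] (p : Ideal R) [p.IsMaximal] [Finite (R ⧸ p)] :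
    PerfectField p.ResidueField := by
  have : Finite p.ResidueField :=
    Finite.of_surjective _ (Ideal.bijective_algebraMap_quotient_residueField p).2
  infer_instance

theorem ramIdx_one [IsGalois ℚ L] (P : Ideal (𝓞 L)) [P.IsPrime] (hP : P ≠ ⊥)
    (h : ∀ σ : L ≃ₐ[ℚ] L, InertiaAt P σ → ∀ y : K, σ (algebraMap K L y) = algebraMap K L y) :
    (P.under (𝓞 K)).ramificationIdx ℤ = 1 := by
  have : IsGalois K L := IsGalois.tower_top_of_isGalois ℚ K L
  let Q := P.under (𝓞 K)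
  let p := P.under ℤ
  let i1 : MulSemiringAction Gal(L/ℚ) (𝓞 L) := IsIntegralClosure.MulSemiringAction ℤ ℚ L (𝓞 L)
  have g1 : IsGaloisGroup Gal(L/ℚ) ℤ (𝓞 L) := IsGaloisGroup.of_isFractionRing _ _ _ ℚ L
  let i2 : MulSemiringAction Gal(L/K) (𝓞 L) := IsIntegralClosure.MulSemiringAction (𝓞 K) K L (𝓞 L)
  have g2 : IsGaloisGroup Gal(L/K) (𝓞 K) (𝓞 L) := IsGaloisGroup.of_isFractionRing _ _ _ K L
  have hQ0 : Q ≠ ⊥ := fun h0 => hP (Ideal.eq_bot_of_comap_eq_bot h0)
  have hp0 : p ≠ ⊥ := fun h0 => hP (Ideal.eq_bot_of_comap_eq_bot h0)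
  have hQm : Q.IsMaximal := Ring.DimensionLEOne.maximalOfPrime hQ0 inferInstance
  have hpm : p.IsMaximal := Ring.DimensionLEOne.maximalOfPrime hp0 inferInstance
  have : Finite (𝓞 K ⧸ Q) := Ideal.finiteQuotientOfFreeOfNeBot Q hQ0
  have : Finite (ℤ ⧸ p) := Ideal.finiteQuotientOfFreeOfNeBot p hp0
  have := perfect_residue Q
  have := perfect_residue p
  have h1 := Ideal.card_inertia_eq_ramificationIdxIn (G := Gal(L/ℚ)) p P
  rw [Ideal.ramificationIdxIn_eq_ramificationIdx p P Gal(L/ℚ)] at h1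
  have h2 := Ideal.card_inertia_eq_ramificationIdxIn (G := Gal(L/K)) Q P
  rw [Ideal.ramificationIdxIn_eq_ramificationIdx Q P Gal(L/K)] at h2
  have h3 : P.ramificationIdx ℤ = Q.ramificationIdx ℤ * P.ramificationIdx (𝓞 K) :=
    Ideal.ramificationIdx_tower (R := ℤ) Q P
  have hpos : 0 < P.ramificationIdx (𝓞 K) := Ideal.ramificationIdx_pos P (𝓞 K)
  have hpos1 : 0 < Q.ramificationIdx ℤ := Ideal.ramificationIdx_pos Q ℤ
  -- the restriction map on inertia groups
  have hin : ∀ σ : P.inertia Gal(L/ℚ), InertiaAt P (σ : L ≃ₐ[ℚ] L) := by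
    intro σ x y hxy
    have h4 : ((σ : Gal(L/ℚ)) • x : 𝓞 L) = y := by
      apply RingOfIntegers.ext
      rw [← hxy]
      exact algebraMap_galRestrict_apply ℤ (σ : L ≃ₐ[ℚ] L) x
    rw [← h4]
    exact σ.2 x
  let f : P.inertia Gal(L/ℚ) → P.inertia Gal(L/K) := fun σ =>
    ⟨AlgEquiv.ofRingEquiv (f := ((σ : Gal(L/ℚ)) : L ≃+* L)) (fun y => h _ (hin σ) y), by
      intro x
      have h5 := hin σ x ((AlgEquiv.ofRingEquiv (f := ((σ : Gal(L/ℚ)) : L ≃+* L))
        (fun y => h _ (hin σ) y) : Gal(L/K)) • x) (by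
          exact (algebraMap_galRestrict_apply (𝓞 K) (AlgEquiv.ofRingEquiv
            (f := ((σ : Gal(L/ℚ)) : L ≃+* L)) (fun y => h _ (hin σ) y) : L ≃ₐ[K] L) x).symm)
      exact h5⟩
  have hf : Function.Injective f := by
    intro σ τ hστ
    apply Subtype.ext
    apply AlgEquiv.ext
    intro x
    have h6 := congrArg (fun g : P.inertia Gal(L/K) => (g : Gal(L/K)) x) hστ
    exact h6
  have h7 : Nat.card (P.inertia Gal(L/ℚ)) ≤ Nat.card (P.inertia Gal(L/K)) :=
    Nat.card_le_card_of_injective f hf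
  change Q.ramificationIdx ℤ = 1
  rw [h1, h2, h3] at h7
  nlinarith

end ram

/-- If for every prime `ℓ` the field `K` embeds in a Galois number field in which the inertia
groups above `ℓ` fix `K`, then `K = ℚ`. -/
theorem rational_of_inertia (K : Type) [Field K] [NumberField K]
    (h : ∀ ℓ : ℕ, ℓ.Prime → ∃ (L : Type) (_ : Field L) (_ : NumberField L) (_ : Algebra K L)
      (_ : IsGalois ℚ L), ∀ P : Ideal (𝓞 L), P.IsPrime → (ℓ : 𝓞 L) ∈ P →
        ∀ σ : L ≃ₐ[ℚ] L, InertiaAt P σ → ∀ y : K, σ (algebraMap K L y) = algebraMap K L y) :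
    Module.finrank ℚ K = 1 := by
  by_contra hne
  obtain ⟨Q, hQ, hram⟩ := NumberField.exists_not_isUnramifiedAt_int (K := K) (𝒪 := 𝓞 K) hne
  have hQ0 : Q ≠ ⊥ := Ideal.IsMaximal.ne_bot_of_isIntegral_int Q
  -- the prime below
  have hp0 : Q.under ℤ ≠ ⊥ := fun h0 => hQ0 (Ideal.eq_bot_of_comap_eq_bot h0)
  obtain ⟨p, hp⟩ := (IsPrincipalIdealRing.principal (Q.under ℤ)).principal
  have hp' : Q.under ℤ = Ideal.span {p} := hp
  have hpne : p ≠ 0 := by
    rintro rfl
    apply hp0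
    rw [hp']; simp
  have hpp : Prime p := by
    rw [← Ideal.span_singleton_prime hpne, ← hp']; infer_instance
  obtain ⟨L, _, _, _, _, hL⟩ := h p.natAbs (Int.prime_iff_natAbs_prime.mp hpp)
  -- a prime above
  obtain ⟨P, hP, hPQ⟩ : ∃ P : Ideal (𝓞 L), P.IsPrime ∧ P.LiesOver Q := by
    obtain ⟨P, hP⟩ := (inferInstance : Nonempty (Q.primesOver (𝓞 L)))
    exact ⟨P, hP.1, hP.2⟩
  have hPQ' : Q = P.under (𝓞 K) := hPQ.over
  have hP0 : P ≠ ⊥ := by
    rintro rfl
    apply hQ0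
    rw [hPQ']
    exact Ideal.under_bot (𝓞 K) (𝓞 L)
  have hmem : ((p.natAbs : ℕ) : 𝓞 L) ∈ P := by
    have h1 : (p : 𝓞 K) ∈ Q := by
      have : p ∈ Q.under ℤ := by rw [hp']; exact Ideal.mem_span_singleton_self p
      exact this
    have h2 : ((p : ℤ) : 𝓞 L) ∈ P := by
      have : algebraMap (𝓞 K) (𝓞 L) (p : 𝓞 K) ∈ P := by
        rw [hPQ'] at h1; exact h1
      simpa using this
    rcases Int.natAbs_eq p with h3 | h3
    · rw [h3] at h2; simpa using h2
    · rw [h3] at h2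
      simpa using h2
  have h1 := ramIdx_one (K := K) P hP0 (hL P hP hmem)
  rw [← hPQ'] at h1
  apply hram
  have : Finite (ℤ ⧸ Q.under ℤ) := Ideal.finiteQuotientOfFreeOfNeBot _ hp0
  have hpm : (Q.under ℤ).IsMaximal := Ring.DimensionLEOne.maximalOfPrime hp0 inferInstance
  have := perfect_residue (Q.under ℤ)
  rwa [← Ideal.ramificationIdx_eq_one_iff]

end Pool.Agent.Lib.MP_5efc61_nt
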