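import Mathlib
import Pool.Agent.Lib.MP_5efc61_nt.Ram

/-!
# Galois action on the product of the roots outside the unit circle
-/

open NumberField Polynomial

namespace Pool.Agent.Lib.MP_5efc61_nt

section mset
variable {L : Type*}

theorem sub_prod (N : L → ℝ) (hN : ∀ x, 0 ≤ N x) (R S' : Multiset L) (h : S' ≤ R)
    [DecidablePred fun x => 1 < N x]
    (hc : S'.card = (R.filter fun x => 1 < N x).card) :
    S' = (R.filter fun x => 1 < N x) ∨
      (S'.map N).prod < ((R.filter fun x => 1 < N x).map N).prod := by
  classical
  set S := R.filter fun x => 1 < N x with hS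
  set A := S'.filter fun x => 1 < N x with hA
  set B := S'.filter fun x => ¬ 1 < N x with hB
  have hAB : A + B = S' := Multiset.filter_add_not _ _
  have hAS : A ≤ S := Multiset.filter_le_filter _ h
  obtain ⟨D, hD⟩ := Multiset.le_iff_exists_add.1 hAS
  have hA1 : ∀ x ∈ A, 1 < N x := fun x hx => (Multiset.mem_filter.1 hx).2
  have hApos : 0 < (A.map N).prod := by
    apply Multiset.prod_pos
    intro y hy
    obtain ⟨x, hx, rfl⟩ := Multiset.mem_map.1 hy
    exact zero_lt_one.trans (hA1 x hx)
  have hB1 : (B.map N).prod ≤ 1 := by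
    have : ∀ M : Multiset L, (∀ x ∈ M, N x ≤ 1) → (M.map N).prod ≤ 1 := by
      intro M
      induction M using Multiset.induction with
      | empty => simp
      | cons a M ih =>
        intro hM
        rw [Multiset.map_cons, Multiset.prod_cons]
        have h1 := hM a (Multiset.mem_cons_self _ _)
        have h2 := ih fun x hx => hM x (Multiset.mem_cons_of_mem hx)
        have h3 : 0 ≤ (M.map N).prod := by
          apply Multiset.prod_nonneg
          intro y hy
          obtain ⟨x, _, rfl⟩ := Multiset.mem_map.1 hy
          exact hN x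
        calc N a * (M.map N).prod ≤ 1 * 1 := mul_le_mul h1 h2 h3 zero_le_one
          _ = 1 := one_mul 1
    exact this B fun x hx => not_lt.1 (Multiset.mem_filter.1 hx).2
  have hB0 : 0 ≤ (B.map N).prod := by
    apply Multiset.prod_nonneg
    intro y hy
    obtain ⟨x, _, rfl⟩ := Multiset.mem_map.1 hy
    exact hN x
  by_cases hD0 : D = 0
  · left
    rw [hD0, add_zero] at hD
    have h1 : B.card = 0 := by
      have := congrArg Multiset.card hAB
      rw [Multiset.card_add, hc, hD] at this
      omega
    rw [Multiset.card_eq_zero] at h1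
    rw [← hAB, h1, add_zero, hD]
  · right
    have hD1 : ∀ M : Multiset L, (∀ x ∈ M, 1 < N x) → 1 ≤ (M.map N).prod := by
      intro M
      induction M using Multiset.induction with
      | empty => simp
      | cons a M ih =>
        intro hM
        rw [Multiset.map_cons, Multiset.prod_cons]
        have h1 := (hM a (Multiset.mem_cons_self _ _)).le
        have h2 := ih fun x hx => hM x (Multiset.mem_cons_of_mem hx)
        exact one_le_mul_of_one_le_of_one_le h1 h2
    have hDS : ∀ x ∈ D, 1 < N x := by
      intro x hx
      have : x ∈ S := by rw [hD]; exact Multiset.mem_add.2 (Or.inr hx)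
      exact (Multiset.mem_filter.1 this).2
    have hDgt : 1 < (D.map N).prod := by
      obtain ⟨a, ha⟩ := Multiset.exists_mem_of_ne_zero hD0
      obtain ⟨M, rfl⟩ := Multiset.exists_cons_of_mem ha
      rw [Multiset.map_cons, Multiset.prod_cons]
      have h1 := hDS a (Multiset.mem_cons_self _ _)
      have h2 := hD1 M fun x hx => hDS x (Multiset.mem_cons_of_mem hx)
      exact one_lt_mul_of_lt_of_le h1 h2
    rw [hD, ← hAB, Multiset.map_add, Multiset.map_add, Multiset.prod_add, Multiset.prod_add]
    calc (A.map N).prod * (B.map N).prod ≤ (A.map N).prod * 1 :=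
          mul_le_mul_of_nonneg_left hB1 hApos.le
      _ < (A.map N).prod * (D.map N).prod := mul_lt_mul_of_pos_left hDgt hApos

theorem ratio_bound (f g : L → ℝ) (ε : ℝ) (hε1 : ε < 1) (hε0 : 0 ≤ ε) (S : Multiset L)
    (hg : ∀ x ∈ S, 1 - ε ≤ g x) (hf : ∀ x ∈ S, f x ≤ 1 + ε) (hf0 : ∀ x ∈ S, 0 ≤ f x)
    (good : L → Prop) [DecidablePred good] (hgood : ∀ x ∈ S, good x → f x = g x) :
    (S.map f).prod * (1 - ε) ^ (S.filter fun x => ¬ good x).card ≤
      (S.map g).prod * (1 + ε) ^ (S.filter fun x => ¬ good x).card := by
  induction S using Multiset.induction with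
  | empty => simp
  | cons a S ih =>
    have hg' : ∀ x ∈ S, 1 - ε ≤ g x := fun x hx => hg x (Multiset.mem_cons_of_mem hx)
    have hf' : ∀ x ∈ S, f x ≤ 1 + ε := fun x hx => hf x (Multiset.mem_cons_of_mem hx)
    have hf0' : ∀ x ∈ S, 0 ≤ f x := fun x hx => hf0 x (Multiset.mem_cons_of_mem hx)
    have hih := ih hg' hf' hf0' (fun x hx => hgood x (Multiset.mem_cons_of_mem hx))
    have hfa0 := hf0 a (Multiset.mem_cons_self _ _)
    have hga := hg a (Multiset.mem_cons_self _ _)
    have hfa := hf a (Multiset.mem_cons_self _ _)
    have hF : 0 ≤ (S.map f).prod := by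
      apply Multiset.prod_nonneg
      intro y hy
      obtain ⟨x, hx, rfl⟩ := Multiset.mem_map.1 hy
      exact hf0' x hx
    have hG : 0 ≤ (S.map g).prod := by
      apply Multiset.prod_nonneg
      intro y hy
      obtain ⟨x, hx, rfl⟩ := Multiset.mem_map.1 hy
      linarith [hg' x hx]
    rw [Multiset.map_cons, Multiset.prod_cons, Multiset.map_cons, Multiset.prod_cons]
    by_cases h : good a
    · rw [Multiset.filter_cons_of_neg _ (by simpa using h)]
      rw [hgood a (Multiset.mem_cons_self _ _) h, mul_assoc, mul_assoc]
      apply mul_le_mul_of_nonneg_left hih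
      linarith
    · rw [Multiset.filter_cons_of_pos _ (by simpa using h), Multiset.card_cons, pow_succ, pow_succ]
      set b := (S.filter fun x => ¬ good x).card
      have h1 : 0 ≤ (S.map f).prod * (1 - ε) ^ b := by
        have : 0 ≤ 1 - ε := by linarith
        positivity
      have h2 : 0 ≤ (S.map g).prod * (1 + ε) ^ b := by positivity
      calc f a * (S.map f).prod * ((1 - ε) ^ b * (1 - ε)) =
          (f a * (1 - ε)) * ((S.map f).prod * (1 - ε) ^ b) := by ring
        _ ≤ ((1 + ε) * g a) * ((S.map g).prod * (1 + ε) ^ b) := by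
            apply mul_le_mul _ hih h1
            · have : 0 ≤ 1 - ε := by linarith
              have : 0 ≤ g a := by linarith
              positivity
            · apply mul_le_mul hfa hga (by linarith) (by linarith)
        _ = _ := by ring

end mset

end Pool.Agent.Lib.MP_5efc61_nt
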