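import Mathlib
import Pool.Agent.Lib.MP_5efc61_nt.Gal

/-!
# Inertia moves few roots
-/

open NumberField Polynomial

namespace Pool.Agent.Lib.MP_5efc61_nt

/-- number of roots of `p` that are roots of `r`, when multiplicities of `p` are controlled. -/
theorem card_common {k : Type*} [CommRing k] [IsDomain k] [DecidableEq k] (p r u v : k[X])
    (hr : r ≠ 0) (h : u * p + v * (X * derivative p) = r) :
    (p.roots.filter fun x => r.IsRoot x).card ≤ 2 * r.natDegree := by
  have hle : p.roots.filter (fun x => r.IsRoot x) ≤ r.roots + r.roots.dedup := by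
    rw [Multiset.le_iff_count]
    intro b
    rw [Multiset.count_add]
    by_cases hb : r.IsRoot b
    · rw [Multiset.count_filter_of_pos hb, count_roots, count_roots]
      have h1 : b ∈ r.roots := (mem_roots hr).2 hb
      have h2 : r.roots.dedup.count b = 1 :=
        Multiset.count_eq_one_of_mem (Multiset.nodup_dedup _) (Multiset.mem_dedup.2 h1)
      rw [h2]
      have h3 : (X - C b) ^ (p.rootMultiplicity b) ∣ p := pow_rootMultiplicity_dvd p b
      have h4 : (X - C b) ^ (p.rootMultiplicity b - 1) ∣ derivative p :=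
        pow_sub_one_dvd_derivative_of_pow_dvd h3
      have h5 : (X - C b) ^ (p.rootMultiplicity b - 1) ∣ r := by
        rw [← h]
        apply dvd_add
        · exact ((pow_dvd_pow _ (Nat.sub_le _ _)).trans h3).mul_left _
        · exact (h4.mul_left _).mul_left _
      have h6 := (le_rootMultiplicity_iff hr).2 h5
      omega
    · rw [Multiset.count_filter_of_neg hb]
      exact Nat.zero_le _
  calc _ ≤ (r.roots + r.roots.dedup).card := Multiset.card_le_card hle
    _ = r.roots.card + r.roots.dedup.card := Multiset.card_add _ _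
    _ ≤ r.natDegree + r.natDegree := by
        have h1 := card_roots' r
        have h2 := Multiset.card_le_card (Multiset.dedup_le r.roots)
        omega
    _ = _ := by ring

/-- a double root mod an ideal is a root of the elimination polynomial. -/
theorem root_of_collision {O k : Type*} [CommRing O] [IsDomain O] [CommRing k] [IsDomain k]
    (π : O →+* k) (p : O[X]) (r u v : k[X])
    (h : u * p.map π + v * (X * derivative (p.map π)) = r) (x y : O) (hxy : x ≠ y)
    (hx : p.IsRoot x) (hy : p.IsRoot y) (hπ : π x = π y) : r.IsRoot (π x) := by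
  obtain ⟨q, hq⟩ := dvd_iff_isRoot.2 hx
  have hqy : q.IsRoot y := by
    have h1 : p.eval y = (y - x) * q.eval y := by rw [hq]; simp
    rw [IsRoot.def] at hy
    rw [hy] at h1
    rcases mul_eq_zero.1 h1.symm with h2 | h2
    · exact absurd (sub_eq_zero.1 h2).symm hxy
    · exact h2
  obtain ⟨q', hq'⟩ := dvd_iff_isRoot.2 hqy
  have h2 : p.map π = (X - C (π x)) ^ 2 * q'.map π := by
    rw [hq, hq', Polynomial.map_mul, Polynomial.map_mul]
    simp only [Polynomial.map_sub, map_X, map_C]
    rw [← hπ]; ring
  have h3 : (X - C (π x)) ^ 2 ∣ p.map π := ⟨_, h2⟩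
  have h4 : (X - C (π x)) ^ (2 - 1) ∣ derivative (p.map π) :=
    pow_sub_one_dvd_derivative_of_pow_dvd h3
  rw [← dvd_iff_isRoot, ← h]
  apply dvd_add
  · exact ((dvd_pow_self _ two_ne_zero).trans h3).mul_left _
  · rw [show 2 - 1 = 1 from rfl, pow_one] at h4
    exact (h4.mul_left _).mul_left _

theorem card_filter_le_of_imp {α : Type*} (s : Multiset α) (p q : α → Prop) [DecidablePred p]
    [DecidablePred q] (h : ∀ x ∈ s, p x → q x) : (s.filter p).card ≤ (s.filter q).card := by
  induction s using Multiset.induction with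
  | empty => simp
  | cons a s ih =>
    have h1 := ih fun x hx => h x (Multiset.mem_cons_of_mem hx)
    by_cases hp : p a
    · rw [Multiset.filter_cons_of_pos _ hp, Multiset.filter_cons_of_pos _
        (h a (Multiset.mem_cons_self _ _) hp), Multiset.card_cons, Multiset.card_cons]
      omega
    · rw [Multiset.filter_cons_of_neg _ hp]
      refine h1.trans (Multiset.card_le_card ?_)
      exact Multiset.filter_le_filter _ (Multiset.le_cons_self _ _)

section main
variable {L : Type} [Field L] [NumberField L]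

omit [NumberField L] in
theorem isIntegral_root (p : ℤ[X]) (hu : IsUnit p.leadingCoeff) (x : L)
    (hx : aeval x p = 0) : IsIntegral ℤ x := by
  obtain ⟨u, hu⟩ := hu
  refine ⟨C ((u⁻¹ : ℤˣ) : ℤ) * p, ?_, ?_⟩
  · rw [Monic, leadingCoeff_mul, leadingCoeff_C, ← hu]
    simp
  · rw [eval₂_mul]
    rw [aeval_def] at hx
    rw [hx, mul_zero]

theorem splits_int (p : ℤ[X]) (hu : IsUnit p.leadingCoeff)
    (hs : (p.map (algebraMap ℤ L)).Splits) : (p.map (algebraMap ℤ (𝓞 L))).Splits := by
  have hinj : Function.Injective (algebraMap (𝓞 L) L) := RingOfIntegers.coe_injective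
  have hmap : (p.map (algebraMap ℤ (𝓞 L))).map (algebraMap (𝓞 L) L) = p.map (algebraMap ℤ L) := by
    rw [map_map]; rfl
  refine Splits.of_splits_map_of_injective (i := algebraMap (𝓞 L) L) hinj ?_ ?_
  · rw [hmap]; exact hs
  · rw [hmap]
    intro a ha
    have h1 : aeval a p = 0 := by
      have := (mem_roots'.1 ha).2
      rwa [IsRoot.def, eval_map_algebraMap] at this
    exact ⟨⟨a, isIntegral_root p hu a h1⟩, rfl⟩

theorem roots_int (p : ℤ[X]) (hu : IsUnit p.leadingCoeff)
    (hs : (p.map (algebraMap ℤ L)).Splits) :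
    (p.map (algebraMap ℤ L)).roots = (p.map (algebraMap ℤ (𝓞 L))).roots.map (algebraMap (𝓞 L) L) := by
  have hinj : Function.Injective (algebraMap (𝓞 L) L) := RingOfIntegers.coe_injective
  rw [← (splits_int p hu hs).roots_map_of_injective hinj, map_map]
  rfl

/-- the number of roots moved by an inertia element is bounded. -/
theorem card_moved (p : ℤ[X]) (hu : IsUnit p.leadingCoeff)
    (hs : (p.map (algebraMap ℤ L)).Splits) (ℓ : ℕ) (hℓ : ℓ.Prime) (r u v : (ZMod ℓ)[X])
    (hr : r ≠ 0)
    (h : u * p.map (Int.castRingHom (ZMod ℓ)) +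
      v * (X * derivative (p.map (Int.castRingHom (ZMod ℓ)))) = r)
    (P : Ideal (𝓞 L)) (hP : P.IsPrime) (hℓP : (ℓ : 𝓞 L) ∈ P) (σ : L ≃ₐ[ℚ] L)
    (hσ : InertiaAt P σ) [DecidableEq L] :
    ((p.map (algebraMap ℤ L)).roots.filter fun x => ¬ σ x = x).card ≤ 2 * r.natDegree := by
  classical
  let k := 𝓞 L ⧸ P
  let π : 𝓞 L →+* k := Ideal.Quotient.mk P
  have : IsDomain k := Ideal.Quotient.isDomain P
  have : CharP k ℓ := by
    rw [CharP.charP_iff_prime_eq_zero hℓ]
    have h1 : ((ℓ : ℕ) : k) = π (ℓ : 𝓞 L) := by simp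
    rw [h1]
    exact Ideal.Quotient.eq_zero_iff_mem.2 hℓP
  have : Fact ℓ.Prime := ⟨hℓ⟩
  let c : ZMod ℓ →+* k := ZMod.castHom (dvd_refl ℓ) k
  have hcinj : Function.Injective c := c.injective
  set pO := p.map (algebraMap ℤ (𝓞 L)) with hpO
  have hpk : pO.map π = (p.map (Int.castRingHom (ZMod ℓ))).map c := by
    rw [hpO, map_map, map_map]
    congr 1
    exact RingHom.ext_int _ _
  have hk : u.map c * pO.map π + v.map c * (X * derivative (pO.map π)) = r.map c := by
    rw [hpk, derivative_map, ← h]
    simp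
  have hrk : r.map c ≠ 0 := (Polynomial.map_ne_zero_iff hcinj).2 hr
  have hpk0 : pO.map π ≠ 0 := by
    intro h0
    have h1 : (pO.map π).coeff p.natDegree = 0 := by rw [h0]; simp
    rw [hpO, coeff_map, coeff_map] at h1
    have h2 : IsUnit (π (algebraMap ℤ (𝓞 L) (p.coeff p.natDegree))) :=
      (hu.map _).map _
    rw [h1] at h2
    exact not_isUnit_zero h2
  have hsplit := splits_int p hu hs
  have hrootsk : (pO.map π).roots = pO.roots.map π := hsplit.roots_map_of_ne_zero hpk0
  have hcard := card_common (pO.map π) (r.map c) _ _ hrk hk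
  rw [hrootsk, Multiset.filter_map, Multiset.card_map] at hcard
  rw [roots_int p hu hs, Multiset.filter_map, Multiset.card_map]
  refine le_trans ?_ (hcard.trans (Nat.mul_le_mul_left 2 natDegree_map_le))
  apply card_filter_le_of_imp
  intro x hx hmove
  simp only [Function.comp_apply] at hmove ⊢
  -- the image of `x`
  have hxL : aeval (x : L) p = 0 := by
    have h1 := (mem_roots'.1 hx).2
    rw [IsRoot.def, eval_map_algebraMap] at h1
    have h2 := aeval_algebraMap_apply L x p
    rw [h1, map_zero] at h2
    exact h2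
  have hyL : aeval (σ (x : L)) p = 0 := by
    have h1 : aeval (σ (x : L)) p = σ (aeval (x : L) p) := by
      have h2 := Polynomial.aeval_algHom_apply ((σ : L →ₐ[ℚ] L).restrictScalars ℤ) (x : L) p
      exact h2
    rw [h1, hxL, map_zero]
  let y : 𝓞 L := ⟨σ (x : L), isIntegral_root p hu _ hyL⟩
  have hy : pO.IsRoot y := by
    rw [IsRoot.def, hpO, eval_map_algebraMap]
    apply RingOfIntegers.coe_injective
    have h2 := aeval_algebraMap_apply L y p
    rw [map_zero, ← h2]
    exact hyL
  have hπ : π x = π y := by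
    have h1 := hσ x y rfl
    exact ((Ideal.Quotient.mk_eq_mk_iff_sub_mem y x).2 h1).symm
  refine root_of_collision π pO (r.map c) (u.map c) (v.map c) hk x y ?_ (mem_roots'.1 hx).2 hy hπ
  intro hxy
  apply hmove
  exact (congrArg (fun z : 𝓞 L => (z : L)) hxy).symm

end main

end Pool.Agent.Lib.MP_5efc61_nt
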