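import Mathlib
import Pool.Agent.Lib.MP_5efc61_nt.Gal2

/-!
# The product of the roots outside the unit circle
-/

open NumberField Polynomial

namespace Pool.Agent.Lib.MP_5efc61_nt

section mu
variable {L : Type} [Field L]

open Classical in
/-- the product of the roots of `p` of absolute value greater than one -/
noncomputable def mu (ι : L →+* ℂ) (p : ℤ[X]) : L :=
  ((p.map (algebraMap ℤ L)).roots.filter fun x => 1 < ‖ι x‖).prod

open Classical in
/-- the product of the remaining roots -/
noncomputable def mu' (ι : L →+* ℂ) (p : ℤ[X]) : L :=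
  ((p.map (algebraMap ℤ L)).roots.filter fun x => ¬ 1 < ‖ι x‖).prod

theorem norm_prod (ι : L →+* ℂ) (S : Multiset L) :
    ‖ι S.prod‖ = (S.map fun x => ‖ι x‖).prod := by
  induction S using Multiset.induction with
  | empty => simp
  | cons a S ih => rw [Multiset.prod_cons, map_mul, norm_mul, ih, Multiset.map_cons,
      Multiset.prod_cons]

theorem roots_map_aut (p : ℤ[X]) (hs : (p.map (algebraMap ℤ L)).Splits) (σ : L →+* L) :
    (p.map (algebraMap ℤ L)).roots.map σ = (p.map (algebraMap ℤ L)).roots := by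
  rw [← hs.roots_map_of_injective σ.injective, map_map]
  congr 2
  exact RingHom.ext_int _ _

theorem mu_or_lt (ι : L →+* ℂ) (p : ℤ[X]) (hs : (p.map (algebraMap ℤ L)).Splits) (σ : L →+* L) :
    σ (mu ι p) = mu ι p ∨ ‖ι (σ (mu ι p))‖ < ‖ι (mu ι p)‖ := by
  classical
  set R := (p.map (algebraMap ℤ L)).roots with hR
  have h1 := sub_prod (fun x : L => ‖ι x‖) (fun x => norm_nonneg _) R
    ((R.filter fun x => 1 < ‖ι x‖).map σ) (by
      calc (R.filter fun x => 1 < ‖ι x‖).map σ ≤ R.map σ :=
            Multiset.map_le_map (Multiset.filter_le _ _)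
        _ = R := roots_map_aut p hs σ) (by rw [Multiset.card_map])
  have h2 : σ (mu ι p) = ((R.filter fun x => 1 < ‖ι x‖).map σ).prod := by
    rw [mu, map_multiset_prod]
  rcases h1 with h1 | h1
  · left
    rw [h2, h1]; rfl
  · right
    rw [h2, norm_prod, mu, norm_prod]
    exact h1

theorem mu_mul (ι : L →+* ℂ) (p : ℤ[X]) :
    mu ι p * mu' ι p = (p.map (algebraMap ℤ L)).roots.prod := by
  classical
  rw [mu, mu', ← Multiset.prod_add, Multiset.filter_add_not]

theorem prod_max (ι : L →+* ℂ) (R : Multiset L) :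
    ((R.map ι).map fun a => max 1 ‖a‖).prod =
      (((open Classical in R.filter fun x => 1 < ‖ι x‖)).map fun x => ‖ι x‖).prod := by
  classical
  induction R using Multiset.induction with
  | empty => simp
  | cons a R ih =>
    rw [Multiset.map_cons, Multiset.map_cons, Multiset.prod_cons, ih]
    by_cases h : 1 < ‖ι a‖
    · rw [Multiset.filter_cons_of_pos (p := fun x => 1 < ‖ι x‖) _ h, Multiset.map_cons,
        Multiset.prod_cons, max_eq_right h.le]
    · rw [Multiset.filter_cons_of_neg (p := fun x => 1 < ‖ι x‖) _ h, max_eq_left (not_lt.1 h),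
        one_mul]

theorem roots_complex (ι : L →+* ℂ) (p : ℤ[X]) (hs : (p.map (algebraMap ℤ L)).Splits) :
    (p.map (Int.castRingHom ℂ)).roots = (p.map (algebraMap ℤ L)).roots.map ι := by
  rw [← hs.roots_map_of_injective ι.injective, map_map]
  congr 2
  exact RingHom.ext_int _ _

theorem norm_mu (ι : L →+* ℂ) (p : ℤ[X]) (hu : IsUnit p.leadingCoeff)
    (hs : (p.map (algebraMap ℤ L)).Splits) :
    ‖ι (mu ι p)‖ = (p.map (Int.castRingHom ℂ)).mahlerMeasure := by
  rw [mahlerMeasure_eq_leadingCoeff_mul_prod_roots, roots_complex ι p hs, prod_max, mu,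
    norm_prod]
  have h1 : ‖(p.map (Int.castRingHom ℂ)).leadingCoeff‖ = 1 := by
    rw [leadingCoeff_map_of_injective (RingHom.injective_int _)]
    rcases Int.isUnit_iff.1 hu with h | h
    · rw [h]; simp
    · rw [h]; simp
  rw [h1, one_mul]

theorem conj_mu (ι : L →+* ℂ) (p : ℤ[X]) (hs : (p.map (algebraMap ℤ L)).Splits) :
    (starRingEnd ℂ) (ι (mu ι p)) = ι (mu ι p) := by
  classical
  have h1 : ι (mu ι p) = ((p.map (Int.castRingHom ℂ)).roots.filter fun z => 1 < ‖z‖).prod := by
    rw [roots_complex ι p hs, Multiset.filter_map, mu, map_multiset_prod]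
    rfl
  have hsC : (p.map (Int.castRingHom ℂ)).Splits := IsAlgClosed.splits _
  have h2 : (p.map (Int.castRingHom ℂ)).roots.map (starRingEnd ℂ) =
      (p.map (Int.castRingHom ℂ)).roots := by
    rw [← hsC.roots_map_of_injective (starRingEnd ℂ).injective, map_map]
    congr 2
    exact RingHom.ext_int _ _
  rw [h1, map_multiset_prod]
  conv_rhs => rw [← h2]
  rw [Multiset.filter_map]
  congr 2
  apply Multiset.filter_congr
  intro z _
  simp

theorem mu_eq_sign (ι : L →+* ℂ) (p : ℤ[X]) (hu : IsUnit p.leadingCoeff)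
    (hs : (p.map (algebraMap ℤ L)).Splits) (M : ℝ)
    (hM : (p.map (Int.castRingHom ℂ)).mahlerMeasure = M) :
    ι (mu ι p) = M ∨ ι (mu ι p) = -M := by
  obtain ⟨r, hr⟩ := Complex.conj_eq_iff_real.1 (conj_mu ι p hs)
  have h1 := norm_mu ι p hu hs
  rw [hM, hr, Complex.norm_real, Real.norm_eq_abs] at h1
  rw [hr]
  rcases abs_choice r with h | h
  · left; rw [← h1, h]
  · right; rw [← h1, h]; simp

end mu

section integral
variable {L : Type} [Field L]

theorem isIntegral_prod (S : Multiset L) (h : ∀ x ∈ S, IsIntegral ℤ x) : IsIntegral ℤ S.prod := by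
  induction S using Multiset.induction with
  | empty => simpa using isIntegral_one
  | cons a S ih =>
    rw [Multiset.prod_cons]
    exact (h a (Multiset.mem_cons_self _ _)).mul
      (ih fun x hx => h x (Multiset.mem_cons_of_mem hx))

theorem isIntegral_of_mem_roots (p : ℤ[X]) (hu : IsUnit p.leadingCoeff) (x : L)
    (hx : x ∈ (p.map (algebraMap ℤ L)).roots) : IsIntegral ℤ x := by
  apply isIntegral_root p hu x
  have h1 := (mem_roots'.1 hx).2
  rwa [IsRoot.def, eval_map_algebraMap] at h1

theorem isIntegral_mu (ι : L →+* ℂ) (p : ℤ[X]) (hu : IsUnit p.leadingCoeff) :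
    IsIntegral ℤ (mu ι p) :=
  isIntegral_prod _ fun x hx => isIntegral_of_mem_roots p hu x (Multiset.mem_filter.1 hx).1

theorem isIntegral_mu' (ι : L →+* ℂ) (p : ℤ[X]) (hu : IsUnit p.leadingCoeff) :
    IsIntegral ℤ (mu' ι p) :=
  isIntegral_prod _ fun x hx => isIntegral_of_mem_roots p hu x (Multiset.mem_filter.1 hx).1

theorem mu_mul_mu' (ι : L →+* ℂ) (p : ℤ[X]) (hu : IsUnit p.leadingCoeff)
    (hc : IsUnit (p.coeff 0)) (hs : (p.map (algebraMap ℤ L)).Splits) [CharZero L] :
    mu ι p * mu' ι p = 1 ∨ mu ι p * mu' ι p = -1 := by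
  rw [mu_mul]
  have h1 := hs.coeff_zero_eq_leadingCoeff_mul_prod_roots
  rw [coeff_map] at h1
  have h2 : (p.map (algebraMap ℤ L)).leadingCoeff = algebraMap ℤ L p.leadingCoeff :=
    leadingCoeff_map_of_injective (RingHom.injective_int _) _
  rw [h2] at h1
  set x := (p.map (algebraMap ℤ L)).roots.prod
  have h3 : algebraMap ℤ L (p.coeff 0) ^ 2 = 1 := by
    rcases Int.isUnit_iff.1 hc with h | h <;> rw [h] <;> simp
  have h4 : algebraMap ℤ L p.leadingCoeff ^ 2 = 1 := by
    rcases Int.isUnit_iff.1 hu with h | h <;> rw [h] <;> simp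
  have h5 : ((-1 : L) ^ (p.map (algebraMap ℤ L)).natDegree) ^ 2 = 1 := by
    rw [← pow_mul, mul_comm, pow_mul]; simp
  have h6 : x ^ 2 = 1 := by
    rw [h1, mul_pow, mul_pow, h4, h5, one_mul, one_mul] at h3
    exact h3
  have h7 : (x - 1) * (x + 1) = 0 := by linear_combination h6
  rcases mul_eq_zero.1 h7 with h | h
  · exact Or.inl (sub_eq_zero.1 h)
  · exact Or.inr (eq_neg_of_add_eq_zero_left h)

end integral

end Pool.Agent.Lib.MP_5efc61_nt
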