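import Mathlib
import Pool.Agent.Lib.MP_5efc61_nt.Gal3

/-!
# A constant Mahler measure in a family with roots tending to the unit circle is rational
-/

open NumberField Polynomial IntermediateField Filter Topology

namespace Pool.Agent.Lib.MP_5efc61_nt

/-- the splitting field inside `ℂ` -/
noncomputable abbrev spl (p : ℤ[X]) : IntermediateField ℚ ℂ :=
  IntermediateField.adjoin ℚ ((p.map (Int.castRingHom ℚ)).rootSet ℂ)

instance spl_split (p : ℤ[X]) : (p.map (Int.castRingHom ℚ)).IsSplittingField ℚ (spl p) :=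
  IntermediateField.adjoin_rootSet_isSplittingField (IsAlgClosed.splits _)

instance spl_fin (p : ℤ[X]) : FiniteDimensional ℚ (spl p) :=
  IsSplittingField.finiteDimensional (spl p) (p.map (Int.castRingHom ℚ))

instance spl_nf (p : ℤ[X]) : NumberField (spl p) where

instance spl_normal (p : ℤ[X]) : Normal ℚ (spl p) :=
  Normal.of_isSplittingField (p.map (Int.castRingHom ℚ))

instance spl_galois (p : ℤ[X]) : IsGalois ℚ (spl p) where

theorem spl_splits (p : ℤ[X]) : (p.map (algebraMap ℤ (spl p))).Splits := by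
  have h := IsSplittingField.splits (L := spl p) (p.map (Int.castRingHom ℚ))
  rw [Polynomial.map_map] at h
  have : (algebraMap ℚ (spl p)).comp (Int.castRingHom ℚ) = algebraMap ℤ (spl p) :=
    RingHom.ext_int _ _
  rwa [this] at h

/-- the inclusion -/
noncomputable abbrev inc (p : ℤ[X]) : spl p →+* ℂ := algebraMap (spl p) ℂ

theorem M_mem (p : ℤ[X]) (hu : IsUnit p.leadingCoeff) (M : ℝ)
    (hM : (p.map (Int.castRingHom ℂ)).mahlerMeasure = M) : (M : ℂ) ∈ spl p := by
  rcases mu_eq_sign (inc p) p hu (spl_splits p) M hM with h | h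
  · rw [← h]; exact (mu (inc p) p).2
  · have h1 : (M : ℂ) = -(inc p (mu (inc p) p)) := by rw [h]; simp
    rw [h1]
    exact neg_mem (mu (inc p) p).2

theorem M_integral (p : ℤ[X]) (hu : IsUnit p.leadingCoeff) (M : ℝ)
    (hM : (p.map (Int.castRingHom ℂ)).mahlerMeasure = M) : IsIntegral ℤ (M : ℂ) := by
  have h0 : IsIntegral ℤ (inc p (mu (inc p) p)) :=
    (isIntegral_mu (inc p) p hu).map ((inc p).toIntAlgHom)
  rcases mu_eq_sign (inc p) p hu (spl_splits p) M hM with h | h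
  · rwa [← h]
  · have h1 : (M : ℂ) = -(inc p (mu (inc p) p)) := by rw [h]; simp
    rw [h1]
    exact h0.neg

/-- `M` is a unit in the algebraic integers. -/
theorem M_unit (p : ℤ[X]) (hu : IsUnit p.leadingCoeff) (hc : IsUnit (p.coeff 0)) (M : ℝ)
    (hM : (p.map (Int.castRingHom ℂ)).mahlerMeasure = M) :
    ∃ w : ℂ, IsIntegral ℤ w ∧ (M : ℂ) * w = 1 := by
  have h0 : IsIntegral ℤ (inc p (mu' (inc p) p)) :=
    (isIntegral_mu' (inc p) p hu).map ((inc p).toIntAlgHom)
  set w := inc p (mu' (inc p) p)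
  have h1 : inc p (mu (inc p) p) * w = 1 ∨ inc p (mu (inc p) p) * w = -1 := by
    rcases mu_mul_mu' (inc p) p hu hc (spl_splits p) with h | h
    · left; rw [← map_mul, h, map_one]
    · right; rw [← map_mul, h, map_neg, map_one]
  rcases mu_eq_sign (inc p) p hu (spl_splits p) M hM with h | h <;> rw [h] at h1 <;>
    rcases h1 with h1 | h1
  · exact ⟨w, h0, h1⟩
  · exact ⟨-w, h0.neg, by linear_combination -h1⟩
  · exact ⟨-w, h0.neg, by linear_combination h1⟩
  · exact ⟨w, h0, by linear_combination -h1⟩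

/-- `M` as an element of the splitting field, and its conjugates -/
theorem M_conj (p : ℤ[X]) (hu : IsUnit p.leadingCoeff) (M : ℝ)
    (hM : (p.map (Int.castRingHom ℂ)).mahlerMeasure = M) (σ : spl p ≃ₐ[ℚ] spl p)
    (x : spl p) (hx : (x : ℂ) = M) : (σ x : ℂ) = M ∨ ‖(σ x : ℂ)‖ < M := by
  have h0 := mu_or_lt (inc p) p (spl_splits p) (σ : spl p →+* spl p)
  have hn := norm_mu (inc p) p hu (spl_splits p)
  rw [hM] at hn
  have hinj : Function.Injective (inc p) := (inc p).injective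
  rcases mu_eq_sign (inc p) p hu (spl_splits p) M hM with h | h
  · have h1 : mu (inc p) p = x := hinj (h.trans hx.symm)
    rw [h1] at h0 hn
    rcases h0 with h0 | h0
    · left
      have : σ x = x := h0
      rw [this, hx]
    · right
      rw [hn] at h0
      exact h0
  · have h1 : mu (inc p) p = -x := by
      apply hinj
      rw [h, map_neg]
      exact congrArg Neg.neg hx.symm
    rw [h1] at h0 hn
    rcases h0 with h0 | h0
    · left
      have h2 : σ (-x) = -x := h0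
      rw [map_neg, neg_inj] at h2
      rw [h2, hx]
    · right
      rw [hn] at h0
      have h3 : inc p ((σ : spl p →+* spl p) (-x)) = -(σ x : ℂ) := by
        rw [map_neg, map_neg]; rfl
      rw [h3, norm_neg] at h0
      exact h0

/-- conjugates of `M` other than `M` are smaller in absolute value -/
theorem M_root (p : ℤ[X]) (hu : IsUnit p.leadingCoeff) (M : ℝ)
    (hM : (p.map (Int.castRingHom ℂ)).mahlerMeasure = M) (z : ℂ)
    (hz : aeval z (minpoly ℚ (M : ℂ)) = 0) : z = M ∨ ‖z‖ < M := by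
  have hmem := M_mem p hu M hM
  let x : spl p := ⟨M, hmem⟩
  have hx : (x : ℂ) = M := rfl
  have halg : IsIntegral ℚ x := Algebra.IsIntegral.isIntegral x
  have hmp : minpoly ℚ (M : ℂ) = minpoly ℚ x :=
    (minpoly.algebraMap_eq (B' := ℂ) (inc p).injective x)
  rw [hmp] at hz
  have hsplit : ((minpoly ℚ x).map (algebraMap ℚ (spl p))).Splits :=
    Normal.splits inferInstance x
  have hroots : ((minpoly ℚ x).map (algebraMap ℚ ℂ)).roots =
      ((minpoly ℚ x).map (algebraMap ℚ (spl p))).roots.map (inc p) := by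
    rw [← hsplit.roots_map_of_injective (inc p).injective, Polynomial.map_map]
    rfl
  have hz1 : z ∈ ((minpoly ℚ x).map (algebraMap ℚ ℂ)).roots := by
    rw [mem_roots', IsRoot.def, eval_map_algebraMap]
    exact ⟨Polynomial.map_ne_zero (minpoly.ne_zero halg), hz⟩
  rw [hroots, Multiset.mem_map] at hz1
  obtain ⟨y, hy, rfl⟩ := hz1
  have hy1 : aeval y (minpoly ℚ x) = 0 := by
    have h1 := (mem_roots'.1 hy).2
    rwa [IsRoot.def, eval_map_algebraMap] at h1
  obtain ⟨σ, hσ⟩ := minpoly.exists_algEquiv_of_root' halg.isAlgebraic hy1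
  have := M_conj p hu M hM σ x hx
  rw [hσ] at this
  exact this

/-- a bound for the other conjugates -/
theorem exists_conj_bound (p : ℤ[X]) (hu : IsUnit p.leadingCoeff) (M : ℝ) (hM1 : 1 < M)
    (hM : (p.map (Int.castRingHom ℂ)).mahlerMeasure = M) :
    ∃ c : ℝ, 0 ≤ c ∧ c < M ∧ ∀ z : ℂ, aeval z (minpoly ℚ (M : ℂ)) = 0 → z ≠ M → ‖z‖ ≤ c := by
  have hint : IsIntegral ℚ (M : ℂ) := (M_integral p hu M hM).tower_top
  have hfin : {z : ℂ | aeval z (minpoly ℚ (M : ℂ)) = 0 ∧ z ≠ M}.Finite := by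
    refine ((minpoly ℚ (M : ℂ)).rootSet_finite ℂ).subset ?_
    rintro z ⟨hz, -⟩
    rw [mem_rootSet]
    exact ⟨minpoly.ne_zero hint, hz⟩
  rcases Set.eq_empty_or_nonempty {z : ℂ | aeval z (minpoly ℚ (M : ℂ)) = 0 ∧ z ≠ M} with h | h
  · refine ⟨0, le_rfl, by linarith, ?_⟩
    intro z hz hne
    exact absurd (show z ∈ {z : ℂ | aeval z (minpoly ℚ (M : ℂ)) = 0 ∧ z ≠ M} from ⟨hz, hne⟩)
      (by rw [h]; exact Set.notMem_empty z)
  · obtain ⟨z0, ⟨hz0, hz0'⟩, hmax⟩ := Set.exists_max_image _ (fun z => ‖z‖) hfin h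
    refine ⟨‖z0‖, norm_nonneg _, ?_, ?_⟩
    · rcases M_root p hu M hM z0 hz0 with h1 | h1
      · exact absurd h1 hz0'
      · exact h1
    · intro z hz hne
      exact hmax z ⟨hz, hne⟩

/-- inertia elements fix `M` when the roots are close to the unit circle -/
theorem inertia_fixes (p : ℤ[X]) (hu : IsUnit p.leadingCoeff) (M : ℝ) (hM1 : 1 < M)
    (hM : (p.map (Int.castRingHom ℂ)).mahlerMeasure = M) (c : ℝ)
    (hc : ∀ z : ℂ, aeval z (minpoly ℚ (M : ℂ)) = 0 → z ≠ M → ‖z‖ ≤ c)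
    (ε : ℝ) (hε0 : 0 < ε) (hε1 : ε < 1) (B : ℕ)
    (hε : c * (1 + ε) ^ (2 * B) < M * (1 - ε) ^ (2 * B))
    (hann : ∀ z : ℂ, aeval z p = 0 → 1 - ε ≤ ‖z‖ ∧ ‖z‖ ≤ 1 + ε)
    (ℓ : ℕ) (hℓ : ℓ.Prime) (r u v : (ZMod ℓ)[X]) (hr : r ≠ 0) (hrB : r.natDegree ≤ B)
    (h : u * p.map (Int.castRingHom (ZMod ℓ)) +
      v * (X * derivative (p.map (Int.castRingHom (ZMod ℓ)))) = r)
    (P : Ideal (𝓞 (spl p))) (hP : P.IsPrime) (hℓP : (ℓ : 𝓞 (spl p)) ∈ P)
    (σ : spl p ≃ₐ[ℚ] spl p) (hσ : InertiaAt P σ) (x : spl p) (hx : (x : ℂ) = M) : σ x = x := by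
  classical
  have hinj : Function.Injective (inc p) := (inc p).injective
  have hs := spl_splits p
  set R := (p.map (algebraMap ℤ (spl p))).roots with hR
  set S := R.filter fun x => 1 < ‖inc p x‖ with hS
  have hmoved := card_moved p hu hs ℓ hℓ r u v hr h P hP hℓP σ hσ
  have hmemR : ∀ y ∈ R, 1 - ε ≤ ‖inc p y‖ ∧ ‖inc p y‖ ≤ 1 + ε := by
    intro y hy
    apply hann
    have h1 := (mem_roots'.1 hy).2
    rw [IsRoot.def, eval_map_algebraMap] at h1
    have h2 := aeval_algebraMap_apply ℂ y p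
    rw [h1, map_zero] at h2
    exact h2
  have hσR : ∀ y ∈ R, σ y ∈ R := by
    intro y hy
    have h1 := roots_map_aut p hs (σ : spl p →+* spl p)
    rw [← hR] at h1
    rw [← h1]
    exact Multiset.mem_map_of_mem _ hy
  have hratio := ratio_bound (fun y : spl p => ‖inc p y‖) (fun y : spl p => ‖inc p (σ y)‖) ε hε1
    hε0.le S (fun y hy => (hmemR _ (hσR y (Multiset.mem_filter.1 hy).1)).1)
    (fun y hy => (hmemR y (Multiset.mem_filter.1 hy).1).2) (fun y _ => norm_nonneg _)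
    (fun y => σ y = y) (fun y _ hy => by simp only [hy])
  set b := (S.filter fun y => ¬ σ y = y).card with hb
  have hbB : b ≤ 2 * B := by
    calc b ≤ (R.filter fun y => ¬ σ y = y).card := by
          apply Multiset.card_le_card
          exact Multiset.filter_le_filter _ (Multiset.filter_le _ _)
      _ ≤ 2 * r.natDegree := hmoved
      _ ≤ 2 * B := Nat.mul_le_mul_left 2 hrB
  have hmu1 : (S.map fun y : spl p => ‖inc p y‖).prod = M := by
    rw [← norm_prod, ← hM, ← norm_mu (inc p) p hu hs]; rfl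
  have hmu2 : (S.map fun y : spl p => ‖inc p (σ y)‖).prod = ‖inc p (σ (mu (inc p) p))‖ := by
    have h1 : σ (mu (inc p) p) = (S.map σ).prod := by
      rw [mu, map_multiset_prod]
    rw [h1, norm_prod, Multiset.map_map]
    rfl
  rw [hmu1, hmu2] at hratio
  -- the absolute value of `σ x`
  have hσx : ‖(σ x : ℂ)‖ = ‖inc p (σ (mu (inc p) p))‖ := by
    rcases mu_eq_sign (inc p) p hu hs M hM with h1 | h1
    · have h2 : mu (inc p) p = x := hinj (h1.trans hx.symm)
      rw [h2]; rfl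
    · have h2 : mu (inc p) p = -x := by
        apply hinj
        rw [h1, map_neg]
        exact congrArg Neg.neg hx.symm
      rw [h2, map_neg, map_neg, norm_neg]
      rfl
  rw [← hσx] at hratio
  have h1e : 0 < 1 - ε := by linarith
  have hbig : M * (1 - ε) ^ (2 * B) ≤ ‖(σ x : ℂ)‖ * (1 + ε) ^ (2 * B) := by
    obtain ⟨d, hd⟩ := Nat.exists_eq_add_of_le hbB
    rw [hd, pow_add, pow_add]
    have e1 : (1 - ε) ^ d ≤ 1 := pow_le_one₀ h1e.le (by linarith)
    have e2 : 1 ≤ (1 + ε) ^ d := one_le_pow₀ (by linarith)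
    calc M * ((1 - ε) ^ b * (1 - ε) ^ d) ≤ M * ((1 - ε) ^ b * 1) := by
          apply mul_le_mul_of_nonneg_left _ (by linarith)
          exact mul_le_mul_of_nonneg_left e1 (by positivity)
      _ = M * (1 - ε) ^ b := by ring
      _ ≤ ‖(σ x : ℂ)‖ * (1 + ε) ^ b := hratio
      _ = ‖(σ x : ℂ)‖ * ((1 + ε) ^ b * 1) := by ring
      _ ≤ _ := by
          apply mul_le_mul_of_nonneg_left _ (norm_nonneg _)
          exact mul_le_mul_of_nonneg_left e2 (by positivity)
  -- `σ x` is a conjugate of `M`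
  have hroot : aeval (σ x : ℂ) (minpoly ℚ (M : ℂ)) = 0 := by
    have hmp : minpoly ℚ (M : ℂ) = minpoly ℚ x := by
      rw [← hx]
      exact (minpoly.algebraMap_eq (B' := ℂ) hinj x)
    rw [hmp]
    have h2 : aeval (σ x) (minpoly ℚ x) = 0 := by
      have h3 := Polynomial.aeval_algHom_apply (σ : spl p →ₐ[ℚ] spl p) x (minpoly ℚ x)
      rw [minpoly.aeval, map_zero] at h3
      exact h3
    have h4 := aeval_algebraMap_apply ℂ (σ x) (minpoly ℚ x)
    rw [h2, map_zero] at h4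
    exact h4
  by_contra hne
  have hne' : (σ x : ℂ) ≠ M := by
    intro h5
    apply hne
    apply hinj
    exact h5.trans hx.symm
  have h6 := hc _ hroot hne'
  have h7 : ‖(σ x : ℂ)‖ * (1 + ε) ^ (2 * B) ≤ c * (1 + ε) ^ (2 * B) :=
    mul_le_mul_of_nonneg_right h6 (by positivity)
  linarith

theorem exists_eps (c M : ℝ) (h : c < M) (n : ℕ) :
    ∃ ε : ℝ, 0 < ε ∧ ε < 1 ∧ c * (1 + ε) ^ n < M * (1 - ε) ^ n := by
  have h1 : Tendsto (fun ε : ℝ => c * (1 + ε) ^ n) (𝓝 0) (𝓝 (c * (1 + 0) ^ n)) :=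
    Continuous.tendsto (by fun_prop) 0
  have h2 : Tendsto (fun ε : ℝ => M * (1 - ε) ^ n) (𝓝 0) (𝓝 (M * (1 - 0) ^ n)) :=
    Continuous.tendsto (by fun_prop) 0
  have h3 := h1.eventually_lt h2 (by simpa using h)
  have h4 : ∀ᶠ ε : ℝ in 𝓝[>] 0, c * (1 + ε) ^ n < M * (1 - ε) ^ n :=
    h3.filter_mono nhdsWithin_le_nhds
  have h5 : ∀ᶠ ε : ℝ in 𝓝[>] 0, ε < 1 :=
    (gt_mem_nhds zero_lt_one).filter_mono nhdsWithin_le_nhds
  obtain ⟨ε, h6, h7, h8⟩ := ((h4.and h5).and self_mem_nhdsWithin).exists.imp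
    fun ε h => (⟨h.1.1, h.1.2, h.2⟩ : _ ∧ _ ∧ _)
  exact ⟨ε, h8, h7, h6⟩

/-- **Key theorem.** A family of integer polynomials, with unit leading and constant coefficients,
whose roots tend to the unit circle and whose number of collisions modulo every prime is bounded
along a subsequence, cannot have a constant Mahler measure `M > 1`. -/
theorem key (M : ℝ) (hM1 : 1 < M) (fam : ℕ → ℤ[X])
    (hlead : ∀ᶠ n in atTop, IsUnit (fam n).leadingCoeff)
    (hconst : ∀ᶠ n in atTop, IsUnit ((fam n).coeff 0))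
    (hmah : ∀ᶠ n in atTop, ((fam n).map (Int.castRingHom ℂ)).mahlerMeasure = M)
    (hann : ∀ ε : ℝ, 0 < ε → ε < 1 → ∀ᶠ n in atTop, ∀ z : ℂ, aeval z (fam n) = 0 →
      1 - ε ≤ ‖z‖ ∧ ‖z‖ ≤ 1 + ε)
    (hsep : ∀ ℓ : ℕ, ℓ.Prime → ∃ B : ℕ, ∃ᶠ n in atTop, ∃ r u v : (ZMod ℓ)[X], r ≠ 0 ∧
      r.natDegree ≤ B ∧ u * (fam n).map (Int.castRingHom (ZMod ℓ)) +
        v * (X * derivative ((fam n).map (Int.castRingHom (ZMod ℓ)))) = r) : False := by
  have hall := (hlead.and hconst).and hmah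
  obtain ⟨n0, ⟨hu0, hc0⟩, hm0⟩ := hall.exists
  have hint : IsIntegral ℤ (M : ℂ) := M_integral _ hu0 M hm0
  have hintQ : IsIntegral ℚ (M : ℂ) := hint.tower_top
  obtain ⟨c, hcnn, hcM, hc⟩ := exists_conj_bound _ hu0 M hM1 hm0
  -- the field generated by `M`
  let K : IntermediateField ℚ ℂ := IntermediateField.adjoin ℚ {(M : ℂ)}
  have : FiniteDimensional ℚ K := IntermediateField.adjoin.finiteDimensional hintQ
  have : NumberField K := {}
  have hKrank : Module.finrank ℚ K = 1 := by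
    apply rational_of_inertia K
    intro ℓ hℓ
    obtain ⟨B, hfreq⟩ := hsep ℓ hℓ
    obtain ⟨ε, hε0, hε1, hε⟩ := exists_eps c M hcM (2 * B)
    obtain ⟨n, ⟨r, u, v, hr, hrB, h⟩, ⟨⟨hu, _⟩, hm⟩, hann'⟩ :=
      (hfreq.and_eventually (hall.and (hann ε hε0 hε1))).exists
    have hmem := M_mem _ hu M hm
    have hle : K ≤ spl (fam n) := by
      rw [IntermediateField.adjoin_le_iff]
      rintro x hx
      rw [Set.mem_singleton_iff] at hx
      rw [hx]; exact hmem
    let alg : Algebra K (spl (fam n)) := (IntermediateField.inclusion hle).toRingHom.toAlgebra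
    refine ⟨spl (fam n), inferInstance, inferInstance, alg, inferInstance, ?_⟩
    intro P hP hℓP σ hσ y
    have hfix := inertia_fixes (fam n) hu M hM1 hm c hc ε hε0 hε1 B hε hann' ℓ hℓ r u v hr hrB h
      P hP hℓP σ hσ ⟨M, hmem⟩ rfl
    -- `σ` fixes everything in `K`
    have hy : ∀ z : ℂ, ∀ hz : z ∈ K, σ ⟨z, hle hz⟩ = ⟨z, hle hz⟩ := by
      intro z hz
      induction hz using IntermediateField.adjoin_induction with
      | mem x hx =>
        rw [Set.mem_singleton_iff] at hx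
        subst hx
        exact hfix
      | algebraMap q =>
        have h1 : (⟨algebraMap ℚ ℂ q, hle (_root_.algebraMap_mem K q)⟩ : spl (fam n)) =
            algebraMap ℚ (spl (fam n)) q := rfl
        rw [h1, AlgEquiv.commutes]
      | add x y hx hy ihx ihy =>
        have h1 : (⟨x + y, hle (add_mem hx hy)⟩ : spl (fam n)) = ⟨x, hle hx⟩ + ⟨y, hle hy⟩ := rfl
        rw [h1, map_add, ihx, ihy]
      | inv x hx ih =>
        have h1 : (⟨x⁻¹, hle (inv_mem hx)⟩ : spl (fam n)) = ⟨x, hle hx⟩⁻¹ := rfl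
        rw [h1, map_inv₀, ih]
      | mul x y hx hy ihx ihy =>
        have h1 : (⟨x * y, hle (mul_mem hx hy)⟩ : spl (fam n)) = ⟨x, hle hx⟩ * ⟨y, hle hy⟩ := rfl
        rw [h1, map_mul, ihx, ihy]
    exact hy y.1 y.2
  -- `M` is rational
  have hKbot : K = ⊥ := IntermediateField.finrank_eq_one_iff.1 hKrank
  have hMK : (M : ℂ) ∈ K := IntermediateField.mem_adjoin_simple_self ℚ (M : ℂ)
  rw [hKbot, IntermediateField.mem_bot] at hMK
  obtain ⟨q, hq⟩ := hMK
  have hqM : ((q : ℚ) : ℂ) = M := by rw [← hq]; rfl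
  have hqint : IsIntegral ℤ q := by
    have : IsIntegral ℤ (algebraMap ℚ ℂ q) := by rw [hq]; exact hint
    exact (isIntegral_algebraMap_iff (algebraMap ℚ ℂ).injective).1 this
  obtain ⟨a, ha⟩ := IsIntegrallyClosed.isIntegral_iff.1 hqint
  obtain ⟨w, hw, hMw⟩ := M_unit _ hu0 hc0 M hm0
  have hMne : (M : ℂ) ≠ 0 := by
    have : M ≠ 0 := by linarith
    exact_mod_cast this
  have hwq : w = algebraMap ℚ ℂ q⁻¹ := by
    rw [map_inv₀, hq]
    field_simp
    rw [mul_comm]; exact hMw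
  have hqinv : IsIntegral ℤ q⁻¹ := by
    rw [hwq] at hw
    exact (isIntegral_algebraMap_iff (algebraMap ℚ ℂ).injective).1 hw
  obtain ⟨b, hb⟩ := IsIntegrallyClosed.isIntegral_iff.1 hqinv
  have hMq : (M : ℝ) = (q : ℝ) := by
    have : ((M : ℝ) : ℂ) = ((q : ℝ) : ℂ) := by rw [← hqM]; push_cast; rfl
    exact_mod_cast this
  have hq1 : 1 < q := by
    have : (1 : ℝ) < (q : ℝ) := by rw [← hMq]; exact hM1
    exact_mod_cast this
  have hab : a * b = 1 := by
    have : (algebraMap ℤ ℚ a) * (algebraMap ℤ ℚ b) = 1 := by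
      rw [ha, hb]
      exact mul_inv_cancel₀ (by linarith)
    rw [← map_mul] at this
    exact (algebraMap ℤ ℚ).injective_int (by rw [this, map_one])
  have ha1 : a = 1 ∨ a = -1 := Int.isUnit_iff.1 (IsUnit.of_mul_eq_one b hab)
  rcases ha1 with h | h
  · rw [h] at ha; simp at ha; linarith
  · rw [h] at ha; simp at ha; linarith

end Pool.Agent.Lib.MP_5efc61_nt
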