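import Mathlib
import Pool.Agent.Lib.MP_5efc61_nt.BL

/-!
# Trigonometric polynomials given by lists, and their moments
-/

open MeasureTheory Set Filter Topology

namespace Pool.Agent.Lib.MP_5efc61_nt

section lists
variable {G : Type*}

/-- Value of the polynomial given by a list of (coefficient, exponent) pairs. -/
noncomputable def evL (χ : G → ℂ) (T : List (ℤ × G)) : ℂ :=
  (T.map fun a => (a.1 : ℂ) * χ a.2).sum

@[simp] theorem evL_nil (χ : G → ℂ) : evL χ ([] : List (ℤ × G)) = 0 := rfl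

@[simp] theorem evL_cons (χ : G → ℂ) (a : ℤ × G) (T : List (ℤ × G)) :
    evL χ (a :: T) = (a.1 : ℂ) * χ a.2 + evL χ T := by simp [evL]

theorem evL_append (χ : G → ℂ) (S T : List (ℤ × G)) :
    evL χ (S ++ T) = evL χ S + evL χ T := by simp [evL]

theorem evL_map {G' : Type*} (χ : G' → ℂ) (f : G → G') (T : List (ℤ × G)) :
    evL χ (T.map fun a => (a.1, f a.2)) = evL (fun g => χ (f g)) T := by
  simp [evL, Function.comp_def]

/-- coefficient of a list polynomial -/
def cf [DecidableEq G] (T : List (ℤ × G)) (g : G) : ℤ :=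
  (T.map fun a => if a.2 = g then a.1 else 0).sum

@[simp] theorem cf_nil [DecidableEq G] (g : G) : cf ([] : List (ℤ × G)) g = 0 := rfl

@[simp] theorem cf_cons [DecidableEq G] (a : ℤ × G) (T : List (ℤ × G)) (g : G) :
    cf (a :: T) g = (if a.2 = g then a.1 else 0) + cf T g := by simp [cf]

/-- sum of absolute values of the coefficients -/
def absL (T : List (ℤ × G)) : ℤ := (T.map fun a => |a.1|).sum

@[simp] theorem absL_nil : absL ([] : List (ℤ × G)) = 0 := rfl

@[simp] theorem absL_cons (a : ℤ × G) (T : List (ℤ × G)) :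
    absL (a :: T) = |a.1| + absL T := by simp [absL]

theorem absL_nonneg (T : List (ℤ × G)) : 0 ≤ absL T := by
  induction T with
  | nil => simp
  | cons a T ih => rw [absL_cons]; positivity

theorem norm_evL_le (χ : G → ℂ) (hχ : ∀ g, ‖χ g‖ = 1) (T : List (ℤ × G)) :
    ‖evL χ T‖ ≤ absL T := by
  induction T with
  | nil => simp
  | cons a T ih =>
    rw [evL_cons, absL_cons]
    refine (norm_add_le _ _).trans ?_
    rw [norm_mul, hχ, mul_one]
    push_cast
    have : ‖(a.1 : ℂ)‖ = |(a.1 : ℝ)| := by simp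
    rw [this]
    linarith

theorem sum_cf [DecidableEq G] (φ : G → ℂ) (T : List (ℤ × G)) (U : Finset G)
    (hU : ∀ a ∈ T, a.2 ∈ U) : ∑ g ∈ U, (cf T g : ℂ) * φ g = evL φ T := by
  induction T with
  | nil => simp
  | cons a T ih =>
    rw [evL_cons, ← ih (fun b hb => hU b (List.mem_cons_of_mem _ hb))]
    simp_rw [cf_cons]
    push_cast
    simp_rw [add_mul]
    rw [Finset.sum_add_distrib]
    congr 1
    simp only [ite_mul, zero_mul]
    rw [Finset.sum_ite_eq]
    rw [if_pos (hU a List.mem_cons_self)]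

theorem sum_abs_cf [DecidableEq G] (T : List (ℤ × G)) (U : Finset G) :
    ∑ g ∈ U, |cf T g| ≤ absL T := by
  induction T with
  | nil => simp
  | cons a T ih =>
    rw [absL_cons]
    calc ∑ g ∈ U, |cf (a :: T) g| ≤ ∑ g ∈ U, (|if a.2 = g then a.1 else 0| + |cf T g|) := by
          apply Finset.sum_le_sum
          intro g _
          rw [cf_cons]
          exact abs_add_le _ _
      _ = ∑ g ∈ U, |if a.2 = g then a.1 else 0| + ∑ g ∈ U, |cf T g| := Finset.sum_add_distrib
      _ ≤ |a.1| + absL T := by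
          apply add_le_add _ ih
          have : ∀ g ∈ U, |if a.2 = g then a.1 else 0| = if a.2 = g then |a.1| else 0 := by
            intro g _
            split_ifs <;> simp
          rw [Finset.sum_congr rfl this, Finset.sum_ite_eq]
          split_ifs
          · exact le_rfl
          · exact abs_nonneg _

end lists

/-- sublevel estimate for list trigonometric polynomials in one variable -/
theorem sublevel_list (K : ℕ) (B : ℝ) : ∃ m : ℕ, 0 < m ∧ ∃ C : ℝ, 0 ≤ C ∧
    ∀ L : List (ℤ × ℤ), L.length ≤ K → (absL L : ℝ) ≤ B → (∃ k, cf L k ≠ 0) →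
      ∀ s : ℝ, 0 ≤ s →
      ν {t | ‖evL (fun k : ℤ => e (k * t)) L‖ < Real.exp (-s)} ≤
        ENNReal.ofReal (C * Real.exp (-s / m)) := by
  obtain ⟨m, hm, C, hC, h⟩ := sublevel B K
  have hm0 : (0 : ℝ) < m := by exact_mod_cast hm
  refine ⟨m, hm, C, hC, ?_⟩
  intro L hlen hB hne s hs
  classical
  set U : Finset ℤ := (L.map Prod.snd).toFinset with hU
  have hUmem : ∀ a ∈ L, a.2 ∈ U := by
    intro a ha
    rw [hU, List.mem_toFinset]
    exact List.mem_map_of_mem ha
  set S : Finset ℤ := U.filter fun k => cf L k ≠ 0 with hS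
  have hout : ∀ k, k ∉ U → cf L k = 0 := by
    intro k hk
    rw [cf]
    apply List.sum_eq_zero
    intro x hx
    rw [List.mem_map] at hx
    obtain ⟨a, ha, rfl⟩ := hx
    rw [if_neg]
    rintro rfl
    exact hk (hUmem a ha)
  have hSne : S.Nonempty := by
    obtain ⟨k, hk⟩ := hne
    refine ⟨k, ?_⟩
    rw [hS, Finset.mem_filter]
    refine ⟨?_, hk⟩
    by_contra h1
    exact hk (hout k h1)
  have hcard : S.card ≤ K + 1 := by
    calc S.card ≤ U.card := Finset.card_filter_le _ _
      _ ≤ (L.map Prod.snd).length := List.toFinset_card_le _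
      _ = L.length := List.length_map ..
      _ ≤ K + 1 := by omega
  set top := S.max' hSne with htop
  have htopS : top ∈ S := S.max'_mem hSne
  have hcoef : 1 ≤ ‖((cf L top : ℤ) : ℂ)‖ := by
    have h1 : cf L top ≠ 0 := (Finset.mem_filter.1 htopS).2
    rw [Complex.norm_intCast]
    exact_mod_cast Int.one_le_abs h1
  have hsum : (∑ n ∈ S, ‖((cf L n : ℤ) : ℂ)‖) ≤ B := by
    refine le_trans ?_ hB
    have h1 : ∑ n ∈ S, ‖((cf L n : ℤ) : ℂ)‖ = ((∑ n ∈ S, |cf L n| : ℤ) : ℝ) := by
      push_cast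
      apply Finset.sum_congr rfl
      intro n _
      rw [Complex.norm_intCast]
    rw [h1]
    exact_mod_cast sum_abs_cf L S
  have hexp : ∀ t : ℝ, expSum S (fun k => ((cf L k : ℤ) : ℂ)) t =
      evL (fun k : ℤ => e (k * t)) L := by
    intro t
    rw [← sum_cf (fun k : ℤ => e (k * t)) L U hUmem, expSum, hS]
    rw [Finset.sum_filter_of_ne]
    intro k _ hk h0
    apply hk
    rw [h0]; simp
  have h2 := h S (fun k => ((cf L k : ℤ) : ℂ)) top hcard htopS
    (fun n hn => S.le_max' n hn) hsum hcoef (Real.exp (-s / m)) (Real.exp_pos _)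
    (by
      rw [Real.exp_le_one_iff, neg_div]
      have : 0 ≤ s / m := by positivity
      linarith)
  have h3 : Real.exp (-s / m) ^ m = Real.exp (-s) := by
    rw [← Real.exp_nat_mul]
    congr 1
    field_simp
  rw [h3] at h2
  simp_rw [hexp] at h2
  refine le_trans (le_of_eq ?_) h2
  have hmeas : Measurable fun t : ℝ => ‖evL (fun k : ℤ => e (k * t)) L‖ := by
    apply Measurable.norm
    simp_rw [← hexp]
    unfold expSum
    apply Finset.measurable_sum
    intro k _
    exact ((continuous_e.comp (continuous_const.mul continuous_id)).measurable).const_mul _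
  rw [ν, Measure.restrict_apply (measurableSet_lt hmeas measurable_const)]
  congr 1
  ext t
  constructor
  · rintro ⟨h4, h5⟩; exact ⟨h5, h4⟩
  · rintro ⟨h4, h5⟩; exact ⟨h5, h4⟩

section mul
variable {G : Type*} [AddCommGroup G]

/-- product of list polynomials -/
def mulL (S T : List (ℤ × G)) : List (ℤ × G) :=
  S.flatMap fun a => T.map fun b => (a.1 * b.1, a.2 + b.2)

theorem evL_mulL (χ : G → ℂ) (hχ : ∀ g h, χ (g + h) = χ g * χ h) (S T : List (ℤ × G)) :
    evL χ (mulL S T) = evL χ S * evL χ T := by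
  induction S with
  | nil => simp [mulL]
  | cons a S ih =>
    have h1 : mulL (a :: S) T = (T.map fun b => (a.1 * b.1, a.2 + b.2)) ++ mulL S T := by
      simp [mulL]
    rw [h1, evL_append, ih, evL_cons, add_mul]
    congr 1
    clear ih h1
    induction T with
    | nil => simp
    | cons b T ih =>
      rw [List.map_cons, evL_cons, evL_cons, ih]
      simp only [hχ]
      push_cast
      ring

/-- the conjugate list polynomial -/
def starL (T : List (ℤ × G)) : List (ℤ × G) := T.map fun a => (a.1, -a.2)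

/-- powers -/
def powL (T : List (ℤ × G)) : ℕ → List (ℤ × G)
  | 0 => [(1, 0)]
  | k + 1 => mulL T (powL T k)

theorem evL_powL (χ : G → ℂ) (hχ : ∀ g h, χ (g + h) = χ g * χ h) (h0 : χ 0 = 1)
    (T : List (ℤ × G)) (k : ℕ) : evL χ (powL T k) = evL χ T ^ k := by
  induction k with
  | zero => simp [powL, h0]
  | succ k ih => rw [powL, evL_mulL χ hχ, ih, pow_succ, mul_comm]

theorem char_zero (χ : G → ℂ) (hχ : ∀ g h, χ (g + h) = χ g * χ h) (hn : ∀ g, ‖χ g‖ = 1) :
    χ 0 = 1 := by
  have h1 := hχ 0 0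
  rw [add_zero] at h1
  have h2 : χ 0 ≠ 0 := by
    intro h
    have := hn 0
    rw [h, norm_zero] at this
    exact zero_ne_one this
  exact (mul_left_cancel₀ h2 (by rw [mul_one]; exact h1)).symm

theorem char_neg (χ : G → ℂ) (hχ : ∀ g h, χ (g + h) = χ g * χ h) (hn : ∀ g, ‖χ g‖ = 1) (g : G) :
    χ (-g) = (starRingEnd ℂ) (χ g) := by
  have h1 : χ g * χ (-g) = 1 := by rw [← hχ, add_neg_cancel, char_zero χ hχ hn]
  have h2 : χ g * (starRingEnd ℂ) (χ g) = 1 := by
    rw [Complex.mul_conj, Complex.normSq_eq_norm_sq, hn]; simp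
  have h3 : χ g ≠ 0 := by
    intro h
    rw [h, zero_mul] at h1
    exact zero_ne_one h1
  exact mul_left_cancel₀ h3 (h1.trans h2.symm)

theorem evL_starL (χ : G → ℂ) (hχ : ∀ g h, χ (g + h) = χ g * χ h) (hn : ∀ g, ‖χ g‖ = 1)
    (T : List (ℤ × G)) : evL χ (starL T) = (starRingEnd ℂ) (evL χ T) := by
  induction T with
  | nil => simp [starL]
  | cons a T ih =>
    have h1 : starL (a :: T) = (a.1, -a.2) :: starL T := by simp [starL]
    rw [h1, evL_cons, evL_cons, ih, map_add, map_mul, ← char_neg χ hχ hn]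
    simp

theorem norm_pow_eq (χ : G → ℂ) (hχ : ∀ g h, χ (g + h) = χ g * χ h) (hn : ∀ g, ‖χ g‖ = 1)
    (T : List (ℤ × G)) (k : ℕ) :
    (((‖evL χ T‖ ^ 2) ^ k : ℝ) : ℂ) = evL χ (powL (mulL T (starL T)) k) := by
  rw [evL_powL χ hχ (char_zero χ hχ hn), evL_mulL χ hχ, evL_starL χ hχ hn, Complex.mul_conj,
    Complex.normSq_eq_norm_sq]
  push_cast
  rfl

/-- A family of unimodular measurable characters. -/
structure CharSys {Ω : Type*} [MeasurableSpace Ω] (χ : G → Ω → ℂ) : Prop where
  meas : ∀ g, Measurable (χ g)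
  norm : ∀ g ω, ‖χ g ω‖ = 1
  add : ∀ g h ω, χ (g + h) ω = χ g ω * χ h ω

variable {Ω : Type*} [MeasurableSpace Ω] (μ : Measure Ω) [IsProbabilityMeasure μ]

theorem CharSys.measurable_evL {χ : G → Ω → ℂ} (h : CharSys χ) (T : List (ℤ × G)) :
    Measurable fun ω => evL (fun g => χ g ω) T := by
  induction T with
  | nil => simp
  | cons a T ih =>
    simp_rw [evL_cons]
    exact ((h.meas a.2).const_mul _).add ih

theorem CharSys.integrable {χ : G → Ω → ℂ} (h : CharSys χ) (g : G) : Integrable (χ g) μ :=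
  Integrable.of_bound (h.meas g).aestronglyMeasurable 1
    (Eventually.of_forall fun ω => (h.norm g ω).le)

theorem CharSys.integrable_evL {χ : G → Ω → ℂ} (h : CharSys χ) (T : List (ℤ × G)) :
    Integrable (fun ω => evL (fun g => χ g ω) T) μ := by
  induction T with
  | nil => simp
  | cons a T ih =>
    simp_rw [evL_cons]
    exact ((h.integrable μ a.2).const_mul _).add ih

theorem CharSys.integral_evL {χ : G → Ω → ℂ} (h : CharSys χ) (T : List (ℤ × G)) :
    ∫ ω, evL (fun g => χ g ω) T ∂μ = evL (fun g => ∫ ω, χ g ω ∂μ) T := by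
  induction T with
  | nil => simp
  | cons a T ih =>
    simp_rw [evL_cons]
    rw [integral_add ((h.integrable μ a.2).const_mul _) (h.integrable_evL μ T), ih,
      integral_const_mul]

theorem CharSys.moment {χ : G → Ω → ℂ} (h : CharSys χ) (T : List (ℤ × G)) (k : ℕ) :
    ((∫ ω, (‖evL (fun g => χ g ω) T‖ ^ 2) ^ k ∂μ : ℝ) : ℂ) =
      evL (fun g => ∫ ω, χ g ω ∂μ) (powL (mulL T (starL T)) k) := by
  rw [← h.integral_evL μ, ← integral_complex_ofReal]
  apply integral_congr_ae
  exact Eventually.of_forall fun ω =>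
    norm_pow_eq (fun g => χ g ω) (fun g g' => h.add g g' ω) (fun g => h.norm g ω) T k

omit [AddCommGroup G] in
theorem tendsto_evL (φn : ℕ → G → ℂ) (φ : G → ℂ) (h : ∀ g, Tendsto (fun n => φn n g) atTop (𝓝 (φ g)))
    (T : List (ℤ × G)) : Tendsto (fun n => evL (φn n) T) atTop (𝓝 (evL φ T)) := by
  induction T with
  | nil => simp
  | cons a T ih =>
    simp_rw [evL_cons]
    exact ((h a.2).const_mul _).add ih

theorem integral_e (k : ℤ) (hk : k ≠ 0) : ∫ t, e (k * t) ∂ν = 0 := by
  rw [ν, integral_Icc_eq_integral_Ioc, ← intervalIntegral.integral_of_le zero_le_one]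
  have hk' : (k : ℝ) ≠ 0 := by exact_mod_cast hk
  have hc : (2 * Real.pi * (k : ℝ) * Complex.I : ℂ) ≠ 0 := by
    have := Real.pi_ne_zero
    have h2 : (Real.pi : ℂ) ≠ 0 := by exact_mod_cast this
    have h3 : ((k : ℝ) : ℂ) ≠ 0 := by exact_mod_cast hk'
    exact mul_ne_zero (mul_ne_zero (mul_ne_zero two_ne_zero h2) h3) Complex.I_ne_zero
  have h1 : ∀ t ∈ uIcc (0 : ℝ) 1, HasDerivAt
      (fun t : ℝ => e (k * t) / (2 * Real.pi * (k : ℝ) * Complex.I)) (e (k * t)) t := by
    intro t _
    have h := (hasDerivAt_e_mul (k : ℝ) t).div_const (2 * Real.pi * (k : ℝ) * Complex.I : ℂ)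
    rwa [mul_div_cancel_left₀ _ hc] at h
  rw [intervalIntegral.integral_eq_sub_of_hasDerivAt h1
    ((continuous_e.comp (continuous_const.mul continuous_id)).intervalIntegrable _ _)]
  have h2 : e (k * 1) = 1 := by
    rw [e, mul_one]
    have : (2 * Real.pi * ((k : ℝ) : ℂ) * Complex.I : ℂ) = (k : ℂ) * (2 * Real.pi * Complex.I) := by
      push_cast; ring
    rw [this, Complex.exp_int_mul_two_pi_mul_I]
  rw [h2, mul_zero, e_zero, sub_self]

end mul

/-- the character system of the curve `t ↦ (t, n t)` -/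
noncomputable def χ1 (n : ℕ) (g : ℤ × ℤ) (t : ℝ) : ℂ := e (((g.1 + n * g.2 : ℤ) : ℝ) * t)

theorem charSys_χ1 (n : ℕ) : CharSys (χ1 n) where
  meas g := (continuous_e.comp (continuous_const.mul continuous_id)).measurable
  norm g t := norm_e _
  add g h t := by
    rw [χ1, χ1, χ1, ← e_add]
    congr 1
    simp only [Prod.fst_add, Prod.snd_add]
    push_cast
    ring

theorem freq_ne_zero (g : ℤ × ℤ) (hg : g ≠ 0) (n : ℕ) (hn : g.1.natAbs < n) :
    g.1 + n * g.2 ≠ 0 := by
  intro h
  apply hg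
  by_cases h2 : g.2 = 0
  · rw [h2, mul_zero, add_zero] at h
    exact Prod.ext h h2
  · exfalso
    have h3 : g.1 = -(n * g.2) := by omega
    have h4 : g.1.natAbs = n * g.2.natAbs := by
      rw [h3, Int.natAbs_neg, Int.natAbs_mul, Int.natAbs_natCast]
    have h5 : 1 ≤ g.2.natAbs := Int.natAbs_pos.2 h2
    nlinarith

theorem eventually_list {α : Type*} (p : ℕ → α → Prop) (T : List α)
    (h : ∀ a ∈ T, ∀ᶠ n in atTop, p n a) : ∀ᶠ n in atTop, ∀ a ∈ T, p n a := by
  induction T with
  | nil => simp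
  | cons a T ih =>
    filter_upwards [h a List.mem_cons_self,
      ih (fun b hb => h b (List.mem_cons_of_mem _ hb))] with n h1 h2
    intro b hb
    rcases List.mem_cons.1 hb with rfl | hb
    · exact h1
    · exact h2 b hb

theorem tendsto_int_χ1 (g : ℤ × ℤ) (hg : g ≠ 0) :
    Tendsto (fun n : ℕ => ∫ t, χ1 n g t ∂ν) atTop (𝓝 0) := by
  apply tendsto_const_nhds.congr'
  filter_upwards [eventually_gt_atTop g.1.natAbs] with n hn
  symm
  exact integral_e _ (freq_ne_zero g hg n hn)

/-- Boyd-Lawton for the curves `t ↦ (t, n t)`, with values in an arbitrary model of the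
two-dimensional torus. -/
theorem boyd_lawton {Ω : Type*} [MeasurableSpace Ω] (μ : Measure Ω) [IsProbabilityMeasure μ]
    (χ : ℤ × ℤ → Ω → ℂ) (hχ : CharSys χ) (hint : ∀ g, g ≠ 0 → ∫ ω, χ g ω ∂μ = 0)
    (T : List (ℤ × (ℤ × ℤ))) (hT : ∃ g, cf T g ≠ 0) :
    Integrable (fun ω => Real.log ‖evL (fun g => χ g ω) T‖) μ ∧
    Tendsto (fun n : ℕ => ∫ t, Real.log ‖evL (fun g => χ1 n g t) T‖ ∂ν) atTop
      (𝓝 (∫ ω, Real.log ‖evL (fun g => χ g ω) T‖ ∂μ)) := by
  obtain ⟨m, hm, C, hC, hsub⟩ := sublevel_list T.length (absL T)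
  apply conv_log μ (fun ω => ‖evL (fun g => χ g ω) T‖) (fun n t => ‖evL (fun g => χ1 n g t) T‖)
    (absL T) (hχ.measurable_evL T).norm (fun ω => norm_nonneg _)
    (fun ω => norm_evL_le _ (fun g => hχ.norm g ω) T)
    (fun n => ((charSys_χ1 n).measurable_evL T).norm) (fun n t => norm_nonneg _)
    (fun n t => norm_evL_le _ (fun g => (charSys_χ1 n).norm g t) T) ?_ C hC m hm ?_
  · intro k
    have h1 : Tendsto (fun n : ℕ => evL (fun g => ∫ t, χ1 n g t ∂ν)
        (powL (mulL T (starL T)) k)) atTop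
        (𝓝 (evL (fun g => ∫ ω, χ g ω ∂μ) (powL (mulL T (starL T)) k))) := by
      apply tendsto_evL
      intro g
      by_cases hg : g = 0
      · subst hg
        have e1 : ∀ n : ℕ, ∫ t, χ1 n (0 : ℤ × ℤ) t ∂ν = 1 := by
          intro n
          have : ∀ t, χ1 n (0 : ℤ × ℤ) t = 1 := by
            intro t; simp [χ1, e_zero]
          simp [this]
        have e2 : ∫ ω, χ 0 ω ∂μ = 1 := by
          have : ∀ ω, χ 0 ω = 1 := fun ω =>
            char_zero (fun g => χ g ω) (fun g g' => hχ.add g g' ω) (fun g => hχ.norm g ω)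
          simp [this]
        rw [e2]
        simp_rw [e1]
        exact tendsto_const_nhds
      · rw [hint g hg]
        exact tendsto_int_χ1 g hg
    simp_rw [← (charSys_χ1 _).moment ν, ← hχ.moment μ] at h1
    have h2 := (Complex.continuous_re.tendsto _).comp h1
    simpa [Function.comp_def] using h2
  · obtain ⟨g0, hg0⟩ := hT
    -- for large `n` the frequencies stay distinct
    have hev : ∀ᶠ n : ℕ in atTop, ∀ a ∈ T, (a.2.1 + n * a.2.2 = g0.1 + n * g0.2 → a.2 = g0) := by
      apply eventually_list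
      intro a _
      filter_upwards [eventually_gt_atTop (a.2.1 - g0.1).natAbs] with n hn h
      by_contra hne
      refine freq_ne_zero (a.2.1 - g0.1, a.2.2 - g0.2) ?_ n hn ?_
      · intro h0
        apply hne
        rw [Prod.ext_iff] at h0 ⊢
        simp only [Prod.fst_zero, Prod.snd_zero] at h0
        omega
      · simp only
        linarith
    filter_upwards [hev] with n hn
    intro s hs
    have hcf : cf (T.map fun a => ((a.1, a.2.1 + (n : ℤ) * a.2.2) : ℤ × ℤ))
        (g0.1 + (n : ℤ) * g0.2) = cf T g0 := by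
      rw [cf, cf, List.map_map]
      congr 1
      apply List.map_congr_left
      intro a ha
      simp only [Function.comp_apply]
      by_cases h : a.2 = g0
      · rw [h, if_pos rfl, if_pos rfl]
      · rw [if_neg h, if_neg (fun h' => h (hn a ha h'))]
    have h1 := hsub (T.map fun a => ((a.1, a.2.1 + (n : ℤ) * a.2.2) : ℤ × ℤ)) (by simp) (by
      apply le_of_eq
      simp [absL, Function.comp_def]) ⟨g0.1 + n * g0.2, by rw [hcf]; exact hg0⟩ s hs
    have h2 : ∀ t : ℝ, evL (fun k : ℤ => e (k * t))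
        (T.map fun a => ((a.1, a.2.1 + (n : ℤ) * a.2.2) : ℤ × ℤ)) =
        evL (fun g => χ1 n g t) T := by
      intro t
      rw [evL_map (fun k : ℤ => e (k * t)) (fun g : ℤ × ℤ => g.1 + n * g.2) T]
      rfl
    simp_rw [h2] at h1
    exact h1

end Pool.Agent.Lib.MP_5efc61_nt
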