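import Mathlib
import Pool.Agent.Lib.MP_5efc61_nt.Key
import Pool.Agent.Lib.MP_5efc61_nt.Trig

/-!
# Families of one-variable polynomials obtained from a list of terms
-/

open Polynomial Filter Topology

namespace Pool.Agent.Lib.MP_5efc61_nt

/-- the one-variable polynomial `F(X, X^n)` -/
noncomputable def fam (T : List (ℤ × (ℕ × ℕ))) (n : ℕ) : ℤ[X] :=
  (T.map fun a => C a.1 * X ^ (a.2.1 + n * a.2.2)).sum

@[simp] theorem fam_nil (n : ℕ) : fam [] n = 0 := rfl

@[simp] theorem fam_cons (a : ℤ × (ℕ × ℕ)) (T : List (ℤ × (ℕ × ℕ))) (n : ℕ) :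
    fam (a :: T) n = C a.1 * X ^ (a.2.1 + n * a.2.2) + fam T n := by simp [fam]

theorem aeval_fam (T : List (ℤ × (ℕ × ℕ))) (n : ℕ) (z : ℂ) :
    aeval z (fam T n) = evL (fun g : ℕ × ℕ => z ^ (g.1 + n * g.2)) T := by
  induction T with
  | nil => simp
  | cons a T ih => rw [fam_cons, map_add, ih, evL_cons]; simp

theorem coeff_zero_fam_mid (mid : List (ℤ × (ℕ × ℕ))) (h : ∀ a ∈ mid, 1 ≤ a.2.2) (n : ℕ)
    (hn : 0 < n) : (fam mid n).coeff 0 = 0 := by
  induction mid with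
  | nil => simp
  | cons a T ih =>
    rw [fam_cons, coeff_add, ih (fun b hb => h b (List.mem_cons_of_mem _ hb)), add_zero,
      coeff_C_mul_X_pow, if_neg]
    have := h a List.mem_cons_self
    have : 0 < n * a.2.2 := Nat.mul_pos hn this
    omega

/-- sum of the `X`-exponents, used as a crude bound -/
def iB (T : List (ℤ × (ℕ × ℕ))) : ℕ := (T.map fun a => a.2.1).sum

theorem le_iB (T : List (ℤ × (ℕ × ℕ))) (a : ℤ × (ℕ × ℕ)) (ha : a ∈ T) : a.2.1 ≤ iB T :=
  List.single_le_sum (fun _ _ => Nat.zero_le _) _ (List.mem_map_of_mem (f := fun a => a.2.1) ha)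

theorem natDegree_fam_lt (mid : List (ℤ × (ℕ × ℕ))) (J : ℕ) (h : ∀ a ∈ mid, a.2.2 < J) (n : ℕ)
    (I : ℕ) (hI : ∀ a ∈ mid, a.2.1 ≤ I) (hn : I < n) (hJ : 0 < J) :
    (fam mid n).natDegree < n * J := by
  induction mid with
  | nil => simp; exact ⟨by omega, hJ⟩
  | cons a T ih =>
    rw [fam_cons]
    have h1 := ih (fun b hb => h b (List.mem_cons_of_mem _ hb))
      (fun b hb => hI b (List.mem_cons_of_mem _ hb))
    have h2 : (C a.1 * X ^ (a.2.1 + n * a.2.2) : ℤ[X]).natDegree < n * J := by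
      refine (natDegree_C_mul_X_pow_le _ _).trans_lt ?_
      have e1 := h a List.mem_cons_self
      have e2 := hI a List.mem_cons_self
      calc a.2.1 + n * a.2.2 < n + n * a.2.2 := by omega
        _ = n * (a.2.2 + 1) := by ring
        _ ≤ n * J := Nat.mul_le_mul_left n e1
    exact (natDegree_add_le _ _).trans_lt (max_lt h2 h1)

/-- a list of terms with unique top and bottom rows -/
structure Generic (cb ct : ℤ) (it J : ℕ) (mid : List (ℤ × (ℕ × ℕ))) : Prop where
  J0 : 0 < J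
  mid1 : ∀ a ∈ mid, 1 ≤ a.2.2
  midJ : ∀ a ∈ mid, a.2.2 < J
  cb : IsUnit cb
  ct : IsUnit ct

theorem norm_unit {c : ℤ} (hc : IsUnit c) : ‖(c : ℂ)‖ = 1 := by
  rcases Int.isUnit_iff.1 hc with h | h <;> rw [h] <;> simp

theorem norm_evL_pow_le (mid : List (ℤ × (ℕ × ℕ))) (f : ℕ × ℕ → ℂ) (b : ℝ)
    (h : ∀ a ∈ mid, ‖f a.2‖ ≤ b) : ‖evL f mid‖ ≤ absL mid * b := by
  induction mid with
  | nil => simp
  | cons a T ih =>
    rw [evL_cons, absL_cons]
    refine (norm_add_le _ _).trans ?_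
    rw [norm_mul]
    have h1 := ih fun x hx => h x (List.mem_cons_of_mem _ hx)
    have h2 := h a List.mem_cons_self
    have h3 : ‖(a.1 : ℂ)‖ = ((|a.1| : ℤ) : ℝ) := by
      rw [Complex.norm_intCast]; push_cast; rfl
    rw [h3]
    push_cast
    rw [add_mul]
    have h4 : (0 : ℝ) ≤ |(a.1 : ℝ)| := abs_nonneg _
    have h5 := mul_le_mul_of_nonneg_left h2 h4
    linarith

section generic
variable {cb ct : ℤ} {it J : ℕ} {mid : List (ℤ × (ℕ × ℕ))} (hG : Generic cb ct it J mid)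
include hG

theorem Generic.coeff_zero (n : ℕ) (hn : 0 < n) :
    (fam ((cb, (0, 0)) :: (ct, (it, J)) :: mid) n).coeff 0 = cb := by
  rw [fam_cons, fam_cons, coeff_add, coeff_add, coeff_zero_fam_mid mid hG.mid1 n hn]
  have : 0 < n * J := Nat.mul_pos hn hG.J0
  simp only [mul_zero, add_zero, coeff_C_mul_X_pow, if_true]
  rw [if_neg (by omega), add_zero]

theorem Generic.leadingCoeff (n : ℕ) (hn : iB mid < n) :
    (fam ((cb, (0, 0)) :: (ct, (it, J)) :: mid) n).leadingCoeff = ct := by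
  have hJ := hG.J0
  have h1 : (fam mid n).natDegree < n * J :=
    natDegree_fam_lt mid J hG.midJ n (iB mid) (fun a ha => le_iB mid a ha) hn hJ
  have hct : ct ≠ 0 := hG.ct.ne_zero
  have hnJ : 0 < n * J := Nat.mul_pos (by omega) hJ
  have h2 : fam ((cb, (0, 0)) :: (ct, (it, J)) :: mid) n =
      C ct * X ^ (it + n * J) + (C cb + fam mid n) := by
    rw [fam_cons, fam_cons]; simp; ring
  rw [h2]
  have h3 : (C cb + fam mid n).degree < (C ct * X ^ (it + n * J) : ℤ[X]).degree := by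
    rw [degree_C_mul_X_pow _ hct]
    refine (degree_add_le _ _).trans_lt (max_lt ?_ ?_)
    · exact degree_C_le.trans_lt (by exact_mod_cast (by omega : 0 < it + n * J))
    · exact degree_le_natDegree.trans_lt (by exact_mod_cast (by omega))
  rw [leadingCoeff_add_of_degree_lt' h3, leadingCoeff_C_mul_X_pow]

/-- the roots tend to the unit circle -/
theorem Generic.annulus (ε : ℝ) (hε0 : 0 < ε) (hε1 : ε < 1) : ∀ᶠ n in atTop, ∀ z : ℂ,
    aeval z (fam ((cb, (0, 0)) :: (ct, (it, J)) :: mid) n) = 0 → 1 - ε ≤ ‖z‖ ∧ ‖z‖ ≤ 1 + ε := by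
  have hJ := hG.J0
  have ht1 : Tendsto (fun n : ℕ => ((absL mid : ℝ) + 1) * (1 - ε) ^ n) atTop (𝓝 0) := by
    have := (tendsto_pow_atTop_nhds_zero_of_lt_one (by linarith : (0 : ℝ) ≤ 1 - ε)
      (by linarith)).const_mul ((absL mid : ℝ) + 1)
    rwa [mul_zero] at this
  have ht2 : Tendsto (fun n : ℕ => (1 + ε) ^ (n - iB mid)) atTop atTop :=
    (tendsto_pow_atTop_atTop_of_one_lt (by linarith : (1 : ℝ) < 1 + ε)).comp
      (tendsto_sub_atTop_nat _)
  filter_upwards [ht1.eventually (gt_mem_nhds zero_lt_one),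
    ht2.eventually (eventually_gt_atTop ((absL mid : ℝ) + 1)), eventually_gt_atTop (iB mid)]
    with n h1 h2 hn z hz
  have habs0 : (0 : ℝ) ≤ absL mid := by exact_mod_cast absL_nonneg mid
  rw [aeval_fam, evL_cons, evL_cons] at hz
  simp only [mul_zero, add_zero, pow_zero, mul_one] at hz
  constructor
  · by_contra hlt
    rw [not_le] at hlt
    have hz1 : ‖z‖ ≤ 1 := by linarith
    have h3 : (cb : ℂ) = -((ct : ℂ) * z ^ (it + n * J) +
        evL (fun g : ℕ × ℕ => z ^ (g.1 + n * g.2)) mid) := by linear_combination hz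
    have h4 := congrArg norm h3
    rw [norm_unit hG.cb, norm_neg] at h4
    have h5 : ‖(ct : ℂ) * z ^ (it + n * J)‖ ≤ ‖z‖ ^ n := by
      rw [norm_mul, norm_unit hG.ct, one_mul, norm_pow]
      apply pow_le_pow_of_le_one (norm_nonneg _) hz1
      calc n = n * 1 := (mul_one n).symm
        _ ≤ n * J := Nat.mul_le_mul_left n hJ
        _ ≤ _ := Nat.le_add_left _ _
    have h6 : ‖evL (fun g : ℕ × ℕ => z ^ (g.1 + n * g.2)) mid‖ ≤ absL mid * ‖z‖ ^ n := by
      apply norm_evL_pow_le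
      intro a ha
      rw [norm_pow]
      apply pow_le_pow_of_le_one (norm_nonneg _) hz1
      calc n = n * 1 := (mul_one n).symm
        _ ≤ n * a.2.2 := Nat.mul_le_mul_left n (hG.mid1 a ha)
        _ ≤ _ := Nat.le_add_left _ _
    have h7 : ‖z‖ ^ n ≤ (1 - ε) ^ n := pow_le_pow_left₀ (norm_nonneg _) hlt.le n
    have h8 : 1 ≤ ((absL mid : ℝ) + 1) * ‖z‖ ^ n := by
      calc (1 : ℝ) = _ := h4
        _ ≤ _ := norm_add_le _ _
        _ ≤ ‖z‖ ^ n + absL mid * ‖z‖ ^ n := add_le_add h5 h6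
        _ = _ := by ring
    have h9 : ((absL mid : ℝ) + 1) * ‖z‖ ^ n ≤ ((absL mid : ℝ) + 1) * (1 - ε) ^ n :=
      mul_le_mul_of_nonneg_left h7 (by linarith)
    linarith
  · by_contra hlt
    rw [not_le] at hlt
    have hz1 : 1 ≤ ‖z‖ := by linarith
    have h3 : (ct : ℂ) * z ^ (it + n * J) = -((cb : ℂ) +
        evL (fun g : ℕ × ℕ => z ^ (g.1 + n * g.2)) mid) := by linear_combination hz
    have h4 := congrArg norm h3
    rw [norm_mul, norm_unit hG.ct, one_mul, norm_pow, norm_neg] at h4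
    set I := iB mid with hI
    have h6 : ‖evL (fun g : ℕ × ℕ => z ^ (g.1 + n * g.2)) mid‖ ≤
        absL mid * ‖z‖ ^ (I + n * (J - 1)) := by
      apply norm_evL_pow_le
      intro a ha
      rw [norm_pow]
      apply pow_le_pow_right₀ hz1
      apply Nat.add_le_add (le_iB mid a ha)
      apply Nat.mul_le_mul_left
      have := hG.midJ a ha
      omega
    have h7 : ‖(cb : ℂ)‖ ≤ ‖z‖ ^ (I + n * (J - 1)) := by
      rw [norm_unit hG.cb]
      exact one_le_pow₀ hz1
    have h8 : ‖z‖ ^ (it + n * J) ≤ ((absL mid : ℝ) + 1) * ‖z‖ ^ (I + n * (J - 1)) := by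
      calc ‖z‖ ^ (it + n * J) = _ := h4
        _ ≤ _ := norm_add_le _ _
        _ ≤ ‖z‖ ^ (I + n * (J - 1)) + absL mid * ‖z‖ ^ (I + n * (J - 1)) := add_le_add h7 h6
        _ = _ := by ring
    have h9 : it + n * J = (it + (n - I)) + (I + n * (J - 1)) := by
      have e1 : n * J = n * (J - 1) + n := by
        have e2 : J = (J - 1) + 1 := by omega
        calc n * J = n * ((J - 1) + 1) := by rw [← e2]
          _ = _ := by ring
      omega
    rw [h9, pow_add] at h8
    have hpos : 0 < ‖z‖ ^ (I + n * (J - 1)) := by positivity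
    have h10 := le_of_mul_le_mul_right h8 hpos
    have h11 : (1 + ε) ^ (n - I) ≤ ‖z‖ ^ (it + (n - I)) := by
      calc (1 + ε) ^ (n - I) ≤ ‖z‖ ^ (n - I) := pow_le_pow_left₀ (by linarith) hlt.le _
        _ ≤ _ := pow_le_pow_right₀ hz1 (Nat.le_add_left _ _)
    linarith

end generic

end Pool.Agent.Lib.MP_5efc61_nt
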