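import Mathlib
import Pool.Agent.Lib.MP_5efc61_nt.Fam

/-!
# Bounded number of collisions modulo a prime, through resultants
-/

open Polynomial Filter Topology

namespace Pool.Agent.Lib.MP_5efc61_nt

section bi
variable (R : Type*) [CommRing R]

/-- the bivariate polynomial of a list of terms -/
noncomputable def bi (T : List (ℤ × (ℕ × ℕ))) : R[X][X] :=
  (T.map fun a => C (C (a.1 : R) * X ^ a.2.1) * X ^ a.2.2).sum

@[simp] theorem bi_nil : bi R [] = 0 := rfl

@[simp] theorem bi_cons (a : ℤ × (ℕ × ℕ)) (T : List (ℤ × (ℕ × ℕ))) :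
    bi R (a :: T) = C (C (a.1 : R) * X ^ a.2.1) * X ^ a.2.2 + bi R T := by simp [bi]

/-- the list of terms of the derivation with weights `(1, ρ)` -/
def dl (ρ : ℤ) (T : List (ℤ × (ℕ × ℕ))) : List (ℤ × (ℕ × ℕ)) :=
  T.map fun a => (a.1 * (a.2.1 + ρ * a.2.2), a.2)

theorem dl_cons (ρ : ℤ) (a : ℤ × (ℕ × ℕ)) (T : List (ℤ × (ℕ × ℕ))) :
    dl ρ (a :: T) = (a.1 * (a.2.1 + ρ * a.2.2), a.2) :: dl ρ T := rfl

theorem eval_bi (T : List (ℤ × (ℕ × ℕ))) (N : ℕ) :
    (bi R T).eval (X ^ N) = (fam T N).map (Int.castRingHom R) := by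
  induction T with
  | nil => simp
  | cons a T ih =>
    rw [bi_cons, eval_add, ih, fam_cons, Polynomial.map_add]
    congr 1
    simp only [eval_mul, eval_C, eval_pow, eval_X, Polynomial.map_mul, Polynomial.map_pow, map_X,
      map_C]
    rw [pow_add, ← pow_mul, mul_assoc]
    simp

theorem eval_bi_dl (T : List (ℤ × (ℕ × ℕ))) (N : ℕ) (ρ : ℤ) (h : (N : R) = (ρ : R)) :
    (bi R (dl ρ T)).eval (X ^ N) = X * derivative ((fam T N).map (Int.castRingHom R)) := by
  induction T with
  | nil => simp [dl]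
  | cons a T ih =>
    rw [dl_cons, bi_cons, eval_add, ih, fam_cons, Polynomial.map_add, derivative_add, mul_add X]
    congr 1
    simp only [eval_mul, eval_C, eval_pow, eval_X, Polynomial.map_mul, Polynomial.map_pow, map_X,
      map_C, derivative_C_mul, derivative_X_pow]
    have h1 : ((a.1 * (a.2.1 + ρ * a.2.2) : ℤ) : R) =
        (a.1 : R) * ((a.2.1 + N * a.2.2 : ℕ) : R) := by
      push_cast
      rw [h]
    rw [h1, C_mul]
    rcases Nat.eq_zero_or_pos (a.2.1 + N * a.2.2) with h2 | h2
    · rw [h2]; simp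
    · have h3 : (X : R[X]) ^ a.2.1 * (X ^ N) ^ a.2.2 = X * X ^ (a.2.1 + N * a.2.2 - 1) := by
        rw [← pow_mul, ← pow_add, ← pow_succ', Nat.sub_add_cancel h2]
      calc C ((a.1 : R)) * C (((a.2.1 + N * a.2.2 : ℕ) : R)) * X ^ a.2.1 * (X ^ N) ^ a.2.2
          = C ((a.1 : R)) * C (((a.2.1 + N * a.2.2 : ℕ) : R)) *
            (X ^ a.2.1 * (X ^ N) ^ a.2.2) := by ring
        _ = _ := by
          rw [h3]
          simp only [eq_intCast]
          ring

theorem natDegree_bi (T : List (ℤ × (ℕ × ℕ))) (J : ℕ) (hJ : ∀ a ∈ T, a.2.2 ≤ J) :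
    (bi R T).natDegree ≤ J := by
  induction T with
  | nil => simp
  | cons a T ih =>
    rw [bi_cons]
    refine natDegree_add_le_of_degree_le ?_ (ih fun b hb => hJ b (List.mem_cons_of_mem _ hb))
    exact (natDegree_C_mul_X_pow_le _ _).trans (hJ a List.mem_cons_self)

theorem natDegree_bi_dl (T : List (ℤ × (ℕ × ℕ))) (J : ℕ) (hJ : ∀ a ∈ T, a.2.2 ≤ J) (ρ : ℤ) :
    (bi R (dl ρ T)).natDegree ≤ J := by
  apply natDegree_bi
  intro a ha
  rw [dl, List.mem_map] at ha
  obtain ⟨b, hb, rfl⟩ := ha
  exact hJ b hb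

/-- the main criterion -/
theorem sep_of_specialisation (T : List (ℤ × (ℕ × ℕ))) (J : ℕ) (hJ0 : J ≠ 0)
    (hJ : ∀ a ∈ T, a.2.2 ≤ J) (ρ : ℤ) {K : Type*} [CommRing K] [IsDomain K] (φ : R[X] →+* K)
    (htop : ((bi R T).map φ).coeff J ≠ 0)
    (hcop : IsCoprime ((bi R T).map φ) ((bi R (dl ρ T)).map φ)) :
    ∃ B : ℕ, ∀ N : ℕ, (N : R) = (ρ : R) → ∃ r u v : R[X], r ≠ 0 ∧ r.natDegree ≤ B ∧
      u * (fam T N).map (Int.castRingHom R) +
        v * (X * derivative ((fam T N).map (Int.castRingHom R))) = r := by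
  set f := bi R T with hf
  set g := bi R (dl ρ T) with hg
  have hfJ : f.natDegree ≤ J := natDegree_bi R T J hJ
  have hgJ : g.natDegree ≤ J := natDegree_bi_dl R T J hJ ρ
  obtain ⟨p, q, -, -, hpq⟩ := exists_mul_add_mul_eq_C_resultant f g hfJ hgJ (Or.inl hJ0)
  have hres : resultant f g J J ≠ 0 := by
    intro h0
    have h1 := resultant_map_map f g J J φ
    rw [h0, map_zero] at h1
    have hfd : (f.map φ).natDegree = J :=
      le_antisymm ((natDegree_map_le).trans hfJ) (le_natDegree_of_ne_zero htop)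
    have hgd : (g.map φ).natDegree ≤ J := (natDegree_map_le).trans hgJ
    obtain ⟨k, hk⟩ := Nat.exists_eq_add_of_le hgd
    have h2 := resultant_add_right_deg (f.map φ) (g.map φ) J (g.map φ).natDegree k le_rfl
    rw [← hk, h1] at h2
    have h3 := resultant_ne_zero _ _ hcop
    rw [hfd] at h3
    exact mul_ne_zero (pow_ne_zero k htop) h3 h2.symm
  refine ⟨(resultant f g J J).natDegree, ?_⟩
  intro N hN
  refine ⟨resultant f g J J, p.eval (X ^ N), q.eval (X ^ N), hres, le_rfl, ?_⟩
  have h1 := congrArg (eval (X ^ N)) hpq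
  rw [eval_add, eval_mul, eval_mul, eval_C, hf, hg, eval_bi, eval_bi_dl R T N ρ hN] at h1
  rw [← h1]; ring

end bi

section dense
variable {R : Type*} [CommRing R]

/-- the polynomial with a given list of coefficients -/
noncomputable def toP : List R → R[X]
  | [] => 0
  | a :: l => C a + X * toP l

/-- addition of coefficient lists -/
def addP : List R → List R → List R
  | [], m => m
  | a :: l, [] => a :: l
  | a :: l, b :: m => (a + b) :: addP l m

/-- multiplication of coefficient lists -/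
def mulP : List R → List R → List R
  | [], _ => []
  | a :: l, m => addP (m.map fun x => a * x) (0 :: mulP l m)

/-- a monomial -/
def monP (c : R) : ℕ → List R
  | 0 => [c]
  | k + 1 => 0 :: monP c k

theorem toP_addP (l m : List R) : toP (addP l m) = toP l + toP m := by
  induction l generalizing m with
  | nil => simp [addP, toP]
  | cons a l ih =>
    cases m with
    | nil => simp [addP, toP]
    | cons b m =>
      rw [addP, toP, ih, toP, toP, C_add]; ring

theorem toP_smul (a : R) (m : List R) : toP (m.map fun x => a * x) = C a * toP m := by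
  induction m with
  | nil => simp [toP]
  | cons b m ih => rw [List.map_cons, toP, ih, toP, C_mul]; ring

theorem toP_mulP (l m : List R) : toP (mulP l m) = toP l * toP m := by
  induction l with
  | nil => simp [mulP, toP]
  | cons a l ih => rw [mulP, toP_addP, toP_smul, toP, ih, toP]; simp; ring

theorem toP_monP (c : R) (k : ℕ) : toP (monP c k) = C c * X ^ k := by
  induction k with
  | zero => simp [monP, toP]
  | succ k ih => rw [monP, toP, ih, C_0]; ring

/-- powers with a computation rule -/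
def pw (x : R) : ℕ → R
  | 0 => 1
  | k + 1 => pw x k * x

theorem pw_eq (x : R) (k : ℕ) : pw x k = x ^ k := by
  induction k with
  | zero => simp [pw]
  | succ k ih => rw [pw, ih, pow_succ]

/-- the specialisation of a list of terms at `X = x` -/
def spec (x : R) : List (ℤ × (ℕ × ℕ)) → List R
  | [] => []
  | a :: T => addP (monP ((a.1 : R) * pw x a.2.1) a.2.2) (spec x T)

/-- check that a coefficient list is constant -/
def isC (m : R) : List R → Prop
  | [] => m = 0
  | a :: l => a = m ∧ ∀ b ∈ l, b = 0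

instance [DecidableEq R] (m : R) (l : List R) : Decidable (isC m l) := by
  cases l <;> unfold isC <;> infer_instance

theorem toP_isC (m : R) (l : List R) (h : isC m l) : toP l = C m := by
  cases l with
  | nil => rw [isC] at h; simp [toP, h]
  | cons a l =>
    obtain ⟨rfl, h⟩ := h
    have : toP l = 0 := by
      induction l with
      | nil => rfl
      | cons b l ih =>
        rw [toP, ih (fun c hc => h c (List.mem_cons_of_mem _ hc)), h b List.mem_cons_self]
        simp
    rw [toP, this]; simp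

theorem map_spec {K : Type*} [CommRing K] (S : Type*) [CommRing S] (ψ : R →+* K) (x : R)
    (φ : S[X] →+* K) (hφ : φ X = ψ x) (T : List (ℤ × (ℕ × ℕ))) :
    (bi S T).map φ = (toP (spec x T)).map ψ := by
  induction T with
  | nil => simp [spec, toP]
  | cons a T ih =>
    rw [bi_cons, Polynomial.map_add, ih, spec, toP_addP, Polynomial.map_add, toP_monP]
    congr 1
    simp only [Polynomial.map_mul, Polynomial.map_pow, map_X, map_C, map_mul, map_pow, hφ, pw_eq]
    congr 3
    have h1 : (C ((a.1 : ℤ) : S) : S[X]) = ((a.1 : ℤ) : S[X]) := by simp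
    rw [h1, map_intCast, map_intCast]

/-- the certificate condition: `A f + B g = m` after specialisation at `x` -/
def cert (x : R) (ρ : ℤ) (A B : List R) (m : R) (T : List (ℤ × (ℕ × ℕ))) : Prop :=
  isC m (addP (mulP A (spec x T)) (mulP B (spec x (dl ρ T))))

instance [DecidableEq R] (x : R) (ρ : ℤ) (A B : List R) (m : R) (T : List (ℤ × (ℕ × ℕ))) :
    Decidable (cert x ρ A B m T) := by unfold cert; infer_instance

theorem cop_of_cert {K : Type*} [Field K] (S : Type*) [CommRing S] (ψ : R →+* K) (x : R)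
    (φ : S[X] →+* K) (hφ : φ X = ψ x) (ρ : ℤ) (A B : List R) (m : R)
    (T : List (ℤ × (ℕ × ℕ))) (h : cert x ρ A B m T) (hm : ψ m ≠ 0) :
    IsCoprime ((bi S T).map φ) ((bi S (dl ρ T)).map φ) := by
  rw [map_spec S ψ x φ hφ, map_spec S ψ x φ hφ]
  have h1 := toP_isC m _ h
  rw [toP_addP, toP_mulP, toP_mulP] at h1
  have h2 := congrArg (Polynomial.map ψ) h1
  rw [Polynomial.map_add, Polynomial.map_mul, Polynomial.map_mul, map_C] at h2
  refine ⟨C (ψ m)⁻¹ * (toP A).map ψ, C (ψ m)⁻¹ * (toP B).map ψ, ?_⟩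
  calc C (ψ m)⁻¹ * (toP A).map ψ * (toP (spec x T)).map ψ +
        C (ψ m)⁻¹ * (toP B).map ψ * (toP (spec x (dl ρ T))).map ψ
      = C (ψ m)⁻¹ * ((toP A).map ψ * (toP (spec x T)).map ψ +
        (toP B).map ψ * (toP (spec x (dl ρ T))).map ψ) := by ring
    _ = 1 := by rw [h2, ← C_mul, inv_mul_cancel₀ hm, C_1]

end dense

end Pool.Agent.Lib.MP_5efc61_nt
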