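import Mathlib
import Pool.Agent.Lib.MP_5efc61_nt.Sep

/-!
# Certificates for the separation condition at all primes
-/

open Polynomial Filter Topology

namespace Pool.Agent.Lib.MP_5efc61_nt

/-- the separation condition of the key theorem -/
def SepAt (ℓ : ℕ) (T : List (ℤ × (ℕ × ℕ))) : Prop :=
  ∃ B : ℕ, ∃ᶠ n in atTop, ∃ r u v : (ZMod ℓ)[X], r ≠ 0 ∧
      r.natDegree ≤ B ∧ u * (fam T n).map (Int.castRingHom (ZMod ℓ)) +
        v * (X * derivative ((fam T n).map (Int.castRingHom (ZMod ℓ)))) = r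

theorem frequently_residue (ℓ : ℕ) (hℓ : 0 < ℓ) (ρ : ℤ) :
    ∃ᶠ n : ℕ in atTop, (n : ZMod ℓ) = (ρ : ZMod ℓ) := by
  rw [frequently_atTop]
  intro a
  refine ⟨(ρ % ℓ).toNat + ℓ * a, ?_, ?_⟩
  · have : a ≤ ℓ * a := Nat.le_mul_of_pos_left a hℓ
    omega
  · push_cast
    have h1 : ((ρ % ℓ).toNat : ℤ) = ρ % ℓ := Int.toNat_of_nonneg (Int.emod_nonneg _ (by omega))
    have h2 : (((ρ % ℓ).toNat : ℕ) : ZMod ℓ) = (((ρ % ℓ : ℤ)) : ZMod ℓ) := by
      rw [← h1]; push_cast; rw [h1]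
    rw [h2]
    simp

section generic
variable {cb ct : ℤ} {it J : ℕ} {mid : List (ℤ × (ℕ × ℕ))} (hG : Generic cb ct it J mid)
include hG

theorem Generic.le_J : ∀ a ∈ (cb, ((0 : ℕ), (0 : ℕ))) :: (ct, (it, J)) :: mid, a.2.2 ≤ J := by
  intro a ha
  rcases List.mem_cons.1 ha with rfl | ha
  · exact Nat.zero_le _
  · rcases List.mem_cons.1 ha with rfl | ha
    · exact le_rfl
    · exact (hG.midJ a ha).le

theorem Generic.top_coeff (R : Type*) [CommRing R] {K : Type*} [CommRing K] (φ : R[X] →+* K) :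
    ((bi R ((cb, ((0 : ℕ), (0 : ℕ))) :: (ct, (it, J)) :: mid)).map φ).coeff J =
      (ct : K) * φ X ^ it := by
  have hJ := hG.J0
  have hmid : ((bi R mid).map φ).coeff J = 0 := by
    apply coeff_eq_zero_of_natDegree_lt
    refine natDegree_map_le.trans_lt ?_
    have h1 := natDegree_bi R mid (J - 1) (fun a ha => by have := hG.midJ a ha; omega)
    omega
  rw [bi_cons, bi_cons, Polynomial.map_add, Polynomial.map_add, coeff_add, coeff_add, hmid,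
    add_zero]
  simp only [Polynomial.map_mul, Polynomial.map_pow, map_X, map_C, coeff_C_mul_X_pow]
  rw [if_neg hJ.ne', if_pos trivial, zero_add, map_mul, map_pow]
  congr 1
  have h1 : (C ((ct : ℤ) : R) : R[X]) = ((ct : ℤ) : R[X]) := by simp
  rw [h1, map_intCast]

theorem Generic.sep {R : Type*} [CommRing R] {K : Type*} [Field K] (ℓ : ℕ) (hℓ : 0 < ℓ)
    (ψ : R →+* K) (x : R)
    (φ : (ZMod ℓ)[X] →+* K) (hφ : φ X = ψ x) (hx : ψ x ≠ 0) (ρ : ℤ) (A B : List R) (m : R)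
    (h : cert x ρ A B m ((cb, ((0 : ℕ), (0 : ℕ))) :: (ct, (it, J)) :: mid)) (hm : ψ m ≠ 0) :
    SepAt ℓ ((cb, ((0 : ℕ), (0 : ℕ))) :: (ct, (it, J)) :: mid) := by
  have htop : ((bi (ZMod ℓ) ((cb, ((0 : ℕ), (0 : ℕ))) :: (ct, (it, J)) :: mid)).map φ).coeff J
      ≠ 0 := by
    rw [hG.top_coeff, hφ]
    apply mul_ne_zero _ (pow_ne_zero _ hx)
    rcases Int.isUnit_iff.1 hG.ct with h1 | h1 <;> rw [h1] <;> simp
  obtain ⟨B', hB⟩ := sep_of_specialisation (ZMod ℓ) _ J hG.J0.ne' hG.le_J ρ φ htop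
    (cop_of_cert (ZMod ℓ) ψ x φ hφ ρ A B m _ h hm)
  exact ⟨B', (frequently_residue ℓ hℓ ρ).mono fun n hn => hB n hn⟩

end generic

/-- integer certificates `(x, ρ, A, B, m)` -/
structure ICert where
  x : ℤ
  ρ : ℤ
  A : List ℤ
  B : List ℤ
  m : ℤ

/-- validity of a list of certificates -/
def validCerts (T : List (ℤ × (ℕ × ℕ))) (L : List ICert) : Prop :=
  ∀ c ∈ L, (c.x = 1 ∨ c.x = -1) ∧ cert c.x c.ρ c.A c.B c.m T

instance (T : List (ℤ × (ℕ × ℕ))) (L : List ICert) : Decidable (validCerts T L) := by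
  unfold validCerts; infer_instance

/-- the gcd of the constants -/
def gcdCerts : List ICert → ℕ
  | [] => 0
  | c :: L => Nat.gcd c.m.natAbs (gcdCerts L)

theorem dvd_gcdCerts (ℓ : ℕ) (L : List ICert) (h : ∀ c ∈ L, (ℓ : ℤ) ∣ c.m) : ℓ ∣ gcdCerts L := by
  induction L with
  | nil => exact dvd_zero _
  | cons c L ih =>
    rw [gcdCerts]
    apply Nat.dvd_gcd
    · exact Int.natCast_dvd.1 (h c List.mem_cons_self)
    · exact ih fun b hb => h b (List.mem_cons_of_mem _ hb)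

section generic
variable {cb ct : ℤ} {it J : ℕ} {mid : List (ℤ × (ℕ × ℕ))} (hG : Generic cb ct it J mid)
include hG

theorem Generic.sep_int (L : List ICert)
    (hL : validCerts ((cb, ((0 : ℕ), (0 : ℕ))) :: (ct, (it, J)) :: mid) L) (ℓ : ℕ)
    (hℓ : ℓ.Prime) (h : ¬ ℓ ∣ gcdCerts L) :
    SepAt ℓ ((cb, ((0 : ℕ), (0 : ℕ))) :: (ct, (it, J)) :: mid) := by
  have : Fact ℓ.Prime := ⟨hℓ⟩
  have h1 : ∃ c ∈ L, ¬ (ℓ : ℤ) ∣ c.m := by
    by_contra hcon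
    push Not at hcon
    exact h (dvd_gcdCerts ℓ L hcon)
  obtain ⟨c, hc, hcm⟩ := h1
  obtain ⟨hx, hcert⟩ := hL c hc
  have hx' : ((c.x : ℤ) : ZMod ℓ) ≠ 0 := by
    rcases hx with h2 | h2 <;> rw [h2] <;> simp
  refine hG.sep ℓ hℓ.pos (Int.castRingHom (ZMod ℓ)) c.x (evalRingHom ((c.x : ℤ) : ZMod ℓ))
    (by simp) (by simpa using hx') c.ρ c.A c.B c.m hcert ?_
  rw [eq_intCast, Ne, ZMod.intCast_zmod_eq_zero_iff_dvd]
  exact hcm

theorem Generic.sep_all (L : List ICert)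
    (hL : validCerts ((cb, ((0 : ℕ), (0 : ℕ))) :: (ct, (it, J)) :: mid) L)
    (h : gcdCerts L = 1) (ℓ : ℕ) (hℓ : ℓ.Prime) :
    SepAt ℓ ((cb, ((0 : ℕ), (0 : ℕ))) :: (ct, (it, J)) :: mid) := by
  apply hG.sep_int L hL ℓ hℓ
  rw [h]
  intro h1
  exact hℓ.one_lt.ne' (Nat.dvd_one.1 h1)

end generic

/-- the field with four elements -/
abbrev F4 := QuadraticAlgebra (ZMod 2) 1 1

instance f4fact : Fact (∀ r : ZMod 2, r ^ 2 ≠ 1 + 1 * r) := ⟨by decide⟩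

/-- the elements of the field with four elements -/
def f4 : ℕ → F4
  | 0 => ⟨0, 0⟩
  | 1 => ⟨1, 0⟩
  | 2 => ⟨0, 1⟩
  | _ => ⟨1, 1⟩

section generic
variable {cb ct : ℤ} {it J : ℕ} {mid : List (ℤ × (ℕ × ℕ))} (hG : Generic cb ct it J mid)
include hG

theorem Generic.sep_two (ρ : ℤ) (A B : List ℕ)
    (h : cert (f4 2) ρ (A.map f4) (B.map f4) (f4 1)
      ((cb, ((0 : ℕ), (0 : ℕ))) :: (ct, (it, J)) :: mid)) :
    SepAt 2 ((cb, ((0 : ℕ), (0 : ℕ))) :: (ct, (it, J)) :: mid) := by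
  refine hG.sep 2 two_pos (RingHom.id F4) (f4 2) (eval₂RingHom (algebraMap (ZMod 2) F4) (f4 2))
    (by simp) (by decide) ρ (A.map f4) (B.map f4) (f4 1) h (by decide)

theorem Generic.sep_all' (L : List ICert)
    (hL : validCerts ((cb, ((0 : ℕ), (0 : ℕ))) :: (ct, (it, J)) :: mid) L) (k : ℕ)
    (h : gcdCerts L ∣ 2 ^ k) (ρ : ℤ) (A B : List ℕ)
    (h4 : cert (f4 2) ρ (A.map f4) (B.map f4) (f4 1)
      ((cb, ((0 : ℕ), (0 : ℕ))) :: (ct, (it, J)) :: mid)) (ℓ : ℕ) (hℓ : ℓ.Prime) :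
    SepAt ℓ ((cb, ((0 : ℕ), (0 : ℕ))) :: (ct, (it, J)) :: mid) := by
  by_cases h2 : ℓ = 2
  · subst h2; exact hG.sep_two ρ A B h4
  · apply hG.sep_int L hL ℓ hℓ
    intro h1
    have h3 : ℓ ∣ 2 := hℓ.dvd_of_dvd_pow (h1.trans h)
    exact h2 ((Nat.prime_dvd_prime_iff_eq hℓ Nat.prime_two).1 h3)

end generic

end Pool.Agent.Lib.MP_5efc61_nt
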