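import Mathlib

/-!
# Mahler measures of polynomials in several variables
-/

open MeasureTheory

namespace Pool.Agent.Lib.MP_5efc61_nt

/-- The Mahler measure of a function `f` of `k` complex variables: the exponential of the integral
over the unit cube of `log |f (exp (2πi t₁), …, exp (2πi t_k))|`. -/
noncomputable def mahler {k : ℕ} (f : (Fin k → ℂ) → ℂ) : ℝ :=
  Real.exp (∫ t in Set.Icc (0 : Fin k → ℝ) 1,
    Real.log ‖f fun i => Complex.exp (2 * Real.pi * t i * Complex.I)‖)

/-- The set of all Mahler measures of nonzero integer polynomials in `k ≥ 1` variables. -/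
def mahlerSet : Set ℝ :=
  {m | ∃ k : ℕ, 1 ≤ k ∧ ∃ F : MvPolynomial (Fin k) ℤ, F ≠ 0 ∧
    m = mahler fun z => MvPolynomial.aeval z F}

/-- The point `x` is a limit point of the set `S` of real numbers. -/
def IsLimitPoint (S : Set ℝ) (x : ℝ) : Prop :=
  ∀ ε > 0, ∃ s ∈ S, 0 < |s - x| ∧ |s - x| < ε

end Pool.Agent.Lib.MP_5efc61_nt
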