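import Mathlib
import Pool.Agent.Lib.MP_5efc61_nt.Fam

/-!
# One-variable Mahler measures as integrals over the unit interval
-/

open MeasureTheory Set Filter Topology Polynomial

namespace Pool.Agent.Lib.MP_5efc61_nt

theorem circleMap_eq_e (t : ℝ) : circleMap 0 1 (2 * Real.pi * t) = e t := by
  rw [circleMap, e]; push_cast; simp

theorem integral_log_eval (p : ℂ[X]) (hp : p ≠ 0) :
    ∫ t, Real.log ‖p.eval (e t)‖ ∂ν = Real.log p.mahlerMeasure := by
  rw [mahlerMeasure_def_of_ne_zero hp, Real.log_exp, ν, integral_Icc_eq_integral_Ioc,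
    ← intervalIntegral.integral_of_le zero_le_one]
  have h1 := intervalIntegral.integral_comp_mul_left (a := 0) (b := 1)
    (fun x => Real.log ‖p.eval (circleMap 0 1 x)‖) (c := 2 * Real.pi) (by positivity)
  simp_rw [circleMap_eq_e] at h1
  rw [h1, mul_zero, mul_one, smul_eq_mul]

theorem integrable_log_eval (p : ℂ[X]) :
    Integrable (fun t => Real.log ‖p.eval (e t)‖) ν := by
  rw [ν, ← IntegrableOn, integrableOn_Icc_iff_integrableOn_Ioc,
    ← intervalIntegrable_iff_integrableOn_Ioc_of_le zero_le_one]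
  have h1 := p.intervalIntegrable_mahlerMeasure.comp_mul_left (c := 2 * Real.pi)
  simp only [zero_div] at h1
  rw [div_self (by positivity : (2 * Real.pi) ≠ 0)] at h1
  simpa [circleMap_eq_e] using h1

theorem evL_χ1_eq (T : List (ℤ × (ℕ × ℕ))) (n : ℕ) (t : ℝ) :
    evL (fun g => χ1 n g t) (T.map fun a => (a.1, ((a.2.1 : ℤ), (a.2.2 : ℤ)))) =
      ((fam T n).map (Int.castRingHom ℂ)).eval (e t) := by
  have h0 : ((fam T n).map (Int.castRingHom ℂ)).eval (e t) = aeval (e t) (fam T n) := by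
    rw [aeval_def, eval_map]; rfl
  rw [h0, aeval_fam, evL_map (fun g => χ1 n g t) (fun g : ℕ × ℕ => ((g.1 : ℤ), (g.2 : ℤ)))]
  congr 1
  funext g
  rw [χ1]
  have h1 : ∀ k : ℕ, e t ^ k = e (k * t) := by
    intro k
    rw [e, e, ← Complex.exp_nat_mul]
    congr 1; push_cast; ring
  rw [h1]
  congr 1

theorem integral_log_fam (T : List (ℤ × (ℕ × ℕ))) (n : ℕ) (h : fam T n ≠ 0) :
    ∫ t, Real.log ‖evL (fun g => χ1 n g t)
      (T.map fun a => (a.1, ((a.2.1 : ℤ), (a.2.2 : ℤ))))‖ ∂ν =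
      Real.log ((fam T n).map (Int.castRingHom ℂ)).mahlerMeasure := by
  simp_rw [evL_χ1_eq]
  apply integral_log_eval
  exact (Polynomial.map_ne_zero_iff (RingHom.injective_int _)).2 h

/-- list terms with natural exponents as integer exponents -/
def toZ (T : List (ℤ × (ℕ × ℕ))) : List (ℤ × (ℤ × ℤ)) :=
  T.map fun a => (a.1, ((a.2.1 : ℤ), (a.2.2 : ℤ)))

theorem cf_toZ (T : List (ℤ × (ℕ × ℕ))) (g : ℕ × ℕ) :
    cf (toZ T) ((g.1 : ℤ), (g.2 : ℤ)) = cf T g := by
  induction T with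
  | nil => rfl
  | cons a T ih =>
    have h1 : toZ (a :: T) = (a.1, ((a.2.1 : ℤ), (a.2.2 : ℤ))) :: toZ T := rfl
    rw [h1, cf_cons, cf_cons, ih]
    congr 1
    by_cases h : a.2 = g
    · subst h; simp
    · rw [if_neg h, if_neg]
      intro h2
      apply h
      simp only [Prod.ext_iff, Nat.cast_inj] at h2
      exact Prod.ext h2.1 h2.2

theorem coeff_fam (T : List (ℤ × (ℕ × ℕ))) (n : ℕ) (g : ℕ × ℕ)
    (hn : ∀ a ∈ T, a.2.1 + n * a.2.2 = g.1 + n * g.2 → a.2 = g) :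
    (fam T n).coeff (g.1 + n * g.2) = cf T g := by
  induction T with
  | nil => simp
  | cons a T ih =>
    rw [fam_cons, coeff_add, ih (fun b hb => hn b (List.mem_cons_of_mem _ hb)), cf_cons,
      coeff_C_mul_X_pow]
    congr 1
    by_cases h : a.2 = g
    · rw [if_pos (by rw [h]), if_pos h]
    · rw [if_neg h, if_neg]
      intro h2
      exact h (hn a List.mem_cons_self h2.symm)

/-- the family is eventually nonzero -/
theorem fam_ne_zero (T : List (ℤ × (ℕ × ℕ))) (g : ℕ × ℕ) (hg : cf T g ≠ 0) :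
    ∀ᶠ n in atTop, fam T n ≠ 0 := by
  have hev : ∀ᶠ n : ℕ in atTop, ∀ a ∈ T, a.2.1 + n * a.2.2 = g.1 + n * g.2 → a.2 = g := by
    apply eventually_list
    intro a _
    filter_upwards [eventually_gt_atTop ((a.2.1 : ℤ) - g.1).natAbs] with n hn h
    by_contra hne
    refine freq_ne_zero ((a.2.1 : ℤ) - g.1, (a.2.2 : ℤ) - g.2) ?_ n hn ?_
    · intro h0
      apply hne
      rw [Prod.ext_iff] at h0 ⊢
      simp only [Prod.fst_zero, Prod.snd_zero] at h0
      omega
    · simp only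
      have : (a.2.1 : ℤ) + n * a.2.2 = g.1 + n * g.2 := by exact_mod_cast h
      linarith
  filter_upwards [hev] with n hn h0
  have := coeff_fam T n g hn
  rw [h0, coeff_zero] at this
  exact hg this.symm

/-- Boyd-Lawton for the family `fam T n` -/
theorem tendsto_mahler {Ω : Type*} [MeasurableSpace Ω] (μ : Measure Ω) [IsProbabilityMeasure μ]
    (χ : ℤ × ℤ → Ω → ℂ) (hχ : CharSys χ) (hint : ∀ g, g ≠ 0 → ∫ ω, χ g ω ∂μ = 0)
    (T : List (ℤ × (ℕ × ℕ))) (hT : ∃ g, cf T g ≠ 0) :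
    Integrable (fun ω => Real.log ‖evL (fun g => χ g ω) (toZ T)‖) μ ∧
    Tendsto (fun n : ℕ => ((fam T n).map (Int.castRingHom ℂ)).mahlerMeasure) atTop
      (𝓝 (Real.exp (∫ ω, Real.log ‖evL (fun g => χ g ω) (toZ T)‖ ∂μ))) := by
  obtain ⟨g, hg⟩ := hT
  obtain ⟨h1, h2⟩ := boyd_lawton μ χ hχ hint (toZ T) ⟨((g.1 : ℤ), (g.2 : ℤ)), by
    rw [cf_toZ]; exact hg⟩
  refine ⟨h1, ?_⟩
  have h3 := (Real.continuous_exp.tendsto _).comp h2
  refine h3.congr' ?_
  filter_upwards [fam_ne_zero T g hg] with n hn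
  rw [Function.comp_apply, toZ, integral_log_fam T n hn, Real.exp_log]
  exact mahlerMeasure_pos_of_ne_zero ((Polynomial.map_ne_zero_iff (RingHom.injective_int _)).2 hn)

end Pool.Agent.Lib.MP_5efc61_nt
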