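import Mathlib
import Pool.Agent.Lib.MP_5efc61_nt.Mah

/-!
# Two-variable Mahler measures exceeding one
-/

open MeasureTheory Set Filter Topology Polynomial

namespace Pool.Agent.Lib.MP_5efc61_nt

/-- characters of the square -/
noncomputable def χ2 (g : ℤ × ℤ) (ω : ℝ × ℝ) : ℂ := e (g.1 * ω.1) * e (g.2 * ω.2)

theorem charSys_χ2 : CharSys χ2 where
  meas g := by
    apply Measurable.mul
    · exact (continuous_e.comp (continuous_const.mul continuous_fst)).measurable
    · exact (continuous_e.comp (continuous_const.mul continuous_snd)).measurable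
  norm g ω := by rw [χ2, norm_mul, norm_e, norm_e, mul_one]
  add g h ω := by
    simp only [χ2, Prod.fst_add, Prod.snd_add]
    push_cast
    rw [add_mul, add_mul, e_add, e_add]
    ring

theorem integral_χ2 (g : ℤ × ℤ) (hg : g ≠ 0) : ∫ ω, χ2 g ω ∂(ν.prod ν) = 0 := by
  unfold χ2
  rw [integral_prod_mul (fun s : ℝ => e (g.1 * s)) (fun t : ℝ => e (g.2 * t))]
  by_cases h1 : g.1 = 0
  · have h2 : g.2 ≠ 0 := by
      intro h2; exact hg (Prod.ext h1 h2)
    rw [integral_e _ h2, mul_zero]
  · rw [integral_e _ h1, zero_mul]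

/-- the slice polynomial -/
noncomputable def sl (T : List (ℤ × (ℕ × ℕ))) (x : ℂ) : ℂ[X] :=
  (T.map fun a => C ((a.1 : ℂ) * x ^ a.2.1) * X ^ a.2.2).sum

@[simp] theorem sl_nil (x : ℂ) : sl [] x = 0 := rfl

@[simp] theorem sl_cons (a : ℤ × (ℕ × ℕ)) (T : List (ℤ × (ℕ × ℕ))) (x : ℂ) :
    sl (a :: T) x = C ((a.1 : ℂ) * x ^ a.2.1) * X ^ a.2.2 + sl T x := by simp [sl]

/-- the rows of a list of terms -/
def row (T : List (ℤ × (ℕ × ℕ))) (j : ℕ) : List (ℤ × ℕ) :=
  match T with
  | [] => []
  | a :: T => if a.2.2 = j then (a.1, a.2.1) :: row T j else row T j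

theorem coeff_sl (T : List (ℤ × (ℕ × ℕ))) (x : ℂ) (j : ℕ) :
    (sl T x).coeff j = evL (fun i : ℕ => x ^ i) (row T j) := by
  induction T with
  | nil => simp [row]
  | cons a T ih =>
    rw [sl_cons, coeff_add, ih, row, coeff_C_mul_X_pow]
    by_cases h : a.2.2 = j
    · rw [if_pos h, if_pos h.symm, evL_cons]
    · rw [if_neg h, if_neg (fun h' => h h'.symm), zero_add]

theorem natDegree_sl (T : List (ℤ × (ℕ × ℕ))) (x : ℂ) (J : ℕ) (hJ : ∀ a ∈ T, a.2.2 ≤ J) :
    (sl T x).natDegree ≤ J := by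
  induction T with
  | nil => simp
  | cons a T ih =>
    rw [sl_cons]
    refine natDegree_add_le_of_degree_le ?_ (ih fun b hb => hJ b (List.mem_cons_of_mem _ hb))
    exact (natDegree_C_mul_X_pow_le _ _).trans (hJ a List.mem_cons_self)

theorem eval_sl (T : List (ℤ × (ℕ × ℕ))) (s t : ℝ) :
    (sl T (e s)).eval (e t) = evL (fun g => χ2 g (s, t)) (toZ T) := by
  induction T with
  | nil => simp [toZ]
  | cons a T ih =>
    have h1 : toZ (a :: T) = (a.1, ((a.2.1 : ℤ), (a.2.2 : ℤ))) :: toZ T := rfl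
    have h2 : ∀ (k : ℕ) (u : ℝ), e u ^ k = e (((k : ℤ) : ℝ) * u) := by
      intro k u
      rw [e, e, ← Complex.exp_nat_mul]
      congr 1; push_cast; ring
    rw [sl_cons, eval_add, ih, h1, evL_cons]
    congr 1
    simp only [eval_mul, eval_C, eval_pow, eval_X, χ2]
    rw [h2, h2]; ring

/-- the row polynomials -/
noncomputable def rowP (L : List (ℤ × ℕ)) : ℤ[X] := (L.map fun a => C a.1 * X ^ a.2).sum

@[simp] theorem rowP_nil : rowP [] = 0 := rfl

@[simp] theorem rowP_cons (a : ℤ × ℕ) (L : List (ℤ × ℕ)) :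
    rowP (a :: L) = C a.1 * X ^ a.2 + rowP L := by simp [rowP]

theorem eval_rowP (L : List (ℤ × ℕ)) (x : ℂ) :
    ((rowP L).map (Int.castRingHom ℂ)).eval x = evL (fun i : ℕ => x ^ i) L := by
  induction L with
  | nil => simp
  | cons a L ih => rw [rowP_cons, Polynomial.map_add, eval_add, ih, evL_cons]; simp

theorem coeff_rowP (L : List (ℤ × ℕ)) (i : ℕ) : (rowP L).coeff i = cf L i := by
  induction L with
  | nil => simp
  | cons a L ih =>
    rw [rowP_cons, coeff_add, ih, cf_cons, coeff_C_mul_X_pow]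
    congr 1
    by_cases h : a.2 = i
    · rw [if_pos h.symm, if_pos h]
    · rw [if_neg (fun h' => h h'.symm), if_neg h]

theorem countable_e (z : ℂ) : {s : ℝ | e s = z}.Countable := by
  by_cases h : ∃ s0, e s0 = z
  · obtain ⟨s0, hs0⟩ := h
    apply (Set.countable_range (fun n : ℤ => s0 + n)).mono
    intro s hs
    rw [Set.mem_ofPred_eq, ← hs0, e, e, Complex.exp_eq_exp_iff_exists_int] at hs
    obtain ⟨n, hn⟩ := hs
    refine ⟨n, ?_⟩
    have hpi : (2 * (Real.pi : ℂ) * Complex.I) ≠ 0 := Complex.two_pi_I_ne_zero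
    have h1 : (s : ℂ) * (2 * (Real.pi : ℂ) * Complex.I) =
        ((s0 : ℂ) + n) * (2 * (Real.pi : ℂ) * Complex.I) := by
      linear_combination hn
    have h2 := mul_right_cancel₀ hpi h1
    have h3 : s = s0 + n := by exact_mod_cast h2
    exact h3.symm
  · have : {s : ℝ | e s = z} = ∅ := by
      ext s
      simp only [Set.mem_ofPred_eq, Set.mem_empty_iff_false, iff_false]
      exact fun hs => h ⟨s, hs⟩
    rw [this]; exact Set.countable_empty

theorem ae_ne_zero (p : ℂ[X]) (hp : p ≠ 0) : ∀ᵐ s ∂ν, p.eval (e s) ≠ 0 := by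
  have h1 : {s : ℝ | p.eval (e s) = 0}.Countable := by
    have h2 : {s : ℝ | p.eval (e s) = 0} ⊆ ⋃ z ∈ p.roots.toFinset, {s : ℝ | e s = z} := by
      intro s hs
      simp only [Set.mem_iUnion, Multiset.mem_toFinset, mem_roots hp]
      exact ⟨e s, hs, rfl⟩
    exact (Set.Countable.biUnion (Finset.countable_toSet _) (fun z _ => countable_e z)).mono h2
  have h2 : ∀ᵐ s : ℝ, p.eval (e s) ≠ 0 := by
    rw [ae_iff]
    simpa using h1.measure_zero volume
  exact ae_restrict_of_ae h2

/-- the Gaussian point `i^r` -/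
theorem e_quarter (r : ℕ) : e (r / 4) = Complex.I ^ r := by
  have h1 : e ((r : ℝ) / 4) = Complex.exp (r * (Real.pi / 2 * Complex.I)) := by
    rw [e]; congr 1; push_cast; ring
  rw [h1, Complex.exp_nat_mul, Complex.exp_pi_div_two_mul_I]

theorem cf_row (T : List (ℤ × (ℕ × ℕ))) (i j : ℕ) : cf (row T j) i = cf T (i, j) := by
  induction T with
  | nil => rfl
  | cons a T ih =>
    rw [row, cf_cons]
    by_cases h : a.2.2 = j
    · rw [if_pos h, cf_cons, ih]
      congr 1
      by_cases h' : a.2.1 = i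
      · rw [if_pos h', if_pos (Prod.ext h' h)]
      · rw [if_neg h', if_neg]
        intro h2
        exact h' (by rw [h2])
    · rw [if_neg h, ih, if_neg, zero_add]
      intro h2
      exact h (by rw [h2])

theorem integral_slice (T : List (ℤ × (ℕ × ℕ))) (s : ℝ) :
    ∫ t, Real.log ‖evL (fun g => χ2 g (s, t)) (toZ T)‖ ∂ν =
      Real.log (sl T (e s)).mahlerMeasure := by
  simp_rw [← eval_sl]
  by_cases h : sl T (e s) = 0
  · simp [h]
  · exact integral_log_eval _ h

theorem one_lt_of_edge (T : List (ℤ × (ℕ × ℕ))) (J : ℕ) (hJ : ∀ a ∈ T, a.2.2 ≤ J)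
    (r : ℕ) (hr : r < 4)
    (h0 : evL (fun i : ℕ => (Complex.I ^ r) ^ i) (row T J) = 0) (htop : rowP (row T J) ≠ 0)
    (j : ℕ) (hj : evL (fun i : ℕ => (Complex.I ^ r) ^ i) (row T j) ≠ 0) :
    1 < Real.exp (∫ ω, Real.log ‖evL (fun g => χ2 g ω) (toZ T)‖ ∂(ν.prod ν)) := by
  set p : ℂ[X] := (rowP (row T J)).map (Int.castRingHom ℂ) with hp
  have hp0 : p ≠ 0 := (Polynomial.map_ne_zero_iff (RingHom.injective_int _)).2 htop
  have hT : ∃ g, cf T g ≠ 0 := by
    by_contra hcon
    push Not at hcon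
    apply htop
    ext i
    rw [coeff_rowP, cf_row, hcon, coeff_zero]
  have hint := (tendsto_mahler (ν.prod ν) χ2 charSys_χ2 integral_χ2 T hT).1
  rw [integral_prod _ hint]
  simp_rw [integral_slice]
  have hfint : Integrable (fun s => Real.log (sl T (e s)).mahlerMeasure) ν := by
    have := hint.integral_prod_left
    simpa only [integral_slice] using this
  have huint : Integrable (fun s => Real.log ‖p.eval (e s)‖) ν := integrable_log_eval p
  have hu0 : 0 ≤ ∫ s, Real.log ‖p.eval (e s)‖ ∂ν := by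
    rw [integral_log_eval p hp0]
    exact Real.log_nonneg (one_le_mahlerMeasure_of_ne_zero htop)
  -- the neighbourhood of the special point
  set s0 : ℝ := (r : ℝ) / 4 with hs0
  have hs00 : 0 ≤ s0 := by positivity
  have hs01 : s0 < 1 := by
    rw [hs0, div_lt_one (by norm_num)]
    exact_mod_cast hr
  set b : ℂ → ℂ := fun x => evL (fun i : ℕ => x ^ i) (row T j) with hb
  have hpc : ∀ x : ℂ, p.eval x = (sl T x).coeff J := fun x => by
    rw [hp, eval_rowP, coeff_sl]
  have hbc : ∀ x : ℂ, b x = (sl T x).coeff j := fun x => by rw [coeff_sl]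
  have hbcont : Continuous fun s : ℝ => ‖b (e s)‖ := by
    have : ∀ s : ℝ, b (e s) = ((rowP (row T j)).map (Int.castRingHom ℂ)).eval (e s) := by
      intro s; rw [eval_rowP]
    simp_rw [this]
    exact ((Polynomial.continuous _).comp continuous_e).norm
  have hpcont : Continuous fun s : ℝ => ‖p.eval (e s)‖ :=
    ((Polynomial.continuous _).comp continuous_e).norm
  have hb0 : 0 < ‖b (e s0)‖ := by
    rw [hs0, e_quarter]; exact norm_pos_iff.2 hj
  have hp00 : ‖p.eval (e s0)‖ = 0 := by
    rw [hs0, e_quarter, hp, eval_rowP, h0, norm_zero]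
  set c : ℝ := ‖b (e s0)‖ with hc
  have hev : ∀ᶠ s in 𝓝 s0, c / 2 < ‖b (e s)‖ ∧ ‖p.eval (e s)‖ < c / 4 / 2 ^ J := by
    apply Filter.Eventually.and
    · exact hbcont.continuousAt.eventually (lt_mem_nhds (by linarith))
    · exact hpcont.continuousAt.eventually (gt_mem_nhds (by simp only [hp00]; positivity))
  obtain ⟨δ, hδ, hball⟩ := Metric.eventually_nhds_iff.1 hev
  set U : Set ℝ := Ioo s0 (min (s0 + δ) 1) with hU
  have hUm : MeasurableSet U := measurableSet_Ioo
  have hlt : s0 < min (s0 + δ) 1 := lt_min (by linarith) hs01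
  have hUν : 0 < ν.real U := by
    have h1 : ν U = volume U := by
      rw [ν, Measure.restrict_apply hUm]
      congr 1
      apply inter_eq_left.2
      intro s hs
      exact ⟨hs00.trans hs.1.le, hs.2.le.trans (min_le_right _ _)⟩
    rw [Measure.real, h1, hU, Real.volume_Ioo]
    rw [ENNReal.toReal_ofReal (by linarith)]
    linarith
  have hgain : ∀ᵐ s ∂ν, Real.log ‖p.eval (e s)‖ + U.indicator (fun _ => Real.log 2) s ≤
      Real.log (sl T (e s)).mahlerMeasure := by
    filter_upwards [ae_ne_zero p hp0] with s hs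
    have hspos : 0 < ‖p.eval (e s)‖ := norm_pos_iff.2 hs
    have hlead : (sl T (e s)).leadingCoeff = p.eval (e s) := by
      have h1 : (sl T (e s)).natDegree = J := by
        apply le_antisymm (natDegree_sl T (e s) J hJ)
        apply le_natDegree_of_ne_zero
        rw [← hpc]; exact hs
      rw [leadingCoeff, h1, hpc]
    have hle : ‖p.eval (e s)‖ ≤ (sl T (e s)).mahlerMeasure := by
      rw [← hlead]; exact leadingCoeff_le_mahlerMeasure _
    by_cases hsU : s ∈ U
    · rw [indicator_of_mem hsU, ← Real.log_mul hspos.ne' two_ne_zero]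
      apply Real.log_le_log (by positivity)
      have hd : dist s s0 < δ := by
        rw [Real.dist_eq, abs_of_pos (by linarith [hsU.1])]
        have := hsU.2
        have h2 : s < s0 + δ := this.trans_le (min_le_left _ _)
        linarith
      obtain ⟨h1, h2⟩ := hball hd
      have h3 := norm_coeff_le_choose_mul_mahlerMeasure j (sl T (e s))
      rw [← hbc] at h3
      have h4 : (((sl T (e s)).natDegree.choose j : ℕ) : ℝ) ≤ 2 ^ J := by
        have h5 : (sl T (e s)).natDegree.choose j ≤ 2 ^ J :=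
          (Nat.choose_le_two_pow _ _).trans
            (Nat.pow_le_pow_right (by norm_num) (natDegree_sl T (e s) J hJ))
        exact_mod_cast h5
      have h6 : 0 ≤ (sl T (e s)).mahlerMeasure := mahlerMeasure_nonneg _
      have h7 : c / 2 ≤ 2 ^ J * (sl T (e s)).mahlerMeasure := by
        calc c / 2 ≤ ‖b (e s)‖ := h1.le
          _ ≤ _ := h3
          _ ≤ _ := mul_le_mul_of_nonneg_right h4 h6
      have h8 : ‖p.eval (e s)‖ * 2 ≤ c / 2 / 2 ^ J := by
        have : c / 4 / 2 ^ J * 2 = c / 2 / 2 ^ J := by ring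
        linarith
      refine h8.trans ?_
      rw [div_le_iff₀ (by positivity)]
      linarith
    · rw [indicator_of_notMem hsU, add_zero]
      exact Real.log_le_log hspos hle
  have hIU : Integrable (U.indicator (fun _ => Real.log 2)) ν :=
    (integrable_const _).indicator hUm
  have hmono := integral_mono_ae (huint.add hIU) hfint hgain
  have hsum : ∫ s, (Real.log ‖p.eval (e s)‖ + U.indicator (fun _ => Real.log 2) s) ∂ν =
      ∫ s, Real.log ‖p.eval (e s)‖ ∂ν + ν.real U * Real.log 2 := by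
    rw [integral_add huint hIU, integral_indicator_const _ hUm, smul_eq_mul]
  rw [← Real.exp_zero, Real.exp_lt_exp]
  have hlog2 : 0 < Real.log 2 := Real.log_pos one_lt_two
  have hpos : 0 < ν.real U * Real.log 2 := mul_pos hUν hlog2
  have h9 : ∫ s, (Real.log ‖p.eval (e s)‖ + U.indicator (fun _ => Real.log 2) s) ∂ν ≤
      ∫ s, Real.log (sl T (e s)).mahlerMeasure ∂ν := hmono
  linarith

end Pool.Agent.Lib.MP_5efc61_nt
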