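import Mathlib
import Pool.Agent.Lib.MP_5efc61_nt.Dl
import Pool.Agent.Lib.MP_5efc61_nt.Cert
import Pool.Agent.Lib.MP_5efc61_nt.Defs

/-!
# Gluing: lattice coordinates, cyclotomic factors, the general theorem
-/

open MeasureTheory Set Filter Topology Polynomial

namespace Pool.Agent.Lib.MP_5efc61_nt

/-! ### equality of list polynomials -/

section same
variable {G : Type*} [DecidableEq G]

/-- a sum over a list of terms with values in an abelian group -/
def sumL {M : Type*} [AddCommGroup M] (f : G → M) (T : List (ℤ × G)) : M :=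
  (T.map fun a => a.1 • f a.2).sum

omit [DecidableEq G] in
theorem sumL_cons {M : Type*} [AddCommGroup M] (f : G → M) (a : ℤ × G) (T : List (ℤ × G)) :
    sumL f (a :: T) = a.1 • f a.2 + sumL f T := by simp [sumL]

theorem sumL_eq {M : Type*} [AddCommGroup M] (f : G → M) (T : List (ℤ × G)) (U : Finset G)
    (hU : ∀ a ∈ T, a.2 ∈ U) : ∑ g ∈ U, cf T g • f g = sumL f T := by
  induction T with
  | nil => simp [sumL]
  | cons a T ih =>
    rw [sumL_cons, ← ih (fun b hb => hU b (List.mem_cons_of_mem _ hb))]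
    simp_rw [cf_cons, add_smul]
    rw [Finset.sum_add_distrib]
    congr 1
    simp only [ite_smul, zero_smul]
    rw [Finset.sum_ite_eq, if_pos (hU a List.mem_cons_self)]

/-- equality of the polynomials given by two lists of terms -/
def sameL (S T : List (ℤ × G)) : Prop := ∀ g ∈ (S ++ T).map Prod.snd, cf S g = cf T g

instance (S T : List (ℤ × G)) : Decidable (sameL S T) := by unfold sameL; infer_instance

theorem sumL_same {M : Type*} [AddCommGroup M] (f : G → M) (S T : List (ℤ × G))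
    (h : sameL S T) : sumL f S = sumL f T := by
  set U : Finset G := ((S ++ T).map Prod.snd).toFinset with hU
  have h1 : ∀ a ∈ S, a.2 ∈ U := by
    intro a ha
    rw [hU, List.mem_toFinset]
    exact List.mem_map_of_mem (List.mem_append_left _ ha)
  have h2 : ∀ a ∈ T, a.2 ∈ U := by
    intro a ha
    rw [hU, List.mem_toFinset]
    exact List.mem_map_of_mem (List.mem_append_right _ ha)
  rw [← sumL_eq f S U h1, ← sumL_eq f T U h2]
  apply Finset.sum_congr rfl
  intro g hg
  rw [hU, List.mem_toFinset] at hg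
  rw [h g hg]

omit [DecidableEq G] in
theorem evL_eq_sumL (χ : G → ℂ) (T : List (ℤ × G)) : evL χ T = sumL χ T := by
  simp [evL, sumL]

theorem evL_same (χ : G → ℂ) (S T : List (ℤ × G)) (h : sameL S T) : evL χ S = evL χ T := by
  rw [evL_eq_sumL, evL_eq_sumL, sumL_same χ S T h]

end same

theorem fam_eq_sumL (T : List (ℤ × (ℕ × ℕ))) (n : ℕ) :
    fam T n = sumL (fun g : ℕ × ℕ => (X : ℤ[X]) ^ (g.1 + n * g.2)) T := by
  simp [fam, sumL]

theorem fam_same (S T : List (ℤ × (ℕ × ℕ))) (h : sameL S T) (n : ℕ) : fam S n = fam T n := by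
  rw [fam_eq_sumL, fam_eq_sumL, sumL_same _ S T h]

/-! ### products -/

/-- product of list polynomials with natural exponents -/
def mulN (S T : List (ℤ × (ℕ × ℕ))) : List (ℤ × (ℕ × ℕ)) :=
  S.flatMap fun a => T.map fun b => (a.1 * b.1, (a.2.1 + b.2.1, a.2.2 + b.2.2))

theorem fam_append (S T : List (ℤ × (ℕ × ℕ))) (n : ℕ) : fam (S ++ T) n = fam S n + fam T n := by
  simp [fam]

theorem fam_mulN (S T : List (ℤ × (ℕ × ℕ))) (n : ℕ) :
    fam (mulN S T) n = fam S n * fam T n := by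
  induction S with
  | nil => simp [mulN]
  | cons a S ih =>
    have h1 : mulN (a :: S) T =
        (T.map fun b => (a.1 * b.1, (a.2.1 + b.2.1, a.2.2 + b.2.2))) ++ mulN S T := by
      simp [mulN]
    rw [h1, fam_append, ih, fam_cons, add_mul]
    congr 1
    clear ih h1
    induction T with
    | nil => simp
    | cons b T ih =>
      rw [List.map_cons, fam_cons, fam_cons, ih, C_mul]
      ring

/-! ### cyclotomic factors -/

theorem mahler_binomial (a b : ℕ) (hab : a ≠ b) :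
    ((X ^ a - X ^ b : ℤ[X]).map (Int.castRingHom ℂ)).mahlerMeasure = 1 := by
  set p : ℂ[X] := (X ^ a - X ^ b : ℤ[X]).map (Int.castRingHom ℂ) with hp
  have hp' : p = X ^ a - X ^ b := by simp [hp]
  have hlead : ‖p.leadingCoeff‖ = 1 := by
    rw [hp']
    rcases lt_or_gt_of_ne hab with h | h
    · have h1 : (X ^ a - X ^ b : ℂ[X]) = -(X ^ b - X ^ a) := by ring
      rw [h1, leadingCoeff_neg, norm_neg, leadingCoeff_sub_of_degree_lt, leadingCoeff_X_pow,
        norm_one]
      rw [degree_X_pow, degree_X_pow]; exact_mod_cast h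
    · rw [leadingCoeff_sub_of_degree_lt, leadingCoeff_X_pow, norm_one]
      rw [degree_X_pow, degree_X_pow]; exact_mod_cast h
  have hp0 : p ≠ 0 := by
    intro h0
    rw [h0, leadingCoeff_zero, norm_zero] at hlead
    exact zero_ne_one hlead
  rw [mahlerMeasure_eq_leadingCoeff_mul_prod_roots, hlead, one_mul]
  apply Multiset.prod_eq_one
  intro x hx
  rw [Multiset.mem_map] at hx
  obtain ⟨z, hz, rfl⟩ := hx
  rw [mem_roots hp0, IsRoot, hp', eval_sub, eval_pow, eval_pow, eval_X, sub_eq_zero] at hz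
  apply max_eq_left
  by_contra hcon
  push Not at hcon
  have h1 : ‖z‖ ^ a = ‖z‖ ^ b := by rw [← norm_pow, ← norm_pow, hz]
  exact hab (pow_right_injective₀ (by linarith) hcon.ne' h1)

theorem mahler_cyc (Cc D : List (ℤ × (ℕ × ℕ))) (g1 g2 : ℕ × ℕ) (hg : g1 ≠ g2)
    (h : sameL (mulN Cc D) [(1, g1), (-1, g2)]) :
    ∀ᶠ n in atTop, ((fam Cc n).map (Int.castRingHom ℂ)).mahlerMeasure = 1 := by
  have hne : ∀ᶠ n : ℕ in atTop, g1.1 + n * g1.2 ≠ g2.1 + n * g2.2 := by
    filter_upwards [eventually_gt_atTop ((g1.1 : ℤ) - g2.1).natAbs] with n hn h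
    refine freq_ne_zero ((g1.1 : ℤ) - g2.1, (g1.2 : ℤ) - g2.2) ?_ n hn ?_
    · intro h0
      apply hg
      rw [Prod.ext_iff] at h0 ⊢
      simp only [Prod.fst_zero, Prod.snd_zero] at h0
      omega
    · simp only
      have : (g1.1 : ℤ) + n * g1.2 = g2.1 + n * g2.2 := by exact_mod_cast h
      linarith
  filter_upwards [hne] with n hn
  have h1 := fam_same _ _ h n
  rw [fam_mulN] at h1
  have h2 : fam [(1, g1), (-1, g2)] n = X ^ (g1.1 + n * g1.2) - X ^ (g2.1 + n * g2.2) := by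
    simp; ring
  rw [h2] at h1
  have h3 := mahler_binomial _ _ hn
  have h4 : fam Cc n * fam D n ≠ 0 := by
    intro h0
    rw [← h1, h0, Polynomial.map_zero, mahlerMeasure_zero] at h3
    exact zero_ne_one h3
  rw [← h1, Polynomial.map_mul, mahlerMeasure_mul] at h3
  have h5 := one_le_mahlerMeasure_of_ne_zero (left_ne_zero_of_mul h4)
  have h6 := one_le_mahlerMeasure_of_ne_zero (right_ne_zero_of_mul h4)
  nlinarith

/-! ### lattice coordinates on the torus -/

/-- Lebesgue measure on the unit square -/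
noncomputable def μ2 : Measure (Fin 2 → ℝ) := volume.restrict (Icc 0 1)

theorem μ2_eq : μ2 = Measure.pi fun _ : Fin 2 => ν := by
  rw [μ2, volume_pi, ← pi_univ_Icc, Measure.restrict_pi_pi]
  rfl

instance : IsProbabilityMeasure μ2 := by rw [μ2_eq]; infer_instance

/-- characters of the two-dimensional torus -/
noncomputable def χF (g : ℤ × ℤ) (t : Fin 2 → ℝ) : ℂ := e (g.1 * t 0) * e (g.2 * t 1)

theorem charSys_χF : CharSys χF where
  meas g := by
    apply Measurable.mul
    · exact (continuous_e.comp (continuous_const.mul (continuous_apply 0))).measurable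
    · exact (continuous_e.comp (continuous_const.mul (continuous_apply 1))).measurable
  norm g ω := by rw [χF, norm_mul, norm_e, norm_e, mul_one]
  add g h ω := by
    simp only [χF, Prod.fst_add, Prod.snd_add]
    push_cast
    rw [add_mul, add_mul, e_add, e_add]
    ring

theorem integral_χF (g : ℤ × ℤ) (hg : g ≠ 0) : ∫ ω, χF g ω ∂μ2 = 0 := by
  rw [μ2_eq]
  have h1 := integral_fintype_prod_eq_prod (μ := fun _ : Fin 2 => ν)
    (fun (i : Fin 2) (x : ℝ) => e ((![g.1, g.2] i : ℤ) * x))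
  simp only [Fin.prod_univ_two, Matrix.cons_val_zero, Matrix.cons_val_one] at h1
  unfold χF
  rw [h1]
  by_cases h1 : g.1 = 0
  · have h2 : g.2 ≠ 0 := by
      intro h2; exact hg (Prod.ext h1 h2)
    rw [integral_e _ h2, mul_zero]
  · rw [integral_e _ h1, zero_mul]

/-- linear change of exponents -/
def lin (b1 b2 : ℤ × ℤ) (g : ℤ × ℤ) : ℤ × ℤ :=
  (g.1 * b1.1 + g.2 * b2.1, g.1 * b1.2 + g.2 * b2.2)

theorem lin_add (b1 b2 g h : ℤ × ℤ) : lin b1 b2 (g + h) = lin b1 b2 g + lin b1 b2 h := by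
  ext <;> simp [lin] <;> ring

theorem lin_ne_zero (b1 b2 g : ℤ × ℤ) (hdet : b1.1 * b2.2 - b1.2 * b2.1 ≠ 0) (hg : g ≠ 0) :
    lin b1 b2 g ≠ 0 := by
  intro h
  apply hg
  rw [Prod.ext_iff] at h
  simp only [lin, Prod.fst_zero, Prod.snd_zero] at h
  obtain ⟨h1, h2⟩ := h
  have h3 : g.1 * (b1.1 * b2.2 - b1.2 * b2.1) = 0 := by linear_combination b2.2 * h1 - b2.1 * h2
  have h4 : g.2 * (b1.1 * b2.2 - b1.2 * b2.1) = 0 := by linear_combination b1.1 * h2 - b1.2 * h1
  exact Prod.ext ((mul_eq_zero.1 h3).resolve_right hdet) ((mul_eq_zero.1 h4).resolve_right hdet)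

theorem charSys_lin (b1 b2 : ℤ × ℤ) : CharSys fun g => χF (lin b1 b2 g) where
  meas g := charSys_χF.meas _
  norm g ω := charSys_χF.norm _ _
  add g h ω := by rw [lin_add, charSys_χF.add]

/-- affine change of exponents -/
def lat (w b1 b2 : ℤ × ℤ) (T : List (ℤ × (ℕ × ℕ))) : List (ℤ × (ℤ × ℤ)) :=
  T.map fun a => (a.1, (w.1 + (a.2.1 * b1.1 + a.2.2 * b2.1), w.2 + (a.2.1 * b1.2 + a.2.2 * b2.2)))

theorem evL_lat (w b1 b2 : ℤ × ℤ) (T : List (ℤ × (ℕ × ℕ))) (t : Fin 2 → ℝ) :
    evL (fun g => χF g t) (lat w b1 b2 T) =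
      χF w t * evL (fun g => χF (lin b1 b2 g) t) (toZ T) := by
  induction T with
  | nil => simp [lat, toZ]
  | cons a T ih =>
    have h1 : lat w b1 b2 (a :: T) = (a.1, w + lin b1 b2 ((a.2.1 : ℤ), (a.2.2 : ℤ))) ::
        lat w b1 b2 T := rfl
    have h2 : toZ (a :: T) = (a.1, ((a.2.1 : ℤ), (a.2.2 : ℤ))) :: toZ T := rfl
    rw [h1, h2, evL_cons, evL_cons, ih, charSys_χF.add]
    ring

/-- the logarithmic integral of a list of terms over the torus -/
noncomputable def mQ (Q : List (ℤ × (ℤ × ℤ))) : ℝ :=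
  Real.exp (∫ t, Real.log ‖evL (fun g => χF g t) Q‖ ∂μ2)

theorem mQ_eq (Q : List (ℤ × (ℤ × ℤ))) (w b1 b2 : ℤ × ℤ) (T : List (ℤ × (ℕ × ℕ)))
    (h : sameL Q (lat w b1 b2 T)) :
    mQ Q = Real.exp (∫ t, Real.log ‖evL (fun g => χF (lin b1 b2 g) t) (toZ T)‖ ∂μ2) := by
  rw [mQ]
  congr 1
  apply integral_congr_ae
  apply Eventually.of_forall
  intro t
  simp only
  rw [evL_same _ _ _ h, evL_lat, norm_mul, charSys_χF.norm, one_mul]

theorem tendsto_mQ (Q : List (ℤ × (ℤ × ℤ))) (w b1 b2 : ℤ × ℤ)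
    (hdet : b1.1 * b2.2 - b1.2 * b2.1 ≠ 0) (T : List (ℤ × (ℕ × ℕ)))
    (h : sameL Q (lat w b1 b2 T)) (hT : ∃ g, cf T g ≠ 0) :
    Tendsto (fun n : ℕ => ((fam T n).map (Int.castRingHom ℂ)).mahlerMeasure) atTop
      (𝓝 (mQ Q)) := by
  rw [mQ_eq Q w b1 b2 T h]
  exact (tendsto_mahler μ2 (fun g => χF (lin b1 b2 g)) (charSys_lin b1 b2)
    (fun g hg => integral_χF _ (lin_ne_zero b1 b2 g hdet hg)) T hT).2

/-! ### membership in the set of Mahler measures -/

theorem mahler_one_var (p : ℤ[X]) (hp : p ≠ 0) :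
    (p.map (Int.castRingHom ℂ)).mahlerMeasure ∈ mahlerSet := by
  refine ⟨1, le_rfl, Polynomial.aeval (MvPolynomial.X 0) p, ?_, ?_⟩
  · intro h0
    apply hp
    have h1 := Polynomial.aeval_algHom_apply
      (MvPolynomial.aeval (R := ℤ) (fun _ : Fin 1 => (X : ℤ[X]))) (MvPolynomial.X 0) p
    rw [h0, map_zero, MvPolynomial.aeval_X, Polynomial.aeval_X_left_apply] at h1
    exact h1
  · rw [mahler]
    have hpc : p.map (Int.castRingHom ℂ) ≠ 0 :=
      (Polynomial.map_ne_zero_iff (RingHom.injective_int _)).2 hp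
    rw [← Real.exp_log (mahlerMeasure_pos_of_ne_zero hpc), ← integral_log_eval _ hpc]
    congr 1
    have h1 := (volume_preserving_funUnique (Fin 1) ℝ).setIntegral_preimage_emb
      (MeasurableEquiv.measurableEmbedding _)
      (fun t : ℝ => Real.log ‖(p.map (Int.castRingHom ℂ)).eval (e t)‖) (Icc 0 1)
    rw [ν, ← h1]
    have h2 : (MeasurableEquiv.funUnique (Fin 1) ℝ) ⁻¹' (Icc 0 1) = Icc 0 1 := by
      ext t
      simp [MeasurableEquiv.funUnique, Set.mem_Icc, Pi.le_def]
    rw [h2]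
    apply integral_congr_ae
    apply Eventually.of_forall
    intro t
    simp only
    congr 2
    have h3 : (MeasurableEquiv.funUnique (Fin 1) ℝ) t = t 0 := rfl
    rw [h3, ← Polynomial.aeval_algHom_apply, MvPolynomial.aeval_X, eval_map, aeval_def]
    rfl

end Pool.Agent.Lib.MP_5efc61_nt
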