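import Mathlib
import Pool.Agent.Lib.MP_5efc61_nt.Glue

/-!
# The general limit point theorem, with a decidable certificate
-/

open MeasureTheory Set Filter Topology Polynomial

namespace Pool.Agent.Lib.MP_5efc61_nt

/-- powers of `i` as Gaussian integers -/
def gi (k : ℕ) : ℤ × ℤ :=
  if k % 4 = 0 then (1, 0) else if k % 4 = 1 then (0, 1) else if k % 4 = 2 then (-1, 0) else (0, -1)

theorem gi_eq (k : ℕ) : ((gi k).1 : ℂ) + (gi k).2 * Complex.I = Complex.I ^ k := by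
  have h1 : Complex.I ^ k = Complex.I ^ (k % 4) := by
    conv_lhs => rw [← Nat.div_add_mod k 4]
    rw [pow_add, pow_mul, Complex.I_pow_four, one_pow, one_mul]
  have h2 : k % 4 < 4 := Nat.mod_lt _ (by norm_num)
  rw [h1, gi]
  generalize k % 4 = m at h2 ⊢
  interval_cases m <;> simp [pow_succ]

/-- value at `i^r` of a row -/
def gv (r : ℕ) (L : List (ℤ × ℕ)) : ℤ × ℤ :=
  ((L.map fun a => a.1 * (gi (r * a.2)).1).sum, (L.map fun a => a.1 * (gi (r * a.2)).2).sum)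

theorem evL_gv (r : ℕ) (L : List (ℤ × ℕ)) :
    evL (fun i : ℕ => (Complex.I ^ r) ^ i) L = ((gv r L).1 : ℂ) + (gv r L).2 * Complex.I := by
  induction L with
  | nil => simp [gv]
  | cons a L ih =>
    rw [evL_cons, ih]
    simp only [gv, List.map_cons, List.sum_cons]
    rw [← pow_mul, ← gi_eq]
    push_cast
    ring

theorem gv_eq_zero (r : ℕ) (L : List (ℤ × ℕ)) :
    evL (fun i : ℕ => (Complex.I ^ r) ^ i) L = 0 ↔ gv r L = (0, 0) := by
  rw [evL_gv]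
  constructor
  · intro h
    have h1 := congrArg Complex.re h
    have h2 := congrArg Complex.im h
    simp at h1 h2
    exact Prod.ext h1 h2
  · intro h
    rw [h]; simp

/-- The data of a certificate: lattice coordinates in which the polynomial is a product of a
cyclotomic part and a part with unique top and bottom rows; separation certificates; and
edge coordinates for the lower bound. -/
structure Dat where
  w : ℤ × ℤ
  b1 : ℤ × ℤ
  b2 : ℤ × ℤ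
  cy : List (ℤ × (ℕ × ℕ))
  cy' : List (ℤ × (ℕ × ℕ))
  g1 : ℕ × ℕ
  g2 : ℕ × ℕ
  cb : ℤ
  ct : ℤ
  it : ℕ
  J : ℕ
  mid : List (ℤ × (ℕ × ℕ))
  g0 : ℕ × ℕ
  w' : ℤ × ℤ
  b1' : ℤ × ℤ
  b2' : ℤ × ℤ
  T' : List (ℤ × (ℕ × ℕ))
  J' : ℕ
  r : ℕ
  j : ℕ
  i : ℕ

/-- the generic part -/
def Dat.T (d : Dat) : List (ℤ × (ℕ × ℕ)) :=
  (d.cb, ((0 : ℕ), (0 : ℕ))) :: (d.ct, (d.it, d.J)) :: d.mid

/-- conditions on the generic coordinates -/
def Dat.valid1 (d : Dat) (Q : List (ℤ × (ℤ × ℤ))) : Prop :=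
  d.b1.1 * d.b2.2 - d.b1.2 * d.b2.1 ≠ 0 ∧ d.g1 ≠ d.g2 ∧
  sameL (mulN d.cy d.cy') [(1, d.g1), (-1, d.g2)] ∧
  0 < d.J ∧ (∀ a ∈ d.mid, 1 ≤ a.2.2 ∧ a.2.2 < d.J) ∧ (d.cb = 1 ∨ d.cb = -1) ∧
  (d.ct = 1 ∨ d.ct = -1) ∧ sameL Q (lat d.w d.b1 d.b2 (mulN d.cy d.T)) ∧
  cf (mulN d.cy d.T) d.g0 ≠ 0

/-- conditions on the edge coordinates -/
def Dat.valid2 (d : Dat) (Q : List (ℤ × (ℤ × ℤ))) : Prop :=
  d.b1'.1 * d.b2'.2 - d.b1'.2 * d.b2'.1 ≠ 0 ∧ (∀ a ∈ d.T', a.2.2 ≤ d.J') ∧ d.r < 4 ∧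
  gv d.r (row d.T' d.J') = (0, 0) ∧ gv d.r (row d.T' d.j) ≠ (0, 0) ∧
  cf (row d.T' d.J') d.i ≠ 0 ∧ sameL Q (lat d.w' d.b1' d.b2' d.T')

instance (d : Dat) (Q : List (ℤ × (ℤ × ℤ))) : Decidable (d.valid1 Q) := by
  unfold Dat.valid1; infer_instance

instance (d : Dat) (Q : List (ℤ × (ℤ × ℤ))) : Decidable (d.valid2 Q) := by
  unfold Dat.valid2; infer_instance

theorem Dat.generic (d : Dat) (Q : List (ℤ × (ℤ × ℤ))) (h : d.valid1 Q) :
    Generic d.cb d.ct d.it d.J d.mid := by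
  obtain ⟨-, -, -, h1, h2, h3, h4, -, -⟩ := h
  exact ⟨h1, fun a ha => (h2 a ha).1, fun a ha => (h2 a ha).2, Int.isUnit_iff.2 h3,
    Int.isUnit_iff.2 h4⟩

theorem Dat.one_lt (d : Dat) (Q : List (ℤ × (ℤ × ℤ))) (h : d.valid2 Q) : 1 < mQ Q := by
  obtain ⟨hdet, hJ, hr, h0, hj, hi, hQ⟩ := h
  have hT : ∃ g, cf d.T' g ≠ 0 := ⟨(d.i, d.J'), by rw [← cf_row]; exact hi⟩
  have h1 := tendsto_mQ Q d.w' d.b1' d.b2' hdet d.T' hQ hT
  have h2 := (tendsto_mahler (ν.prod ν) χ2 charSys_χ2 integral_χ2 d.T' hT).2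
  rw [tendsto_nhds_unique h1 h2]
  apply one_lt_of_edge d.T' d.J' hJ d.r hr ((gv_eq_zero _ _).2 h0) _ d.j
  · intro h3; exact hj ((gv_eq_zero _ _).1 h3)
  · intro h3
    apply hi
    rw [← coeff_rowP, h3, coeff_zero]

/-- **The limit point theorem.** -/
theorem Dat.limit_point (d : Dat) (Q : List (ℤ × (ℤ × ℤ))) (h1 : d.valid1 Q) (h2 : d.valid2 Q)
    (hsep : ∀ ℓ : ℕ, ℓ.Prime → SepAt ℓ d.T) : IsLimitPoint mahlerSet (mQ Q) := by
  have hG := d.generic Q h1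
  have hM := d.one_lt Q h2
  obtain ⟨hdet, hg, hcy, -, -, -, -, hQ, hg0⟩ := h1
  set M := mQ Q with hMdef
  by_contra hcon
  unfold IsLimitPoint at hcon
  push Not at hcon
  obtain ⟨ε, hε, hiso⟩ := hcon
  have hlim := tendsto_mQ Q d.w d.b1 d.b2 hdet (mulN d.cy d.T) hQ ⟨d.g0, hg0⟩
  have hev1 : ∀ᶠ n in atTop, |((fam (mulN d.cy d.T) n).map (Int.castRingHom ℂ)).mahlerMeasure - M|
      < ε := by
    have := hlim.eventually (Metric.ball_mem_nhds M hε)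
    simpa [Metric.mem_ball, Real.dist_eq] using this
  have hev2 : ∀ᶠ n in atTop, ((fam d.T n).map (Int.castRingHom ℂ)).mahlerMeasure = M := by
    filter_upwards [hev1, fam_ne_zero _ d.g0 hg0, mahler_cyc d.cy d.cy' d.g1 d.g2 hg hcy]
      with n hn1 hn2 hn3
    have h3 : ((fam (mulN d.cy d.T) n).map (Int.castRingHom ℂ)).mahlerMeasure = M := by
      by_contra hne
      have h4 := hiso _ (mahler_one_var _ hn2) (abs_pos.2 (sub_ne_zero.2 hne))
      linarith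
    rw [fam_mulN, Polynomial.map_mul, mahlerMeasure_mul, hn3, one_mul] at h3
    exact h3
  refine key M hM (fam d.T) ?_ ?_ hev2 (fun ε h0 h1 => hG.annulus ε h0 h1) hsep
  · filter_upwards [eventually_gt_atTop (iB d.mid)] with n hn
    rw [Dat.T, hG.leadingCoeff n hn]; exact hG.ct
  · filter_upwards [eventually_gt_atTop 0] with n hn
    rw [Dat.T, hG.coeff_zero n hn]; exact hG.cb

/-- The limit point theorem with integer certificates. -/
theorem Dat.main (d : Dat) (Q : List (ℤ × (ℤ × ℤ))) (h1 : d.valid1 Q) (h2 : d.valid2 Q)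
    (L : List ICert) (hL : validCerts d.T L) (hg : gcdCerts L = 1) :
    IsLimitPoint mahlerSet (mQ Q) :=
  d.limit_point Q h1 h2 fun ℓ hℓ => (d.generic Q h1).sep_all L hL hg ℓ hℓ

/-- The limit point theorem with integer certificates, and a certificate over the field with four
elements at the prime two. -/
theorem Dat.main' (d : Dat) (Q : List (ℤ × (ℤ × ℤ))) (h1 : d.valid1 Q) (h2 : d.valid2 Q)
    (L : List ICert) (hL : validCerts d.T L) (k : ℕ) (hg : gcdCerts L ∣ 2 ^ k)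
    (ρ : ℤ) (A B : List ℕ) (h4 : cert (f4 2) ρ (A.map f4) (B.map f4) (f4 1) d.T) :
    IsLimitPoint mahlerSet (mQ Q) :=
  d.limit_point Q h1 h2 fun ℓ hℓ => (d.generic Q h1).sep_all' L hL k hg ρ A B h4 ℓ hℓ

end Pool.Agent.Lib.MP_5efc61_nt
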