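import Mathlib
import Pool.Agent.Lib.MP_5efc61_nt.Main

/-!
# From expressions to lists of terms
-/

open MeasureTheory Set Filter Topology

namespace Pool.Agent.Lib.MP_5efc61_nt

theorem e_zpow (k : ℤ) (t : ℝ) : e t ^ k = e (k * t) := by
  rw [e, e, ← Complex.exp_int_mul]
  congr 1
  push_cast
  ring

theorem mahler_eq_mQ (Q : ℂ → ℂ → ℂ) (q : List (ℤ × (ℤ × ℤ)))
    (h : ∀ x y : ℂ, Q x y = evL (fun g => x ^ g.1 * y ^ g.2) q) :
    mahler (fun z : Fin 2 → ℂ => Q (z 0) (z 1)) = mQ q := by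
  rw [mahler, mQ, μ2]
  congr 1
  apply integral_congr_ae
  apply Eventually.of_forall
  intro t
  simp only
  rw [h]
  have h1 : (fun g : ℤ × ℤ => χF g t) = fun g => e (t 0) ^ g.1 * e (t 1) ^ g.2 := by
    funext g
    rw [χF, e_zpow, e_zpow]
  rw [h1]
  rfl

end Pool.Agent.Lib.MP_5efc61_nt
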