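import Mathlib
import Pool.Agent.Lib.MP_5efc61_nt.Main

/-!
# Certificates (generated by a computer search, checked here by the kernel)
-/

namespace Pool.Agent.Lib.MP_5efc61_nt

/-- terms of the polynomial number 1 -/
def q1 : List (ℤ × (ℤ × ℤ)) :=
  [(1, 4, 1), (-1, 0, 1), (-1, 3, 0), (-1, -3, 0), (-1, 0, -1), (1, -4, -1)]

/-- certificate for the polynomial number 1 -/
def d1 : Dat where
  w := (-4, -1)
  b1 := (0, -2)
  b2 := (1, 1)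
  cy := [(1, 0, 0), (1, 1, 2)]
  cy' := [(1, 0, 0), (-1, 1, 2)]
  g1 := (0, 0)
  g2 := (2, 4)
  cb := 1
  ct := 1
  it := 2
  J := 6
  mid :=
    [(-1, 0, 1), (-1, 1, 2), (1, 1, 3), (-1, 1, 4), (-1, 2, 5)]
  g0 := (0, 0)
  w' := (6, 1)
  b1' := (-2, 0)
  b2' := (-3, -1)
  T' :=
    [(1, 1, 0), (-1, 3, 0), (-1, 0, 1), (-1, 3, 1), (-1, 0, 2), (1, 2, 2)]
  J' := 2
  r := 0
  j := 1
  i := 0

/-- integer separation certificates -/
def c1 : List ICert :=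
  [⟨1, 0, [3, 3, 1, 3, 2, -6], [-5, -3, 0, -3, -1, 3], 3⟩, ⟨-1, 0, [7, 7, 9, 3, 6, -10], [-9,
  -3, -6, 1, -3, 5], 7⟩]

theorem lp1 : IsLimitPoint mahlerSet (mQ q1) :=
  d1.main q1 (by decide +kernel) (by decide +kernel) c1 (by decide +kernel)
    (by decide +kernel)

/-- terms of the polynomial number 2 -/
def q2 : List (ℤ × (ℤ × ℤ)) :=
  [(1, 0, 1), (1, 1, 0), (1, 0, 0), (1, -1, 0), (1, 0, -1)]

/-- certificate for the polynomial number 2 -/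
def d2 : Dat where
  w := (0, -1)
  b1 := (1, 0)
  b2 := (-1, 1)
  cy := [(1, 0, 0)]
  cy' := [(1, 0, 0), (-1, 1, 0)]
  g1 := (0, 0)
  g2 := (1, 0)
  cb := 1
  ct := 1
  it := 2
  J := 2
  mid :=
    [(1, 0, 1), (1, 1, 1), (1, 2, 1)]
  g0 := (0, 0)
  w' := (1, 0)
  b1' := (-1, 1)
  b2' := (7, -8)
  T' :=
    [(1, 0, 0), (1, 1, 0), (1, 8, 1), (1, 15, 2), (1, 16, 2)]
  J' := 2
  r := 2
  j := 1
  i := 15

/-- integer separation certificates -/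
def c2 : List ICert :=
  [⟨-1, 0, [3, -2], [-1, 1], 3⟩, ⟨1, 0, [5, 6], [-7, -3], 5⟩]

theorem lp2 : IsLimitPoint mahlerSet (mQ q2) :=
  d2.main q2 (by decide +kernel) (by decide +kernel) c2 (by decide +kernel)
    (by decide +kernel)

/-- terms of the polynomial number 3 -/
def q3 : List (ℤ × (ℤ × ℤ)) :=
  [(1, 2, 1), (1, 1, 1), (1, 2, 0), (-1, 0, 0), (1, -2, 0), (1, -1, -1), (1, -2, -1)]

/-- certificate for the polynomial number 3 -/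
def d3 : Dat where
  w := (2, 0)
  b1 := (2, 1)
  b2 := (-3, -1)
  cy := [(1, 0, 0)]
  cy' := [(1, 0, 0), (-1, 1, 0)]
  g1 := (0, 0)
  g2 := (1, 0)
  cb := 1
  ct := 1
  it := 4
  J := 4
  mid :=
    [(1, 0, 1), (1, 1, 2), (-1, 2, 2), (1, 3, 2), (1, 4, 3)]
  g0 := (0, 0)
  w' := (-15, -1)
  b1' := (1, 0)
  b2' := (8, 1)
  T' :=
    [(1, 13, 0), (1, 14, 0), (1, 5, 1), (-1, 7, 1), (1, 9, 1), (1, 0, 2), (1, 1, 2)]
  J' := 2
  r := 2
  j := 1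
  i := 1

/-- integer separation certificates -/
def c3 : List ICert :=
  [⟨-1, -1, [3, 2, -2], [5, -9, 0, 2], 3⟩, ⟨1, -1, [5, -2, -2], [3, 1, 4, 2], 5⟩]

theorem lp3 : IsLimitPoint mahlerSet (mQ q3) :=
  d3.main q3 (by decide +kernel) (by decide +kernel) c3 (by decide +kernel)
    (by decide +kernel)

/-- terms of the polynomial number 4 -/
def q4 : List (ℤ × (ℤ × ℤ)) :=
  [(1, 6, 1), (1, 0, 1), (1, 5, 0), (1, -5, 0), (1, 0, -1), (1, -6, -1)]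

/-- certificate for the polynomial number 4 -/
def d4 : Dat where
  w := (5, 0)
  b1 := (3, 1)
  b2 := (-5, -1)
  cy := [(1, 0, 0), (1, 1, 1)]
  cy' := [(-1, 0, 0), (1, 1, 1)]
  g1 := (2, 2)
  g2 := (0, 0)
  cb := 1
  ct := 1
  it := 4
  J := 4
  mid :=
    [(1, 0, 1), (-1, 1, 1), (1, 2, 1), (-1, 1, 2), (1, 2, 2), (-1, 3, 2), (1, 2, 3), (-1, 3,
    3), (1, 4, 3)]
  g0 := (0, 0)
  w' := (0, 1)
  b1' := (-5, -1)
  b2' := (2, 0)
  T' :=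
    [(1, 0, 0), (1, 1, 0), (1, 2, 2), (1, 0, 3), (1, 1, 5), (1, 2, 5)]
  J' := 5
  r := 2
  j := 2
  i := 1

/-- integer separation certificates -/
def c4 : List ICert :=
  [⟨1, 0, [39, -16, -2, 40], [-23, 11, -2, -10], 39⟩, ⟨-1, 0, [55, 72, 282, 168], [-79, -63,
  -102, -42], 55⟩]

theorem lp4 : IsLimitPoint mahlerSet (mQ q4) :=
  d4.main q4 (by decide +kernel) (by decide +kernel) c4 (by decide +kernel)
    (by decide +kernel)

/-- terms of the polynomial number 5 -/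
def q5 : List (ℤ × (ℤ × ℤ)) :=
  [(1, 5, 4), (1, 0, 1), (1, 1, 0), (1, -1, 0), (1, 0, -1), (1, -5, -4)]

/-- certificate for the polynomial number 5 -/
def d5 : Dat where
  w := (0, -1)
  b1 := (-6, -4)
  b2 := (1, 1)
  cy := [(1, 0, 0), (1, 0, 1), (1, 0, 2)]
  cy' := [(1, 0, 0), (-1, 0, 1)]
  g1 := (0, 0)
  g2 := (0, 3)
  cb := 1
  ct := 1
  it := 1
  J := 4
  mid :=
    [(1, 1, 1), (-1, 0, 2), (-1, 1, 2), (1, 0, 3)]
  g0 := (0, 0)
  w' := (5, 4)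
  b1' := (-5, -3)
  b2' := (-1, -1)
  T' :=
    [(1, 0, 0), (1, 1, 0), (1, 1, 1), (1, 0, 4), (1, 0, 5), (1, 1, 5)]
  J' := 5
  r := 2
  j := 1
  i := 0

/-- integer separation certificates -/
def c5 : List ICert :=
  [⟨1, 0, [1, 1, 0, 0], [-2, -1, 0, 0], 1⟩]

theorem lp5 : IsLimitPoint mahlerSet (mQ q5) :=
  d5.main q5 (by decide +kernel) (by decide +kernel) c5 (by decide +kernel)
    (by decide +kernel)

/-- terms of the polynomial number 6 -/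
def q6 : List (ℤ × (ℤ × ℤ)) :=
  [(1, 0, 3), (1, 2, 2), (1, 3, 0), (-1, -3, 0), (-1, -2, -2), (-1, 0, -3)]

/-- certificate for the polynomial number 6 -/
def d6 : Dat where
  w := (3, 0)
  b1 := (1, 4)
  b2 := (-1, -1)
  cy := [(1, 0, 0), (-1, 0, 1)]
  cy' := [(1, 0, 0)]
  g1 := (0, 0)
  g2 := (0, 1)
  cb := 1
  ct := 1
  it := 2
  J := 7
  mid :=
    [(1, 0, 1), (1, 0, 2), (1, 1, 2), (1, 1, 3), (1, 1, 4), (1, 1, 5), (1, 2, 5), (1, 2, 6)]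
  g0 := (0, 0)
  w' := (4, 1)
  b1' := (-2, 1)
  b2' := (-1, -1)
  T' :=
    [(1, 1, 0), (1, 2, 0), (1, 0, 1), (-1, 2, 3), (-1, 0, 4), (-1, 1, 4)]
  J' := 4
  r := 2
  j := 1
  i := 0

/-- integer separation certificates -/
def c6 : List ICert :=
  [⟨-1, 0, [2, -2, 1, 4, -3, 4, -6], [-1, 4, -2, -1, 0, -2, 3], 2⟩, ⟨-1, -1, [107, -71, 96,
  -56, 2, -32, 110], [36, -11, 16, -20, 0, -2, 22], 107⟩]

theorem lp6 : IsLimitPoint mahlerSet (mQ q6) :=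
  d6.main q6 (by decide +kernel) (by decide +kernel) c6 (by decide +kernel)
    (by decide +kernel)

/-- terms of the polynomial number 7 -/
def q7 : List (ℤ × (ℤ × ℤ)) :=
  [(-1, 4, 1), (1, 0, 1), (1, 5, 0), (1, -5, 0), (1, 0, -1), (-1, -4, -1)]

/-- certificate for the polynomial number 7 -/
def d7 : Dat where
  w := (5, 0)
  b1 := (1, 1)
  b2 := (-3, -1)
  cy := [(1, 0, 0), (1, 1, 1)]
  cy' := [(-1, 0, 0), (1, 1, 1)]
  g1 := (2, 2)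
  g2 := (0, 0)
  cb := 1
  ct := 1
  it := 4
  J := 4
  mid :=
    [(-1, 1, 1), (-1, 2, 1), (1, 1, 2), (1, 2, 2), (1, 3, 2), (-1, 2, 3), (-1, 3, 3)]
  g0 := (0, 0)
  w' := (10, 1)
  b1' := (-2, 0)
  b2' := (-5, -1)
  T' :=
    [(-1, 3, 0), (1, 5, 0), (1, 0, 1), (1, 5, 1), (1, 0, 2), (-1, 2, 2)]
  J' := 2
  r := 0
  j := 1
  i := 0

/-- integer separation certificates -/
def c7 : List ICert :=
  [⟨-1, -1, [1, 0, 0], [0, -1, 0, 0], 1⟩]

theorem lp7 : IsLimitPoint mahlerSet (mQ q7) :=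
  d7.main q7 (by decide +kernel) (by decide +kernel) c7 (by decide +kernel)
    (by decide +kernel)

/-- terms of the polynomial number 8 -/
def q8 : List (ℤ × (ℤ × ℤ)) :=
  [(1, 0, 1), (1, 2, 0), (1, 1, 0), (1, -1, 0), (1, -2, 0), (1, 0, -1)]

/-- certificate for the polynomial number 8 -/
def d8 : Dat where
  w := (0, -1)
  b1 := (1, 0)
  b2 := (-2, 1)
  cy := [(1, 0, 0)]
  cy' := [(1, 0, 0), (-1, 1, 0)]
  g1 := (0, 0)
  g2 := (1, 0)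
  cb := 1
  ct := 1
  it := 4
  J := 2
  mid :=
    [(1, 0, 1), (1, 1, 1), (1, 3, 1), (1, 4, 1)]
  g0 := (0, 0)
  w' := (4, -1)
  b1' := (-2, 1)
  b2' := (-1, 0)
  T' :=
    [(1, 1, 0), (1, 2, 0), (1, 1, 1), (1, 1, 3), (1, 0, 4), (1, 1, 4)]
  J' := 4
  r := 2
  j := 1
  i := 0

/-- integer separation certificates -/
def c8 : List ICert :=
  [⟨-1, -1, [2, 0], [-1, 0], 2⟩]

theorem lp8 : IsLimitPoint mahlerSet (mQ q8) :=
  d8.main' q8 (by decide +kernel) (by decide +kernel) c8 (by decide +kernel) 8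
    (by decide +kernel) 0 [1] [0, 3] (by decide +kernel)

/-- terms of the polynomial number 9 -/
def q9 : List (ℤ × (ℤ × ℤ)) :=
  [(1, 0, 3), (1, 1, 1), (1, 3, 0), (-1, -3, 0), (-1, -1, -1), (-1, 0, -3)]

/-- certificate for the polynomial number 9 -/
def d9 : Dat where
  w := (-3, 0)
  b1 := (1, -2)
  b2 := (1, 1)
  cy := [(-1, 0, 0), (1, 0, 1)]
  cy' := [(1, 0, 0)]
  g1 := (0, 1)
  g2 := (0, 0)
  cb := 1
  ct := 1
  it := 2
  J := 3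
  mid :=
    [(1, 0, 1), (1, 1, 1), (1, 2, 1), (1, 0, 2), (1, 1, 2), (1, 2, 2)]
  g0 := (0, 0)
  w' := (12, -9)
  b1' := (-3, 3)
  b2' := (-2, 1)
  T' :=
    [(1, 3, 0), (1, 4, 0), (1, 3, 1), (-1, 1, 5), (-1, 0, 6), (-1, 1, 6)]
  J' := 6
  r := 2
  j := 1
  i := 0

/-- integer separation certificates -/
def c9 : List ICert :=
  [⟨-1, 0, [4, -3, -2], [-1, 2, 1], 4⟩]

theorem lp9 : IsLimitPoint mahlerSet (mQ q9) :=
  d9.main' q9 (by decide +kernel) (by decide +kernel) c9 (by decide +kernel) 8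
    (by decide +kernel) 0 [1, 2] [1, 1, 3] (by decide +kernel)

/-- terms of the polynomial number 10 -/
def q10 : List (ℤ × (ℤ × ℤ)) :=
  [(1, 8, 1), (-1, 0, 1), (-1, 7, 0), (-1, -7, 0), (-1, 0, -1), (1, -8, -1)]

/-- certificate for the polynomial number 10 -/
def d10 : Dat where
  w := (7, 0)
  b1 := (3, 1)
  b2 := (-5, -1)
  cy := [(1, 0, 0), (1, 1, 1)]
  cy' := [(-1, 0, 0), (1, 1, 1)]
  g1 := (2, 2)
  g2 := (0, 0)
  cb := -1
  ct := -1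
  it := 6
  J := 6
  mid :=
    [(1, 1, 1), (1, 2, 1), (-1, 1, 2), (-1, 2, 2), (-1, 3, 2), (1, 2, 3), (1, 3, 3), (1, 4, 3),
    (-1, 3, 4), (-1, 4, 4), (-1, 5, 4), (1, 4, 5), (1, 5, 5)]
  g0 := (0, 0)
  w' := (12, 1)
  b1' := (-2, 0)
  b2' := (-5, -1)
  T' :=
    [(1, 2, 0), (-1, 6, 0), (-1, 0, 1), (-1, 7, 1), (-1, 1, 2), (1, 5, 2)]
  J' := 2
  r := 0
  j := 1
  i := 1

/-- integer separation certificates -/
def c10 : List ICert :=
  [⟨-1, -1, [-1, 1, 0, 0, 1], [1, 1, 0, 1, 0, -1], 1⟩]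

theorem lp10 : IsLimitPoint mahlerSet (mQ q10) :=
  d10.main q10 (by decide +kernel) (by decide +kernel) c10 (by decide +kernel)
    (by decide +kernel)

/-- terms of the polynomial number 11 -/
def q11 : List (ℤ × (ℤ × ℤ)) :=
  [(1, 6, 1), (1, 0, 1), (1, 1, 0), (1, -1, 0), (1, 0, -1), (1, -6, -1)]

/-- certificate for the polynomial number 11 -/
def d11 : Dat where
  w := (6, 1)
  b1 := (1, 1)
  b2 := (-3, -1)
  cy := [(1, 0, 0), (1, 1, 1)]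
  cy' := [(-1, 0, 0), (1, 1, 1)]
  g1 := (2, 2)
  g2 := (0, 0)
  cb := 1
  ct := 1
  it := 2
  J := 4
  mid :=
    [(-1, 1, 1), (1, 0, 2), (1, 1, 2), (1, 2, 2), (-1, 1, 3)]
  g0 := (0, 0)
  w' := (0, 1)
  b1' := (-3, -1)
  b2' := (2, 0)
  T' :=
    [(1, 0, 0), (1, 2, 0), (1, 1, 1), (1, 1, 2), (1, 0, 3), (1, 2, 3)]
  J' := 3
  r := 1
  j := 1
  i := 0

/-- integer separation certificates -/
def c11 : List ICert :=
  [⟨-1, 0, [5, -4, -3, -2], [-1, 3, 2, 1], 5⟩, ⟨1, 0, [21, -8, 25, 2], [-29, 9, -12, -1], 21⟩]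

theorem lp11 : IsLimitPoint mahlerSet (mQ q11) :=
  d11.main q11 (by decide +kernel) (by decide +kernel) c11 (by decide +kernel)
    (by decide +kernel)

/-- terms of the polynomial number 12 -/
def q12 : List (ℤ × (ℤ × ℤ)) :=
  [(1, 5, 4), (1, 0, 3), (1, 3, 0), (1, -3, 0), (1, 0, -3), (1, -5, -4)]

/-- certificate for the polynomial number 12 -/
def d12 : Dat where
  w := (0, -3)
  b1 := (-4, -2)
  b2 := (3, 3)
  cy := [(1, 0, 0)]
  cy' := [(1, 0, 0), (-1, 1, 0)]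
  g1 := (0, 0)
  g2 := (1, 0)
  cb := 1
  ct := 1
  it := 3
  J := 4
  mid :=
    [(1, 0, 1), (1, 2, 1), (1, 1, 3), (1, 3, 3)]
  g0 := (0, 0)
  w' := (3, 6)
  b1' := (-3, -3)
  b2' := (1, -1)
  T' :=
    [(1, 1, 0), (1, 2, 0), (1, 3, 1), (1, 0, 2), (1, 1, 3), (1, 2, 3)]
  J' := 3
  r := 2
  j := 1
  i := 1

/-- integer separation certificates -/
def c12 : List ICert :=
  [⟨1, -1, [3, -6, 12, 8], [19, -6, 12, 8], 3⟩, ⟨-1, 0, [5, 4, -16, 6], [-7, 4, 4, -2], 5⟩]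

theorem lp12 : IsLimitPoint mahlerSet (mQ q12) :=
  d12.main q12 (by decide +kernel) (by decide +kernel) c12 (by decide +kernel)
    (by decide +kernel)

/-- terms of the polynomial number 13 -/
def q13 : List (ℤ × (ℤ × ℤ)) :=
  [(1, 0, 7), (1, 5, 2), (1, 7, 0), (1, -7, 0), (1, -5, -2), (1, 0, -7)]

/-- certificate for the polynomial number 13 -/
def d13 : Dat where
  w := (7, 0)
  b1 := (-6, -8)
  b2 := (-1, 1)
  cy := [(1, 0, 0), (1, 0, 1), (1, 0, 2)]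
  cy' := [(-1, 0, 0), (1, 0, 1)]
  g1 := (0, 3)
  g2 := (0, 0)
  cb := 1
  ct := 1
  it := 1
  J := 6
  mid :=
    [(-1, 0, 1), (1, 1, 1), (1, 0, 2), (-1, 1, 2), (-1, 0, 4), (1, 1, 4), (1, 0, 5), (-1, 1,
    5)]
  g0 := (0, 0)
  w' := (0, 7)
  b1' := (-7, -7)
  b2' := (1, -1)
  T' :=
    [(1, 0, 0), (1, 1, 0), (1, 1, 2), (1, 0, 5), (1, 0, 7), (1, 1, 7)]
  J' := 7
  r := 2
  j := 2
  i := 0

/-- integer separation certificates -/
def c13 : List ICert :=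
  [⟨1, 0, [1, 1, 0, 0, 0, -1], [-1, -1, -1, 0, 1, 1], 1⟩]

theorem lp13 : IsLimitPoint mahlerSet (mQ q13) :=
  d13.main q13 (by decide +kernel) (by decide +kernel) c13 (by decide +kernel)
    (by decide +kernel)

/-- terms of the polynomial number 14 -/
def q14 : List (ℤ × (ℤ × ℤ)) :=
  [(1, 6, 1), (1, 0, 1), (1, 7, 0), (1, -7, 0), (1, 0, -1), (1, -6, -1)]

/-- certificate for the polynomial number 14 -/
def d14 : Dat where
  w := (7, 0)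
  b1 := (5, 1)
  b2 := (-7, -1)
  cy := [(1, 0, 0), (1, 1, 1)]
  cy' := [(-1, 0, 0), (1, 1, 1)]
  g1 := (2, 2)
  g2 := (0, 0)
  cb := 1
  ct := 1
  it := 6
  J := 6
  mid :=
    [(1, 0, 1), (-1, 1, 1), (-1, 1, 2), (1, 2, 2), (1, 2, 3), (-1, 3, 3), (1, 4, 3), (1, 4, 4),
    (-1, 5, 4), (-1, 5, 5), (1, 6, 5)]
  g0 := (0, 0)
  w' := (0, 1)
  b1' := (-7, -1)
  b2' := (2, 0)
  T' :=
    [(1, 0, 0), (1, 1, 0), (1, 0, 3), (1, 2, 4), (1, 1, 7), (1, 2, 7)]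
  J' := 7
  r := 2
  j := 3
  i := 1

/-- integer separation certificates -/
def c14 : List ICert :=
  [⟨1, -1, [3, -1, 0, 0, -1], [-1, -1, 2, 1, 1, 1], 3⟩, ⟨-1, -1, [13, 11, -4, -4, -15], [37, 7,
  42, 23, 19, 15], 13⟩]

theorem lp14 : IsLimitPoint mahlerSet (mQ q14) :=
  d14.main q14 (by decide +kernel) (by decide +kernel) c14 (by decide +kernel)
    (by decide +kernel)

/-- terms of the polynomial number 15 -/
def q15 : List (ℤ × (ℤ × ℤ)) :=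
  [(1, 0, 1), (1, 5, 0), (-1, 3, 0), (-1, -3, 0), (1, -5, 0), (1, 0, -1)]

/-- certificate for the polynomial number 15 -/
def d15 : Dat where
  w := (0, -1)
  b1 := (2, 0)
  b2 := (-5, 1)
  cy := [(1, 0, 0)]
  cy' := [(1, 0, 0), (-1, 1, 0)]
  g1 := (0, 0)
  g2 := (1, 0)
  cb := 1
  ct := 1
  it := 5
  J := 2
  mid :=
    [(1, 0, 1), (-1, 1, 1), (-1, 4, 1), (1, 5, 1)]
  g0 := (0, 0)
  w' := (10, -1)
  b1' := (-5, 1)
  b2' := (-2, 0)
  T' :=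
    [(1, 1, 0), (1, 2, 0), (-1, 1, 1), (-1, 1, 4), (1, 0, 5), (1, 1, 5)]
  J' := 5
  r := 2
  j := 1
  i := 0

/-- integer separation certificates -/
def c15 : List ICert :=
  [⟨1, -2, [1, 0], [-1, 0], 1⟩]

theorem lp15 : IsLimitPoint mahlerSet (mQ q15) :=
  d15.main q15 (by decide +kernel) (by decide +kernel) c15 (by decide +kernel)
    (by decide +kernel)

/-- terms of the polynomial number 16 -/
def q16 : List (ℤ × (ℤ × ℤ)) :=
  [(1, 8, 1), (-1, 0, 1), (-1, 5, 0), (-1, -5, 0), (-1, 0, -1), (1, -8, -1)]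

/-- certificate for the polynomial number 16 -/
def d16 : Dat where
  w := (8, 1)
  b1 := (-1, -1)
  b2 := (-2, 0)
  cy := [(1, 0, 0), (1, 0, 1)]
  cy' := [(-1, 0, 0), (1, 0, 1)]
  g1 := (0, 2)
  g2 := (0, 0)
  cb := 1
  ct := 1
  it := 2
  J := 6
  mid :=
    [(-1, 0, 1), (-1, 1, 1), (1, 0, 2), (1, 1, 2), (-1, 0, 3), (-1, 1, 3), (-1, 2, 3), (1, 1,
    4), (1, 2, 4), (-1, 1, 5), (-1, 2, 5)]
  g0 := (0, 0)
  w' := (10, 1)
  b1' := (-2, 0)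
  b2' := (-5, -1)
  T' :=
    [(1, 1, 0), (-1, 5, 0), (-1, 0, 1), (-1, 5, 1), (-1, 0, 2), (1, 4, 2)]
  J' := 2
  r := 0
  j := 1
  i := 0

/-- integer separation certificates -/
def c16 : List ICert :=
  [⟨-1, 0, [3, 0, 2, 2, -3, 2], [0, -2, -1, 0, 1, -1], 3⟩, ⟨1, 0, [13, 12, 2, -18, -5, 2],
  [-14, -10, -5, 8, 3, -1], 13⟩]

theorem lp16 : IsLimitPoint mahlerSet (mQ q16) :=
  d16.main q16 (by decide +kernel) (by decide +kernel) c16 (by decide +kernel)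
    (by decide +kernel)

/-- terms of the polynomial number 17 -/
def q17 : List (ℤ × (ℤ × ℤ)) :=
  [(1, 0, 10), (1, 9, 9), (1, 10, 0), (1, -10, 0), (1, -9, -9), (1, 0, -10)]

/-- certificate for the polynomial number 17 -/
def d17 : Dat where
  w := (-9, -9)
  b1 := (3, -7)
  b2 := (-1, 9)
  cy := [(1, 0, 0), (1, 1, 1)]
  cy' := [(1, 0, 0), (-1, 1, 1)]
  g1 := (0, 0)
  g2 := (2, 2)
  cb := 1
  ct := 1
  it := 8
  J := 8
  mid :=
    [(1, 0, 1), (-1, 1, 1), (-1, 1, 2), (1, 2, 2), (1, 2, 3), (-1, 3, 3), (1, 4, 3), (-1, 3,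
    4), (1, 4, 4), (-1, 5, 4), (1, 4, 5), (-1, 5, 5), (1, 6, 5), (1, 6, 6), (-1, 7, 6), (-1, 7,
    7), (1, 8, 7)]
  g0 := (0, 0)
  w' := (18, 8)
  b1' := (-9, 1)
  b2' := (-2, -2)
  T' :=
    [(1, 1, 0), (1, 2, 0), (1, 0, 4), (1, 2, 5), (1, 0, 9), (1, 1, 9)]
  J' := 9
  r := 2
  j := 4
  i := 0

/-- integer separation certificates -/
def c17 : List ICert :=
  [⟨1, -1, [3, -1, 0, 0, 0, 3, -4], [-1, -1, 2, -2, 5, 1, 1, 4], 3⟩, ⟨-1, -1, [19, 21, 4, 4, 4,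
  -15, -36], [59, 25, 86, 54, 79, 47, 51, 36], 19⟩]

theorem lp17 : IsLimitPoint mahlerSet (mQ q17) :=
  d17.main q17 (by decide +kernel) (by decide +kernel) c17 (by decide +kernel)
    (by decide +kernel)

/-- terms of the polynomial number 18 -/
def q18 : List (ℤ × (ℤ × ℤ)) :=
  [(1, 1, 1), (1, 0, 1), (1, 3, 0), (1, -3, 0), (1, 0, -1), (1, -1, -1)]

/-- certificate for the polynomial number 18 -/
def d18 : Dat where
  w := (3, 0)
  b1 := (1, 1)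
  b2 := (-2, -1)
  cy := [(1, 0, 0)]
  cy' := [(1, 0, 0), (-1, 1, 0)]
  g1 := (0, 0)
  g2 := (1, 0)
  cb := 1
  ct := 1
  it := 6
  J := 6
  mid :=
    [(1, 1, 2), (1, 2, 3), (1, 4, 3), (1, 5, 4)]
  g0 := (0, 0)
  w' := (-16, -1)
  b1' := (1, 0)
  b2' := (8, 1)
  T' :=
    [(1, 15, 0), (1, 16, 0), (1, 5, 1), (1, 11, 1), (1, 0, 2), (1, 1, 2)]
  J' := 2
  r := 2
  j := 1
  i := 1

/-- integer separation certificates -/
def c18 : List ICert :=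
  [⟨-1, -1, [2, 0, -2, 1], [4, -5, 4, 0, -2, 1], 2⟩]

theorem lp18 : IsLimitPoint mahlerSet (mQ q18) :=
  d18.main' q18 (by decide +kernel) (by decide +kernel) c18 (by decide +kernel) 8
    (by decide +kernel) 0 [1, 0, 2, 1] [0, 0, 0, 0, 3, 2] (by decide +kernel)

/-- terms of the polynomial number 19 -/
def q19 : List (ℤ × (ℤ × ℤ)) :=
  [(1, 8, 1), (-1, 0, 1), (-1, 3, 0), (-1, -3, 0), (-1, 0, -1), (1, -8, -1)]

/-- certificate for the polynomial number 19 -/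
def d19 : Dat where
  w := (8, 1)
  b1 := (-3, -1)
  b2 := (-2, 0)
  cy := [(1, 0, 0), (1, 0, 1)]
  cy' := [(-1, 0, 0), (1, 0, 1)]
  g1 := (0, 2)
  g2 := (0, 0)
  cb := 1
  ct := 1
  it := 2
  J := 4
  mid :=
    [(-1, 0, 1), (-1, 1, 1), (-1, 2, 1), (1, 0, 2), (1, 1, 2), (1, 2, 2), (-1, 0, 3), (-1, 1,
    3), (-1, 2, 3)]
  g0 := (0, 0)
  w' := (10, 1)
  b1' := (-2, 0)
  b2' := (-5, -1)
  T' :=
    [(1, 1, 0), (-1, 5, 0), (-1, 1, 1), (-1, 4, 1), (-1, 0, 2), (1, 4, 2)]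
  J' := 2
  r := 0
  j := 1
  i := 0

/-- integer separation certificates -/
def c19 : List ICert :=
  [⟨-1, 0, [5, 4, -3, 2], [-1, -3, 2, -1], 5⟩, ⟨1, 0, [11, -24, 15, -6], [-19, 21, -12, 3],
  11⟩]

theorem lp19 : IsLimitPoint mahlerSet (mQ q19) :=
  d19.main q19 (by decide +kernel) (by decide +kernel) c19 (by decide +kernel)
    (by decide +kernel)

/-- terms of the polynomial number 20 -/
def q20 : List (ℤ × (ℤ × ℤ)) :=
  [(1, 0, 5), (1, 4, 4), (1, 5, 0), (-1, -5, 0), (-1, -4, -4), (-1, 0, -5)]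

/-- certificate for the polynomial number 20 -/
def d20 : Dat where
  w := (-4, -4)
  b1 := (2, -3)
  b2 := (-1, 4)
  cy := [(-1, 0, 0), (1, 1, 1)]
  cy' := [(1, 0, 0)]
  g1 := (1, 1)
  g2 := (0, 0)
  cb := 1
  ct := 1
  it := 7
  J := 7
  mid :=
    [(1, 0, 1), (1, 1, 1), (1, 1, 2), (1, 2, 2), (1, 3, 2), (1, 2, 3), (1, 3, 3), (1, 4, 3),
    (1, 3, 4), (1, 4, 4), (1, 5, 4), (1, 4, 5), (1, 5, 5), (1, 6, 5), (1, 6, 6), (1, 7, 6)]
  g0 := (0, 0)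
  w' := (8, 3)
  b1' := (-4, 1)
  b2' := (-1, -1)
  T' :=
    [(1, 1, 0), (1, 2, 0), (1, 0, 3), (-1, 2, 5), (-1, 0, 8), (-1, 1, 8)]
  J' := 8
  r := 2
  j := 3
  i := 0

/-- integer separation certificates -/
def c20 : List ICert :=
  [⟨-1, -1, [2, 1, -1, -1, -1, 1], [1, -3, 0, -1, 2, 1, -1], 2⟩, ⟨1, 0, [117, -433, -1060,
  -1330, -1351, -2338, -1127], [199, 381, 321, 396, 336, 357, 161], 117⟩]

theorem lp20 : IsLimitPoint mahlerSet (mQ q20) :=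
  d20.main q20 (by decide +kernel) (by decide +kernel) c20 (by decide +kernel)
    (by decide +kernel)

end Pool.Agent.Lib.MP_5efc61_nt
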