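import Mathlib
import Pool.Agent.Lib.MP_5efc61_nt.Main

/-!
# Certificates (generated by a computer search, checked here by the kernel)
-/

namespace Pool.Agent.Lib.MP_5efc61_nt

/-- terms of the polynomial number 21 -/
def q21 : List (ℤ × (ℤ × ℤ)) :=
  [(1, 3, 1), (1, 2, 1), (1, 3, 0), (-1, 1, 0), (-1, 0, 0), (-1, -1, 0), (1, -3, 0), (1, -2,
  -1), (1, -3, -1)]

/-- certificate for the polynomial number 21 -/
def d21 : Dat where
  w := (3, 0)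
  b1 := (3, 1)
  b2 := (-4, -1)
  cy := [(1, 0, 0)]
  cy' := [(1, 0, 0), (-1, 1, 0)]
  g1 := (0, 0)
  g2 := (1, 0)
  cb := 1
  ct := 1
  it := 6
  J := 6
  mid :=
    [(1, 1, 2), (-1, 2, 2), (1, 2, 3), (-1, 3, 3), (1, 4, 3), (-1, 4, 4), (1, 5, 4)]
  g0 := (0, 0)
  w' := (-14, -1)
  b1' := (1, 0)
  b2' := (8, 1)
  T' :=
    [(1, 11, 0), (1, 12, 0), (1, 3, 1), (-1, 5, 1), (-1, 6, 1), (-1, 7, 1), (1, 9, 1), (1, 0,
    2), (1, 1, 2)]
  J' := 2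
  r := 2
  j := 1
  i := 1

/-- integer separation certificates -/
def c21 : List ICert :=
  [⟨1, -1, [3, 0, -1, -1], [-1, 2, -1, 1, 1, 1], 3⟩, ⟨-1, -1, [5, 0, -3, 3], [13, -18, 17, -3,
  -3, 3], 5⟩]

theorem lp21 : IsLimitPoint mahlerSet (mQ q21) :=
  d21.main q21 (by decide +kernel) (by decide +kernel) c21 (by decide +kernel)
    (by decide +kernel)

/-- terms of the polynomial number 22 -/
def q22 : List (ℤ × (ℤ × ℤ)) :=
  [(1, 8, 1), (-1, 0, 1), (-1, 1, 0), (-1, -1, 0), (-1, 0, -1), (1, -8, -1)]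

/-- certificate for the polynomial number 22 -/
def d22 : Dat where
  w := (8, 1)
  b1 := (-3, -1)
  b2 := (-2, 0)
  cy := [(1, 0, 0), (1, 0, 1)]
  cy' := [(-1, 0, 0), (1, 0, 1)]
  g1 := (0, 2)
  g2 := (0, 0)
  cb := 1
  ct := 1
  it := 2
  J := 4
  mid :=
    [(-1, 0, 1), (-1, 2, 1), (1, 0, 2), (-1, 1, 2), (1, 2, 2), (-1, 0, 3), (-1, 2, 3)]
  g0 := (0, 0)
  w' := (10, 1)
  b1' := (-2, 0)
  b2' := (-5, -1)
  T' :=
    [(1, 1, 0), (-1, 5, 0), (-1, 2, 1), (-1, 3, 1), (-1, 0, 2), (1, 4, 2)]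
  J' := 2
  r := 0
  j := 1
  i := 0

/-- integer separation certificates -/
def c22 : List ICert :=
  [⟨1, 0, [7, 4, -6, -4], [-5, -6, 1, 2], 7⟩, ⟨-1, 0, [9, -4, 10, 4], [-11, 6, -3, -2], 9⟩]

theorem lp22 : IsLimitPoint mahlerSet (mQ q22) :=
  d22.main q22 (by decide +kernel) (by decide +kernel) c22 (by decide +kernel)
    (by decide +kernel)

/-- terms of the polynomial number 23 -/
def q23 : List (ℤ × (ℤ × ℤ)) :=
  [(1, 9, 9), (-1, 0, 8), (1, 8, 0), (1, -8, 0), (-1, 0, -8), (1, -9, -9)]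

/-- certificate for the polynomial number 23 -/
def d23 : Dat where
  w := (-9, -9)
  b1 := (3, -5)
  b2 := (-1, 7)
  cy := [(1, 0, 0), (1, 1, 1)]
  cy' := [(1, 0, 0), (-1, 1, 1)]
  g1 := (0, 0)
  g2 := (2, 2)
  cb := 1
  ct := 1
  it := 8
  J := 8
  mid :=
    [(-1, 1, 1), (1, 1, 2), (1, 2, 2), (-1, 2, 3), (-1, 3, 3), (-1, 4, 3), (1, 3, 4), (1, 4,
    4), (1, 5, 4), (-1, 4, 5), (-1, 5, 5), (-1, 6, 5), (1, 6, 6), (1, 7, 6), (-1, 7, 7)]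
  g0 := (0, 0)
  w' := (10, 18)
  b1' := (-2, -2)
  b2' := (-1, -9)
  T' :=
    [(-1, 5, 0), (1, 9, 0), (1, 0, 1), (1, 9, 1), (1, 0, 2), (-1, 4, 2)]
  J' := 2
  r := 0
  j := 1
  i := 0

/-- integer separation certificates -/
def c23 : List ICert :=
  [⟨-1, -1, [1, -1, 0, 0, 0, 1], [1, 1, 0, -1, -1, 0, 1, 1], 1⟩]

theorem lp23 : IsLimitPoint mahlerSet (mQ q23) :=
  d23.main q23 (by decide +kernel) (by decide +kernel) c23 (by decide +kernel)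
    (by decide +kernel)

/-- terms of the polynomial number 24 -/
def q24 : List (ℤ × (ℤ × ℤ)) :=
  [(1, 6, 7), (-1, 0, 5), (-1, 5, 0), (-1, -5, 0), (-1, 0, -5), (1, -6, -7)]

/-- certificate for the polynomial number 24 -/
def d24 : Dat where
  w := (5, 0)
  b1 := (2, 4)
  b2 := (-5, -5)
  cy := [(1, 0, 0)]
  cy' := [(1, 0, 0), (-1, 1, 0)]
  g1 := (0, 0)
  g2 := (1, 0)
  cb := -1
  ct := -1
  it := 5
  J := 4
  mid :=
    [(-1, 0, 1), (1, 3, 1), (1, 2, 3), (-1, 5, 3)]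
  g0 := (0, 0)
  w' := (9, 8)
  b1' := (-3, -1)
  b2' := (-2, -4)
  T' :=
    [(1, 1, 0), (-1, 3, 0), (-1, 4, 1), (-1, 0, 2), (-1, 1, 3), (1, 3, 3)]
  J' := 3
  r := 0
  j := 1
  i := 1

/-- integer separation certificates -/
def c24 : List ICert :=
  [⟨-1, -1, [-1, -1, 1, 1], [3, 1, -2, -1], 1⟩]

theorem lp24 : IsLimitPoint mahlerSet (mQ q24) :=
  d24.main q24 (by decide +kernel) (by decide +kernel) c24 (by decide +kernel)
    (by decide +kernel)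

/-- terms of the polynomial number 25 -/
def q25 : List (ℤ × (ℤ × ℤ)) :=
  [(1, 12, 1), (-1, 0, 1), (1, 11, 0), (-1, -11, 0), (1, 0, -1), (-1, -12, -1)]

/-- certificate for the polynomial number 25 -/
def d25 : Dat where
  w := (11, 0)
  b1 := (5, 1)
  b2 := (-7, -1)
  cy := [(1, 0, 0), (-1, 1, 1)]
  cy' := [(1, 0, 0)]
  g1 := (0, 0)
  g2 := (1, 1)
  cb := 1
  ct := 1
  it := 10
  J := 10
  mid :=
    [(1, 1, 1), (1, 2, 2), (1, 3, 2), (1, 2, 3), (1, 3, 3), (1, 4, 3), (1, 3, 4), (1, 4, 4),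
    (1, 5, 4), (1, 4, 5), (1, 5, 5), (1, 6, 5), (1, 5, 6), (1, 6, 6), (1, 7, 6), (1, 6, 7), (1,
    7, 7), (1, 8, 7), (1, 7, 8), (1, 8, 8), (1, 9, 9)]
  g0 := (0, 0)
  w' := (16, 1)
  b1' := (-2, 0)
  b2' := (-5, -1)
  T' :=
    [(1, 2, 0), (-1, 8, 0), (1, 0, 1), (-1, 11, 1), (1, 3, 2), (-1, 9, 2)]
  J' := 2
  r := 2
  j := 1
  i := 3

/-- integer separation certificates -/
def c25 : List ICert :=
  [⟨-1, -1, [1, 1, 0, 0, 0, 0, -1, 0], [-1, 1, 0, 0, -1, 1, 0, -1, 1, 0], 1⟩]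

theorem lp25 : IsLimitPoint mahlerSet (mQ q25) :=
  d25.main q25 (by decide +kernel) (by decide +kernel) c25 (by decide +kernel)
    (by decide +kernel)

/-- terms of the polynomial number 26 -/
def q26 : List (ℤ × (ℤ × ℤ)) :=
  [(1, 0, 1), (1, 7, 0), (1, 5, 0), (1, -5, 0), (1, -7, 0), (1, 0, -1)]

/-- certificate for the polynomial number 26 -/
def d26 : Dat where
  w := (0, -1)
  b1 := (2, 0)
  b2 := (-7, 1)
  cy := [(1, 0, 0)]
  cy' := [(1, 0, 0), (-1, 1, 0)]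
  g1 := (0, 0)
  g2 := (1, 0)
  cb := 1
  ct := 1
  it := 7
  J := 2
  mid :=
    [(1, 0, 1), (1, 1, 1), (1, 6, 1), (1, 7, 1)]
  g0 := (0, 0)
  w' := (14, -1)
  b1' := (-7, 1)
  b2' := (-2, 0)
  T' :=
    [(1, 1, 0), (1, 2, 0), (1, 1, 1), (1, 1, 6), (1, 0, 7), (1, 1, 7)]
  J' := 7
  r := 2
  j := 1
  i := 0

/-- integer separation certificates -/
def c26 : List ICert :=
  [⟨1, -3, [3, 2], [-7, -2], 3⟩, ⟨-1, -2, [5, -6], [-3, 2], 5⟩]

theorem lp26 : IsLimitPoint mahlerSet (mQ q26) :=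
  d26.main q26 (by decide +kernel) (by decide +kernel) c26 (by decide +kernel)
    (by decide +kernel)

/-- terms of the polynomial number 27 -/
def q27 : List (ℤ × (ℤ × ℤ)) :=
  [(1, 8, 7), (1, 0, 1), (1, 1, 0), (1, -1, 0), (1, 0, -1), (1, -8, -7)]

/-- certificate for the polynomial number 27 -/
def d27 : Dat where
  w := (0, -1)
  b1 := (-9, -7)
  b2 := (1, 1)
  cy := [(1, 0, 0), (1, 0, 1), (1, 0, 2)]
  cy' := [(1, 0, 0), (-1, 0, 1)]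
  g1 := (0, 0)
  g2 := (0, 3)
  cb := 1
  ct := 1
  it := 1
  J := 7
  mid :=
    [(1, 1, 1), (-1, 0, 2), (-1, 1, 2), (1, 0, 3), (1, 1, 4), (-1, 0, 5), (-1, 1, 5), (1, 0,
    6)]
  g0 := (0, 0)
  w' := (8, 7)
  b1' := (-8, -6)
  b2' := (-1, -1)
  T' :=
    [(1, 0, 0), (1, 1, 0), (1, 1, 1), (1, 0, 7), (1, 0, 8), (1, 1, 8)]
  J' := 8
  r := 2
  j := 1
  i := 0

/-- integer separation certificates -/
def c27 : List ICert :=
  [⟨1, 0, [1, 1, 0, 0, 0, 0, 0], [-2, -1, 0, 0, 0, 0, 0], 1⟩]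

theorem lp27 : IsLimitPoint mahlerSet (mQ q27) :=
  d27.main q27 (by decide +kernel) (by decide +kernel) c27 (by decide +kernel)
    (by decide +kernel)

/-- terms of the polynomial number 28 -/
def q28 : List (ℤ × (ℤ × ℤ)) :=
  [(1, 10, 1), (1, 0, 1), (1, 7, 0), (1, -7, 0), (1, 0, -1), (1, -10, -1)]

/-- certificate for the polynomial number 28 -/
def d28 : Dat where
  w := (10, 1)
  b1 := (-1, -1)
  b2 := (-2, 0)
  cy := [(1, 0, 0), (1, 0, 1)]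
  cy' := [(-1, 0, 0), (1, 0, 1)]
  g1 := (0, 2)
  g2 := (0, 0)
  cb := 1
  ct := 1
  it := 2
  J := 8
  mid :=
    [(-1, 0, 1), (1, 1, 1), (1, 0, 2), (-1, 1, 2), (-1, 0, 3), (1, 1, 3), (1, 0, 4), (-1, 1,
    4), (1, 2, 4), (1, 1, 5), (-1, 2, 5), (-1, 1, 6), (1, 2, 6), (1, 1, 7), (-1, 2, 7)]
  g0 := (0, 0)
  w' := (0, 1)
  b1' := (-7, -1)
  b2' := (2, 0)
  T' :=
    [(1, 0, 0), (1, 1, 0), (1, 2, 2), (1, 0, 5), (1, 1, 7), (1, 2, 7)]
  J' := 7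
  r := 2
  j := 2
  i := 1

/-- integer separation certificates -/
def c28 : List ICert :=
  [⟨1, 0, [3, 1, 0, -1, -2, -1, -3, -2], [-1, -1, 1, 2, 1, 1, 2, 1], 3⟩, ⟨-1, 0, [17, 23, -12,
  1, -2, 37, -21, 22], [-11, -35, 13, -8, 9, -21, 16, -11], 17⟩]

theorem lp28 : IsLimitPoint mahlerSet (mQ q28) :=
  d28.main q28 (by decide +kernel) (by decide +kernel) c28 (by decide +kernel)
    (by decide +kernel)

/-- terms of the polynomial number 29 -/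
def q29 : List (ℤ × (ℤ × ℤ)) :=
  [(1, 4, 7), (-1, 0, 1), (-1, 1, 0), (-1, -1, 0), (-1, 0, -1), (1, -4, -7)]

/-- certificate for the polynomial number 29 -/
def d29 : Dat where
  w := (1, 0)
  b1 := (2, 4)
  b2 := (-3, -5)
  cy := [(1, 0, 0)]
  cy' := [(1, 0, 0), (-1, 1, 0)]
  g1 := (0, 0)
  g2 := (1, 0)
  cb := -1
  ct := -1
  it := 5
  J := 4
  mid :=
    [(-1, 1, 1), (1, 3, 1), (1, 2, 3), (-1, 4, 3)]
  g0 := (0, 0)
  w' := (4, 7)
  b1' := (-5, -7)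
  b2' := (1, 1)
  T' :=
    [(1, 0, 0), (-1, 1, 0), (-1, 1, 1), (-1, 2, 6), (-1, 2, 7), (1, 3, 7)]
  J' := 7
  r := 0
  j := 1
  i := 2

/-- integer separation certificates -/
def c29 : List ICert :=
  [⟨1, -2, [-1, -6, -4, 6], [-3, -2, 0, 2], 1⟩]

theorem lp29 : IsLimitPoint mahlerSet (mQ q29) :=
  d29.main q29 (by decide +kernel) (by decide +kernel) c29 (by decide +kernel)
    (by decide +kernel)

/-- terms of the polynomial number 30 -/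
def q30 : List (ℤ × (ℤ × ℤ)) :=
  [(1, 0, 5), (1, 3, 3), (1, 5, 0), (-1, -5, 0), (-1, -3, -3), (-1, 0, -5)]

/-- certificate for the polynomial number 30 -/
def d30 : Dat where
  w := (-5, 0)
  b1 := (1, -4)
  b2 := (1, 1)
  cy := [(-1, 0, 0), (1, 0, 1)]
  cy' := [(1, 0, 0)]
  g1 := (0, 1)
  g2 := (0, 0)
  cb := 1
  ct := 1
  it := 2
  J := 7
  mid :=
    [(1, 0, 1), (1, 1, 1), (1, 0, 2), (1, 1, 2), (1, 0, 3), (1, 1, 3), (1, 2, 3), (1, 0, 4),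
    (1, 1, 4), (1, 2, 4), (1, 1, 5), (1, 2, 5), (1, 1, 6), (1, 2, 6)]
  g0 := (0, 0)
  w' := (5, 0)
  b1' := (-2, 3)
  b2' := (-1, -1)
  T' :=
    [(1, 0, 0), (1, 1, 0), (1, 2, 1), (-1, 0, 5), (-1, 1, 6), (-1, 2, 6)]
  J' := 6
  r := 2
  j := 1
  i := 1

/-- integer separation certificates -/
def c30 : List ICert :=
  [⟨-1, 0, [4, -3, 2, 3, -6, 1, -2], [-3, 5, -1, -2, 3, -1, 1], 4⟩]

theorem lp30 : IsLimitPoint mahlerSet (mQ q30) :=
  d30.main' q30 (by decide +kernel) (by decide +kernel) c30 (by decide +kernel) 8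
    (by decide +kernel) 0 [1, 3, 1, 1, 0, 1] [0, 0, 0, 0, 2, 1, 2] (by decide +kernel)

/-- terms of the polynomial number 31 -/
def q31 : List (ℤ × (ℤ × ℤ)) :=
  [(1, 0, 1), (1, 4, 0), (1, 1, 0), (1, -1, 0), (1, -4, 0), (1, 0, -1)]

/-- certificate for the polynomial number 31 -/
def d31 : Dat where
  w := (0, -1)
  b1 := (1, 0)
  b2 := (-4, 1)
  cy := [(1, 0, 0)]
  cy' := [(1, 0, 0), (-1, 1, 0)]
  g1 := (0, 0)
  g2 := (1, 0)
  cb := 1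
  ct := 1
  it := 8
  J := 2
  mid :=
    [(1, 0, 1), (1, 3, 1), (1, 5, 1), (1, 8, 1)]
  g0 := (0, 0)
  w' := (8, -1)
  b1' := (-4, 1)
  b2' := (-1, 0)
  T' :=
    [(1, 1, 0), (1, 2, 0), (1, 1, 3), (1, 1, 5), (1, 0, 8), (1, 1, 8)]
  J' := 8
  r := 2
  j := 3
  i := 0

/-- integer separation certificates -/
def c31 : List ICert :=
  [⟨-1, -3, [2, 0], [-1, 0], 2⟩]

theorem lp31 : IsLimitPoint mahlerSet (mQ q31) :=
  d31.main' q31 (by decide +kernel) (by decide +kernel) c31 (by decide +kernel) 8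
    (by decide +kernel) 0 [1] [0, 2] (by decide +kernel)

/-- terms of the polynomial number 32 -/
def q32 : List (ℤ × (ℤ × ℤ)) :=
  [(1, 0, 5), (-1, 3, 2), (1, 5, 0), (1, -5, 0), (-1, -3, -2), (1, 0, -5)]

/-- certificate for the polynomial number 32 -/
def d32 : Dat where
  w := (0, -5)
  b1 := (6, 4)
  b2 := (-1, 1)
  cy := [(1, 0, 0)]
  cy' := [(1, 0, 0), (-1, 1, 0)]
  g1 := (0, 0)
  g2 := (1, 0)
  cb := 1
  ct := 1
  it := 1
  J := 6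
  mid :=
    [(1, 1, 1), (-1, 0, 3), (-1, 1, 3), (1, 0, 5)]
  g0 := (0, 0)
  w' := (0, 5)
  b1' := (-5, -5)
  b2' := (1, -1)
  T' :=
    [(1, 0, 0), (1, 1, 0), (-1, 1, 2), (-1, 0, 3), (1, 0, 5), (1, 1, 5)]
  J' := 5
  r := 2
  j := 2
  i := 0

/-- integer separation certificates -/
def c32 : List ICert :=
  [⟨1, 0, [1, 1, 1, 0, 0, 0], [-2, -2, -1, 0, 0, 0], 1⟩]

theorem lp32 : IsLimitPoint mahlerSet (mQ q32) :=
  d32.main q32 (by decide +kernel) (by decide +kernel) c32 (by decide +kernel)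
    (by decide +kernel)

/-- terms of the polynomial number 33 -/
def q33 : List (ℤ × (ℤ × ℤ)) :=
  [(1, 0, 3), (1, 2, 1), (1, 1, 0), (1, -1, 0), (1, -2, -1), (1, 0, -3)]

/-- certificate for the polynomial number 33 -/
def d33 : Dat where
  w := (2, 1)
  b1 := (-1, -3)
  b2 := (0, 2)
  cy := [(1, 0, 0)]
  cy' := [(1, 0, 0), (-1, 1, 0)]
  g1 := (0, 0)
  g2 := (1, 0)
  cb := 1
  ct := 1
  it := 4
  J := 5
  mid :=
    [(1, 1, 1), (1, 2, 1), (1, 2, 4), (1, 3, 4)]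
  g0 := (0, 0)
  w' := (-24, 21)
  b1' := (1, -1)
  b2' := (8, -6)
  T' :=
    [(1, 22, 0), (1, 24, 0), (1, 15, 1), (1, 9, 2), (1, 0, 3), (1, 2, 3)]
  J' := 3
  r := 1
  j := 1
  i := 2

/-- integer separation certificates -/
def c33 : List ICert :=
  [⟨-1, -1, [1, -1, 0, 1, 0], [1, 0, -1, 1, 0], 1⟩]

theorem lp33 : IsLimitPoint mahlerSet (mQ q33) :=
  d33.main q33 (by decide +kernel) (by decide +kernel) c33 (by decide +kernel)
    (by decide +kernel)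

/-- terms of the polynomial number 34 -/
def q34 : List (ℤ × (ℤ × ℤ)) :=
  [(1, 14, 1), (-1, 0, 1), (1, 13, 0), (-1, -13, 0), (1, 0, -1), (-1, -14, -1)]

/-- certificate for the polynomial number 34 -/
def d34 : Dat where
  w := (13, 0)
  b1 := (9, 1)
  b2 := (-11, -1)
  cy := [(1, 0, 0), (-1, 1, 1)]
  cy' := [(1, 0, 0)]
  g1 := (0, 0)
  g2 := (1, 1)
  cb := 1
  ct := 1
  it := 12
  J := 12
  mid :=
    [(1, 1, 1), (1, 1, 2), (1, 2, 2), (1, 2, 3), (1, 3, 3), (1, 3, 4), (1, 4, 4), (1, 5, 4),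
    (1, 4, 5), (1, 5, 5), (1, 6, 5), (1, 5, 6), (1, 6, 6), (1, 7, 6), (1, 6, 7), (1, 7, 7), (1,
    8, 7), (1, 7, 8), (1, 8, 8), (1, 9, 8), (1, 9, 9), (1, 10, 9), (1, 10, 10), (1, 11, 10),
    (1, 11, 11)]
  g0 := (0, 0)
  w' := (0, 1)
  b1' := (-13, -1)
  b2' := (2, 0)
  T' :=
    [(-1, 0, 0), (-1, 1, 0), (-1, 2, 6), (1, 0, 7), (1, 1, 13), (1, 2, 13)]
  J' := 13
  r := 2
  j := 6
  i := 1

/-- integer separation certificates -/
def c34 : List ICert :=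
  [⟨-1, -1, [1, 1, -2, 0, 0, 0, 0, 1, 0, -2], [3, 1, 2, 2, 0, 1, 0, 2, 0, 1, 0, -2], 1⟩]

theorem lp34 : IsLimitPoint mahlerSet (mQ q34) :=
  d34.main q34 (by decide +kernel) (by decide +kernel) c34 (by decide +kernel)
    (by decide +kernel)

/-- terms of the polynomial number 35 -/
def q35 : List (ℤ × (ℤ × ℤ)) :=
  [(1, 11, 11), (1, 0, 10), (1, 10, 0), (1, -10, 0), (1, 0, -10), (1, -11, -11)]

/-- certificate for the polynomial number 35 -/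
def d35 : Dat where
  w := (-11, -11)
  b1 := (3, -7)
  b2 := (-1, 9)
  cy := [(1, 0, 0), (1, 1, 1)]
  cy' := [(1, 0, 0), (-1, 1, 1)]
  g1 := (0, 0)
  g2 := (2, 2)
  cb := 1
  ct := 1
  it := 10
  J := 10
  mid :=
    [(-1, 1, 1), (1, 1, 2), (1, 2, 2), (-1, 2, 3), (-1, 3, 3), (1, 3, 4), (1, 4, 4), (1, 5, 4),
    (-1, 4, 5), (-1, 5, 5), (-1, 6, 5), (1, 5, 6), (1, 6, 6), (1, 7, 6), (-1, 7, 7), (-1, 8,
    7), (1, 8, 8), (1, 9, 8), (-1, 9, 9)]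
  g0 := (0, 0)
  w' := (22, 12)
  b1' := (-11, -1)
  b2' := (-2, -2)
  T' :=
    [(1, 1, 0), (1, 2, 0), (1, 2, 5), (1, 0, 6), (1, 0, 11), (1, 1, 11)]
  J' := 11
  r := 2
  j := 5
  i := 0

/-- integer separation certificates -/
def c35 : List ICert :=
  [⟨-1, -1, [1, -1, -2, 0, 0, 0, 1, 2], [3, -1, 2, -2, -1, -2, 0, 0, 1, 2], 1⟩]

theorem lp35 : IsLimitPoint mahlerSet (mQ q35) :=
  d35.main q35 (by decide +kernel) (by decide +kernel) c35 (by decide +kernel)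
    (by decide +kernel)

/-- terms of the polynomial number 36 -/
def q36 : List (ℤ × (ℤ × ℤ)) :=
  [(1, 0, 1), (1, 9, 0), (-1, 5, 0), (-1, -5, 0), (1, -9, 0), (1, 0, -1)]

/-- certificate for the polynomial number 36 -/
def d36 : Dat where
  w := (0, -1)
  b1 := (2, 0)
  b2 := (-9, 1)
  cy := [(1, 0, 0)]
  cy' := [(1, 0, 0), (-1, 1, 0)]
  g1 := (0, 0)
  g2 := (1, 0)
  cb := 1
  ct := 1
  it := 9
  J := 2
  mid :=
    [(1, 0, 1), (-1, 2, 1), (-1, 7, 1), (1, 9, 1)]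
  g0 := (0, 0)
  w' := (18, -1)
  b1' := (-9, 1)
  b2' := (-2, 0)
  T' :=
    [(1, 1, 0), (1, 2, 0), (-1, 1, 2), (-1, 1, 7), (1, 0, 9), (1, 1, 9)]
  J' := 9
  r := 2
  j := 2
  i := 0

/-- integer separation certificates -/
def c36 : List ICert :=
  [⟨1, -3, [3, 0], [-1, 0], 3⟩, ⟨1, -2, [5, 0], [-1, 0], 5⟩]

theorem lp36 : IsLimitPoint mahlerSet (mQ q36) :=
  d36.main q36 (by decide +kernel) (by decide +kernel) c36 (by decide +kernel)
    (by decide +kernel)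

/-- terms of the polynomial number 37 -/
def q37 : List (ℤ × (ℤ × ℤ)) :=
  [(1, 8, 9), (1, 0, 7), (1, 7, 0), (1, -7, 0), (1, 0, -7), (1, -8, -9)]

/-- certificate for the polynomial number 37 -/
def d37 : Dat where
  w := (-8, -9)
  b1 := (3, -1)
  b2 := (-1, 5)
  cy := [(1, 0, 0)]
  cy' := [(1, 0, 0), (-1, 1, 0)]
  g1 := (0, 0)
  g2 := (1, 0)
  cb := 1
  ct := 1
  it := 7
  J := 5
  mid :=
    [(1, 3, 1), (1, 1, 2), (1, 6, 3), (1, 4, 4)]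
  g0 := (0, 0)
  w' := (21, 28)
  b1' := (-7, -7)
  b2' := (-2, -4)
  T' :=
    [(1, 3, 0), (1, 4, 0), (1, 1, 3), (1, 3, 4), (1, 0, 7), (1, 1, 7)]
  J' := 7
  r := 2
  j := 3
  i := 0

/-- integer separation certificates -/
def c37 : List ICert :=
  [⟨-1, -2, [1, 9, -13, -17, 15], [8, 1, -9, -4, 5], 1⟩]

theorem lp37 : IsLimitPoint mahlerSet (mQ q37) :=
  d37.main q37 (by decide +kernel) (by decide +kernel) c37 (by decide +kernel)
    (by decide +kernel)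

/-- terms of the polynomial number 38 -/
def q38 : List (ℤ × (ℤ × ℤ)) :=
  [(1, 0, 5), (1, 2, 2), (1, 5, 0), (-1, -5, 0), (-1, -2, -2), (-1, 0, -5)]

/-- certificate for the polynomial number 38 -/
def d38 : Dat where
  w := (-5, 0)
  b1 := (2, -3)
  b2 := (1, 1)
  cy := [(-1, 0, 0), (1, 0, 1)]
  cy' := [(1, 0, 0)]
  g1 := (0, 1)
  g2 := (0, 0)
  cb := 1
  ct := 1
  it := 2
  J := 5
  mid :=
    [(1, 0, 1), (1, 1, 1), (1, 2, 1), (1, 0, 2), (1, 1, 2), (1, 2, 2), (1, 0, 3), (1, 1, 3),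
    (1, 2, 3), (1, 0, 4), (1, 1, 4), (1, 2, 4)]
  g0 := (0, 0)
  w' := (30, -25)
  b1' := (-5, 5)
  b2' := (-3, 2)
  T' :=
    [(1, 5, 0), (1, 6, 0), (1, 5, 1), (-1, 1, 9), (-1, 0, 10), (-1, 1, 10)]
  J' := 10
  r := 2
  j := 1
  i := 0

/-- integer separation certificates -/
def c38 : List ICert :=
  [⟨1, 0, [14, 33, 24, 15, 6], [-25, -30, -21, -12, -3], 14⟩, ⟨-1, -1, [15, -15, 7, 3, 6], [7,
  -4, 3, 1, 2], 15⟩]

theorem lp38 : IsLimitPoint mahlerSet (mQ q38) :=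
  d38.main q38 (by decide +kernel) (by decide +kernel) c38 (by decide +kernel)
    (by decide +kernel)

/-- terms of the polynomial number 39 -/
def q39 : List (ℤ × (ℤ × ℤ)) :=
  [(1, 2, 2), (1, 1, 2), (1, 2, 1), (1, 1, 1), (-1, -1, 1), (-1, 1, -1), (1, -1, -1), (1, -2,
  -1), (1, -1, -2), (1, -2, -2)]

/-- certificate for the polynomial number 39 -/
def d39 : Dat where
  w := (1, -1)
  b1 := (1, 1)
  b2 := (-2, -1)
  cy := [(1, 0, 0)]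
  cy' := [(1, 0, 0), (-1, 1, 0)]
  g1 := (0, 0)
  g2 := (1, 0)
  cb := -1
  ct := -1
  it := 6
  J := 4
  mid :=
    [(1, 0, 1), (1, 3, 1), (1, 1, 2), (1, 2, 2), (1, 4, 2), (1, 5, 2), (1, 3, 3), (1, 6, 3)]
  g0 := (0, 0)
  w' := (-31, -2)
  b1' := (1, 0)
  b2' := (8, 1)
  T' :=
    [(1, 29, 0), (1, 30, 0), (1, 21, 1), (1, 22, 1), (-1, 24, 1), (-1, 6, 3), (1, 8, 3), (1, 9,
    3), (1, 0, 4), (1, 1, 4)]
  J' := 4
  r := 2
  j := 1
  i := 1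

/-- integer separation certificates -/
def c39 : List ICert :=
  [⟨-1, 0, [-6, -6, -3, 6], [2, 1, 0, -1], 6⟩, ⟨-1, -1, [-14, 6, 9, -6], [-2, -3, 0, 3], 14⟩]

theorem lp39 : IsLimitPoint mahlerSet (mQ q39) :=
  d39.main' q39 (by decide +kernel) (by decide +kernel) c39 (by decide +kernel) 8
    (by decide +kernel) 0 [1, 0, 1] [0, 1, 1, 1] (by decide +kernel)

/-- terms of the polynomial number 40 -/
def q40 : List (ℤ × (ℤ × ℤ)) :=
  [(1, 10, 1), (1, 0, 1), (1, 3, 0), (1, -3, 0), (1, 0, -1), (1, -10, -1)]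

/-- certificate for the polynomial number 40 -/
def d40 : Dat where
  w := (10, 1)
  b1 := (-3, -1)
  b2 := (-2, 0)
  cy := [(1, 0, 0), (1, 0, 1)]
  cy' := [(-1, 0, 0), (1, 0, 1)]
  g1 := (0, 2)
  g2 := (0, 0)
  cb := 1
  ct := 1
  it := 2
  J := 6
  mid :=
    [(-1, 0, 1), (1, 0, 2), (1, 1, 2), (1, 2, 2), (-1, 0, 3), (-1, 1, 3), (-1, 2, 3), (1, 0,
    4), (1, 1, 4), (1, 2, 4), (-1, 2, 5)]
  g0 := (0, 0)
  w' := (0, 1)
  b1' := (-5, -1)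
  b2' := (2, 0)
  T' :=
    [(1, 0, 0), (1, 2, 0), (1, 1, 1), (1, 1, 4), (1, 0, 5), (1, 2, 5)]
  J' := 5
  r := 1
  j := 1
  i := 0

/-- integer separation certificates -/
def c40 : List ICert :=
  [⟨-1, 0, [7, 7, 9, 3, 6, -10], [-9, -3, -6, 1, -3, 5], 7⟩, ⟨1, 0, [39, 39, -75, 111, -30,
  106], [-1, -63, 60, -135, 15, -53], 39⟩]

theorem lp40 : IsLimitPoint mahlerSet (mQ q40) :=
  d40.main q40 (by decide +kernel) (by decide +kernel) c40 (by decide +kernel)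
    (by decide +kernel)

/-- terms of the polynomial number 41 -/
def q41 : List (ℤ × (ℤ × ℤ)) :=
  [(1, 7, 2), (-1, 0, 1), (-1, 3, 0), (-1, -3, 0), (-1, 0, -1), (1, -7, -2)]

/-- certificate for the polynomial number 41 -/
def d41 : Dat where
  w := (-7, -2)
  b1 := (2, 0)
  b2 := (1, 1)
  cy := [(1, 0, 0)]
  cy' := [(1, 0, 0), (-1, 1, 0)]
  g1 := (0, 0)
  g2 := (1, 0)
  cb := 1
  ct := 1
  it := 5
  J := 4
  mid :=
    [(-1, 3, 1), (-1, 1, 2), (-1, 4, 2), (-1, 2, 3)]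
  g0 := (0, 0)
  w' := (3, 2)
  b1' := (-3, -1)
  b2' := (2, 0)
  T' :=
    [(-1, 1, 0), (-1, 2, 0), (1, 4, 1), (1, 0, 2), (-1, 2, 3), (-1, 3, 3)]
  J' := 3
  r := 2
  j := 1
  i := 2

/-- integer separation certificates -/
def c41 : List ICert :=
  [⟨1, -1, [4, 2, -3, -2], [-1, -6, -1, 2], 4⟩, ⟨1, -2, [13, 31, 20, -24], [18, 17, 4, -8],
  13⟩]

theorem lp41 : IsLimitPoint mahlerSet (mQ q41) :=
  d41.main q41 (by decide +kernel) (by decide +kernel) c41 (by decide +kernel)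
    (by decide +kernel)

end Pool.Agent.Lib.MP_5efc61_nt
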