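import Mathlib
import Pool.Agent.Lib.MP_5efc61_nt.Main

/-!
# Certificates (generated by a computer search, checked here by the kernel)
-/

namespace Pool.Agent.Lib.MP_5efc61_nt

/-- terms of the polynomial number 42 -/
def q42 : List (ℤ × (ℤ × ℤ)) :=
  [(1, 9, 2), (-1, 0, 1), (-1, 5, 0), (-1, -5, 0), (-1, 0, -1), (1, -9, -2)]

/-- certificate for the polynomial number 42 -/
def d42 : Dat where
  w := (-9, -2)
  b1 := (2, 0)
  b2 := (1, 1)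
  cy := [(1, 0, 0)]
  cy' := [(1, 0, 0), (-1, 1, 0)]
  g1 := (0, 0)
  g2 := (1, 0)
  cb := 1
  ct := 1
  it := 7
  J := 4
  mid :=
    [(-1, 4, 1), (-1, 1, 2), (-1, 6, 2), (-1, 3, 3)]
  g0 := (0, 0)
  w' := (5, 2)
  b1' := (-5, -1)
  b2' := (2, 0)
  T' :=
    [(-1, 1, 0), (-1, 2, 0), (1, 0, 2), (1, 4, 3), (-1, 2, 5), (-1, 3, 5)]
  J' := 5
  r := 2
  j := 2
  i := 2

/-- integer separation certificates -/
def c42 : List ICert :=
  [⟨1, -1, [3, -3, 0, 0], [-2, 1, 0, 0], 3⟩, ⟨1, -2, [8, -14, -15, 6], [-11, -14, -3, 6], 8⟩]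

theorem lp42 : IsLimitPoint mahlerSet (mQ q42) :=
  d42.main q42 (by decide +kernel) (by decide +kernel) c42 (by decide +kernel)
    (by decide +kernel)

/-- terms of the polynomial number 43 -/
def q43 : List (ℤ × (ℤ × ℤ)) :=
  [(1, 8, 7), (1, 0, 3), (1, 3, 0), (1, -3, 0), (1, 0, -3), (1, -8, -7)]

/-- certificate for the polynomial number 43 -/
def d43 : Dat where
  w := (-8, -7)
  b1 := (-1, 1)
  b2 := (4, 2)
  cy := [(1, 0, 0)]
  cy' := [(1, 0, 0), (-1, 1, 0)]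
  g1 := (0, 0)
  g2 := (1, 0)
  cb := 1
  ct := 1
  it := 4
  J := 5
  mid :=
    [(1, 0, 2), (1, 3, 2), (1, 1, 3), (1, 4, 3)]
  g0 := (0, 0)
  w' := (0, 3)
  b1' := (-3, -3)
  b2' := (4, 2)
  T' :=
    [(1, 0, 0), (1, 1, 0), (1, 4, 1), (1, 0, 2), (1, 3, 3), (1, 4, 3)]
  J' := 3
  r := 2
  j := 1
  i := 3

/-- integer separation certificates -/
def c43 : List ICert :=
  [⟨1, -1, [3, 0, 1, 2, -1], [7, 1, 0, 2, -1], 3⟩, ⟨-1, -1, [25, 0, -33, 6, 9], [-11, -9, -6,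
  6, 9], 25⟩]

theorem lp43 : IsLimitPoint mahlerSet (mQ q43) :=
  d43.main q43 (by decide +kernel) (by decide +kernel) c43 (by decide +kernel)
    (by decide +kernel)

/-- terms of the polynomial number 44 -/
def q44 : List (ℤ × (ℤ × ℤ)) :=
  [(1, 0, 5), (1, 1, 1), (1, 5, 0), (-1, -5, 0), (-1, -1, -1), (-1, 0, -5)]

/-- certificate for the polynomial number 44 -/
def d44 : Dat where
  w := (-5, 0)
  b1 := (2, -3)
  b2 := (1, 1)
  cy := [(-1, 0, 0), (1, 0, 1)]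
  cy' := [(1, 0, 0)]
  g1 := (0, 1)
  g2 := (0, 0)
  cb := 1
  ct := 1
  it := 2
  J := 5
  mid :=
    [(1, 0, 1), (1, 2, 1), (1, 0, 2), (1, 1, 2), (1, 2, 2), (1, 0, 3), (1, 1, 3), (1, 2, 3),
    (1, 0, 4), (1, 2, 4)]
  g0 := (0, 0)
  w' := (30, -25)
  b1' := (-5, 5)
  b2' := (-3, 2)
  T' :=
    [(1, 5, 0), (1, 6, 0), (1, 4, 3), (-1, 2, 7), (-1, 0, 10), (-1, 1, 10)]
  J' := 10
  r := 2
  j := 3
  i := 0

/-- integer separation certificates -/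
def c44 : List ICert :=
  [⟨-1, 0, [8, 6, -7, 4, 10], [-11, -1, 4, -7, -5], 8⟩]

theorem lp44 : IsLimitPoint mahlerSet (mQ q44) :=
  d44.main' q44 (by decide +kernel) (by decide +kernel) c44 (by decide +kernel) 8
    (by decide +kernel) 0 [1, 2] [2, 2, 3, 3] (by decide +kernel)

/-- terms of the polynomial number 45 -/
def q45 : List (ℤ × (ℤ × ℤ)) :=
  [(1, 10, 1), (1, 0, 1), (1, 1, 0), (1, -1, 0), (1, 0, -1), (1, -10, -1)]

/-- certificate for the polynomial number 45 -/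
def d45 : Dat where
  w := (10, 1)
  b1 := (-3, -1)
  b2 := (-2, 0)
  cy := [(1, 0, 0), (1, 0, 1)]
  cy' := [(-1, 0, 0), (1, 0, 1)]
  g1 := (0, 2)
  g2 := (0, 0)
  cb := 1
  ct := 1
  it := 2
  J := 6
  mid :=
    [(-1, 0, 1), (1, 0, 2), (1, 2, 2), (-1, 0, 3), (1, 1, 3), (-1, 2, 3), (1, 0, 4), (1, 2, 4),
    (-1, 2, 5)]
  g0 := (0, 0)
  w' := (0, 1)
  b1' := (-5, -1)
  b2' := (2, 0)
  T' :=
    [(1, 0, 0), (1, 2, 0), (1, 1, 2), (1, 1, 3), (1, 0, 5), (1, 2, 5)]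
  J' := 5
  r := 1
  j := 2
  i := 0

/-- integer separation certificates -/
def c45 : List ICert :=
  [⟨1, 0, [9, 9, -5, 6, 4, 10], [-2, -11, -2, -8, -2, -5], 9⟩, ⟨-1, 0, [11, 11, 13, 6, -4, 2],
  [-12, -9, -4, -4, 2, -1], 11⟩]

theorem lp45 : IsLimitPoint mahlerSet (mQ q45) :=
  d45.main q45 (by decide +kernel) (by decide +kernel) c45 (by decide +kernel)
    (by decide +kernel)

/-- terms of the polynomial number 46 -/
def q46 : List (ℤ × (ℤ × ℤ)) :=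
  [(-1, 2, 1), (1, 0, 1), (1, 5, 0), (1, -5, 0), (1, 0, -1), (-1, -2, -1)]

/-- certificate for the polynomial number 46 -/
def d46 : Dat where
  w := (5, 0)
  b1 := (1, 1)
  b2 := (-3, -1)
  cy := [(1, 0, 0)]
  cy' := [(1, 0, 0), (-1, 1, 0)]
  g1 := (0, 0)
  g2 := (1, 0)
  cb := 1
  ct := 1
  it := 5
  J := 5
  mid :=
    [(1, 1, 2), (-1, 3, 2), (-1, 2, 3), (1, 4, 3)]
  g0 := (0, 0)
  w' := (10, 1)
  b1' := (-2, 0)
  b2' := (-5, -1)
  T' :=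
    [(-1, 4, 0), (1, 5, 0), (1, 0, 1), (1, 5, 1), (1, 0, 2), (-1, 1, 2)]
  J' := 2
  r := 0
  j := 1
  i := 0

/-- integer separation certificates -/
def c46 : List ICert :=
  [⟨1, -1, [4, 0, -2], [-1, -1, -1, 1, 1], 4⟩, ⟨-1, 0, [31, 0, 22, 30, 20], [-11, -4, -6, -6,
  -4], 31⟩]

theorem lp46 : IsLimitPoint mahlerSet (mQ q46) :=
  d46.main q46 (by decide +kernel) (by decide +kernel) c46 (by decide +kernel)
    (by decide +kernel)

/-- terms of the polynomial number 47 -/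
def q47 : List (ℤ × (ℤ × ℤ)) :=
  [(1, 0, 7), (1, 6, 6), (1, 7, 0), (-1, -7, 0), (-1, -6, -6), (-1, 0, -7)]

/-- certificate for the polynomial number 47 -/
def d47 : Dat where
  w := (-6, -6)
  b1 := (4, -3)
  b2 := (-3, 4)
  cy := [(-1, 0, 0), (1, 1, 1)]
  cy' := [(1, 0, 0)]
  g1 := (1, 1)
  g2 := (0, 0)
  cb := 1
  ct := 1
  it := 11
  J := 11
  mid :=
    [(1, 1, 1), (1, 2, 2), (1, 3, 2), (1, 2, 3), (1, 3, 3), (1, 4, 3), (1, 3, 4), (1, 4, 4),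
    (1, 5, 4), (1, 4, 5), (1, 5, 5), (1, 6, 5), (1, 5, 6), (1, 6, 6), (1, 7, 6), (1, 6, 7), (1,
    7, 7), (1, 8, 7), (1, 7, 8), (1, 8, 8), (1, 9, 8), (1, 8, 9), (1, 9, 9), (1, 10, 10)]
  g0 := (0, 0)
  w' := (12, 5)
  b1' := (-6, 1)
  b2' := (-1, -1)
  T' :=
    [(1, 1, 0), (1, 2, 0), (1, 0, 5), (-1, 2, 7), (-1, 0, 12), (-1, 1, 12)]
  J' := 12
  r := 2
  j := 5
  i := 0

/-- integer separation certificates -/
def c47 : List ICert :=
  [⟨-1, -1, [2, 2, -1, -1, -1, -1, -1, 1, 1], [-3, 2, 0, -1, 0, 1, 0, -1, 2, 0, -1], 2⟩, ⟨-1,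
  -2, [402861, 329029, 409158, 197097, -37283, -23701, -273955, 81103, -313842, 167990,
  503701], [73832, -6297, 24399, 18392, -10635, 8615, -23925, 22547, -29541, 11109, 45791],
  402861⟩]

theorem lp47 : IsLimitPoint mahlerSet (mQ q47) :=
  d47.main q47 (by decide +kernel) (by decide +kernel) c47 (by decide +kernel)
    (by decide +kernel)

/-- terms of the polynomial number 48 -/
def q48 : List (ℤ × (ℤ × ℤ)) :=
  [(1, 0, 7), (1, 5, 4), (1, 7, 0), (1, -7, 0), (1, -5, -4), (1, 0, -7)]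

/-- certificate for the polynomial number 48 -/
def d48 : Dat where
  w := (7, 0)
  b1 := (-1, -5)
  b2 := (-2, 4)
  cy := [(1, 0, 0)]
  cy' := [(1, 0, 0), (-1, 1, 0)]
  g1 := (0, 0)
  g2 := (1, 0)
  cb := 1
  ct := 1
  it := 4
  J := 5
  mid :=
    [(1, 0, 1), (1, 3, 2), (1, 1, 3), (1, 4, 4)]
  g0 := (0, 0)
  w' := (9, -4)
  b1' := (-2, 4)
  b2' := (-3, -1)
  T' :=
    [(1, 1, 0), (1, 2, 0), (1, 3, 1), (1, 0, 3), (1, 1, 4), (1, 2, 4)]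
  J' := 4
  r := 2
  j := 1
  i := 1

/-- integer separation certificates -/
def c48 : List ICert :=
  [⟨-1, -1, [1, -3, 1, 1, -1], [-2, -1, 1, 0, -1], 1⟩]

theorem lp48 : IsLimitPoint mahlerSet (mQ q48) :=
  d48.main q48 (by decide +kernel) (by decide +kernel) c48 (by decide +kernel)
    (by decide +kernel)

/-- terms of the polynomial number 49 -/
def q49 : List (ℤ × (ℤ × ℤ)) :=
  [(1, 16, 1), (-1, 0, 1), (1, 15, 0), (-1, -15, 0), (1, 0, -1), (-1, -16, -1)]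

/-- certificate for the polynomial number 49 -/
def d49 : Dat where
  w := (15, 0)
  b1 := (7, 1)
  b2 := (-9, -1)
  cy := [(1, 0, 0), (-1, 1, 1)]
  cy' := [(1, 0, 0)]
  g1 := (0, 0)
  g2 := (1, 1)
  cb := 1
  ct := 1
  it := 14
  J := 14
  mid :=
    [(1, 1, 1), (1, 2, 2), (1, 3, 3), (1, 4, 3), (1, 3, 4), (1, 4, 4), (1, 5, 4), (1, 4, 5),
    (1, 5, 5), (1, 6, 5), (1, 5, 6), (1, 6, 6), (1, 7, 6), (1, 6, 7), (1, 7, 7), (1, 8, 7), (1,
    7, 8), (1, 8, 8), (1, 9, 8), (1, 8, 9), (1, 9, 9), (1, 10, 9), (1, 9, 10), (1, 10, 10), (1,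
    11, 10), (1, 10, 11), (1, 11, 11), (1, 12, 12), (1, 13, 13)]
  g0 := (0, 0)
  w' := (20, 1)
  b1' := (-2, 0)
  b2' := (-5, -1)
  T' :=
    [(1, 2, 0), (-1, 10, 0), (1, 0, 1), (-1, 15, 1), (1, 5, 2), (-1, 13, 2)]
  J' := 2
  r := 1
  j := 1
  i := 5

/-- integer separation certificates -/
def c49 : List ICert :=
  [⟨-1, -1, [1, 1, 0, 0, 0, 0, 0, 0, -1, 0, 0], [-1, 1, 0, 0, 0, 1, -1, 1, 0, -1, 1, -1, 0, 0],
  1⟩]

theorem lp49 : IsLimitPoint mahlerSet (mQ q49) :=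
  d49.main q49 (by decide +kernel) (by decide +kernel) c49 (by decide +kernel)
    (by decide +kernel)

/-- terms of the polynomial number 50 -/
def q50 : List (ℤ × (ℤ × ℤ)) :=
  [(1, 0, 11), (1, 4, 7), (1, 11, 0), (1, -11, 0), (1, -4, -7), (1, 0, -11)]

/-- certificate for the polynomial number 50 -/
def d50 : Dat where
  w := (0, -11)
  b1 := (12, 10)
  b2 := (-1, 1)
  cy := [(1, 0, 0), (1, 0, 1), (1, 0, 2)]
  cy' := [(-1, 0, 0), (1, 0, 1)]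
  g1 := (0, 3)
  g2 := (0, 0)
  cb := 1
  ct := 1
  it := 1
  J := 10
  mid :=
    [(-1, 0, 1), (1, 1, 1), (-1, 1, 2), (1, 0, 3), (1, 1, 4), (-1, 0, 5), (-1, 1, 5), (1, 0,
    6), (1, 1, 7), (-1, 0, 8), (1, 0, 9), (-1, 1, 9)]
  g0 := (0, 0)
  w' := (0, 11)
  b1' := (-11, -11)
  b2' := (1, -1)
  T' :=
    [(1, 0, 0), (1, 1, 0), (1, 0, 4), (1, 1, 7), (1, 0, 11), (1, 1, 11)]
  J' := 11
  r := 2
  j := 4
  i := 0

/-- integer separation certificates -/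
def c50 : List ICert :=
  [⟨1, 0, [1, 1, 0, 0, 0, -1, 0, 0, -1, -1], [-1, 0, 0, -1, 0, 1, 0, 1, 2, 1], 1⟩]

theorem lp50 : IsLimitPoint mahlerSet (mQ q50) :=
  d50.main q50 (by decide +kernel) (by decide +kernel) c50 (by decide +kernel)
    (by decide +kernel)

/-- terms of the polynomial number 51 -/
def q51 : List (ℤ × (ℤ × ℤ)) :=
  [(1, 0, 9), (-1, 5, 2), (1, 9, 0), (1, -9, 0), (-1, -5, -2), (1, 0, -9)]

/-- certificate for the polynomial number 51 -/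
def d51 : Dat where
  w := (0, -9)
  b1 := (-4, 2)
  b2 := (3, 3)
  cy := [(1, 0, 0)]
  cy' := [(1, 0, 0), (-1, 1, 0)]
  g1 := (0, 0)
  g2 := (1, 0)
  cb := 1
  ct := 1
  it := 3
  J := 4
  mid :=
    [(-1, 2, 1), (1, 3, 1), (1, 0, 3), (-1, 1, 3)]
  g0 := (0, 0)
  w' := (0, 9)
  b1' := (-3, -3)
  b2' := (4, -2)
  T' :=
    [(1, 0, 0), (1, 3, 0), (-1, 3, 1), (-1, 1, 2), (1, 1, 3), (1, 4, 3)]
  J' := 3
  r := 2
  j := 1
  i := 1

/-- integer separation certificates -/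
def c51 : List ICert :=
  [⟨1, -1, [1, 1, -1, -1], [-1, 1, 0, -1], 1⟩]

theorem lp51 : IsLimitPoint mahlerSet (mQ q51) :=
  d51.main q51 (by decide +kernel) (by decide +kernel) c51 (by decide +kernel)
    (by decide +kernel)

/-- terms of the polynomial number 52 -/
def q52 : List (ℤ × (ℤ × ℤ)) :=
  [(1, 12, 1), (-1, 0, 1), (1, 13, 0), (-1, -13, 0), (1, 0, -1), (-1, -12, -1)]

/-- certificate for the polynomial number 52 -/
def d52 : Dat where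
  w := (13, 0)
  b1 := (5, 1)
  b2 := (-7, -1)
  cy := [(1, 0, 0), (-1, 1, 1)]
  cy' := [(1, 0, 0)]
  g1 := (0, 0)
  g2 := (1, 1)
  cb := 1
  ct := 1
  it := 12
  J := 12
  mid :=
    [(1, 1, 1), (1, 2, 2), (1, 3, 3), (1, 4, 3), (1, 3, 4), (1, 4, 4), (1, 5, 4), (1, 4, 5),
    (1, 5, 5), (1, 6, 5), (1, 5, 6), (1, 6, 6), (1, 7, 6), (1, 6, 7), (1, 7, 7), (1, 8, 7), (1,
    7, 8), (1, 8, 8), (1, 9, 8), (1, 8, 9), (1, 9, 9), (1, 10, 10), (1, 11, 11)]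
  g0 := (0, 0)
  w' := (18, 1)
  b1' := (-2, 0)
  b2' := (-5, -1)
  T' :=
    [(1, 3, 0), (-1, 9, 0), (1, 0, 1), (-1, 13, 1), (1, 4, 2), (-1, 10, 2)]
  J' := 2
  r := 2
  j := 1
  i := 4

/-- integer separation certificates -/
def c52 : List ICert :=
  [⟨-1, -1, [1, 1, 0, 0, 0, 0, 0, -1, 0], [-1, 1, 0, 0, 1, -1, 1, 0, -1, 1, -1, 0], 1⟩]

theorem lp52 : IsLimitPoint mahlerSet (mQ q52) :=
  d52.main q52 (by decide +kernel) (by decide +kernel) c52 (by decide +kernel)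
    (by decide +kernel)

/-- terms of the polynomial number 53 -/
def q53 : List (ℤ × (ℤ × ℤ)) :=
  [(1, 9, 9), (1, 0, 2), (1, 2, 0), (1, -2, 0), (1, 0, -2), (1, -9, -9)]

/-- certificate for the polynomial number 53 -/
def d53 : Dat where
  w := (0, -2)
  b1 := (2, 2)
  b2 := (-9, -7)
  cy := [(1, 0, 0), (1, 1, 0)]
  cy' := [(1, 0, 0), (-1, 1, 0)]
  g1 := (0, 0)
  g2 := (2, 0)
  cb := 1
  ct := 1
  it := 8
  J := 2
  mid :=
    [(1, 0, 1), (-1, 1, 1), (1, 2, 1), (-1, 3, 1), (1, 4, 1), (-1, 5, 1), (1, 6, 1), (-1, 7,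
    1), (1, 8, 1)]
  g0 := (0, 0)
  w' := (18, 16)
  b1' := (-9, -7)
  b2' := (-2, -2)
  T' :=
    [(1, 1, 0), (1, 2, 0), (1, 2, 1), (1, 0, 8), (1, 0, 9), (1, 1, 9)]
  J' := 9
  r := 2
  j := 1
  i := 0

/-- integer separation certificates -/
def c53 : List ICert :=
  [⟨1, -3, [3, -2], [-1, 1], 3⟩, ⟨-1, -3, [77, 18], [-79, -9], 77⟩]

theorem lp53 : IsLimitPoint mahlerSet (mQ q53) :=
  d53.main q53 (by decide +kernel) (by decide +kernel) c53 (by decide +kernel)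
    (by decide +kernel)

/-- terms of the polynomial number 54 -/
def q54 : List (ℤ × (ℤ × ℤ)) :=
  [(1, 3, 1), (1, 2, 1), (1, 3, 0), (1, 2, 0), (-1, 0, 0), (1, -2, 0), (1, -3, 0), (1, -2, -1),
  (1, -3, -1)]

/-- certificate for the polynomial number 54 -/
def d54 : Dat where
  w := (3, 0)
  b1 := (2, 1)
  b2 := (-3, -1)
  cy := [(1, 0, 0)]
  cy' := [(1, 0, 0), (-1, 1, 0)]
  g1 := (0, 0)
  g2 := (1, 0)
  cb := 1
  ct := 1
  it := 6
  J := 6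
  mid :=
    [(1, 1, 1), (1, 3, 2), (1, 2, 3), (-1, 3, 3), (1, 4, 3), (1, 3, 4), (1, 5, 5)]
  g0 := (0, 0)
  w' := (-14, -1)
  b1' := (1, 0)
  b2' := (8, 1)
  T' :=
    [(1, 11, 0), (1, 12, 0), (1, 3, 1), (1, 4, 1), (-1, 6, 1), (1, 8, 1), (1, 9, 1), (1, 0, 2),
    (1, 1, 2)]
  J' := 2
  r := 2
  j := 1
  i := 1

/-- integer separation certificates -/
def c54 : List ICert :=
  [⟨-1, -1, [1, 1, -1, 0], [-3, 3, 0, -2, 1, 0], 1⟩]

theorem lp54 : IsLimitPoint mahlerSet (mQ q54) :=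
  d54.main q54 (by decide +kernel) (by decide +kernel) c54 (by decide +kernel)
    (by decide +kernel)

/-- terms of the polynomial number 55 -/
def q55 : List (ℤ × (ℤ × ℤ)) :=
  [(-1, 0, 3), (1, 8, 1), (-1, 3, 0), (-1, -3, 0), (1, -8, -1), (-1, 0, -3)]

/-- certificate for the polynomial number 55 -/
def d55 : Dat where
  w := (0, -3)
  b1 := (-6, 0)
  b2 := (5, 1)
  cy := [(1, 0, 0)]
  cy' := [(1, 0, 0), (-1, 1, 0)]
  g1 := (0, 0)
  g2 := (1, 0)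
  cb := -1
  ct := -1
  it := 5
  J := 6
  mid :=
    [(1, 3, 2), (-1, 2, 3), (-1, 3, 3), (1, 2, 4)]
  g0 := (0, 0)
  w' := (4, 5)
  b1' := (-4, -2)
  b2' := (1, -1)
  T' :=
    [(-1, 1, 0), (1, 3, 0), (-1, 2, 1), (-1, 1, 3), (1, 0, 4), (-1, 2, 4)]
  J' := 4
  r := 0
  j := 1
  i := 0

/-- integer separation certificates -/
def c55 : List ICert :=
  [⟨1, -1, [-1, 0, -4, 5, 1, -3], [-3, 6, -6, 2, 1, -3], 1⟩]

theorem lp55 : IsLimitPoint mahlerSet (mQ q55) :=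
  d55.main q55 (by decide +kernel) (by decide +kernel) c55 (by decide +kernel)
    (by decide +kernel)

/-- terms of the polynomial number 56 -/
def q56 : List (ℤ × (ℤ × ℤ)) :=
  [(1, 12, 1), (-1, 0, 1), (-1, 7, 0), (-1, -7, 0), (-1, 0, -1), (1, -12, -1)]

/-- certificate for the polynomial number 56 -/
def d56 : Dat where
  w := (12, 1)
  b1 := (-3, -1)
  b2 := (-2, 0)
  cy := [(1, 0, 0), (1, 0, 1)]
  cy' := [(-1, 0, 0), (1, 0, 1)]
  g1 := (0, 2)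
  g2 := (0, 0)
  cb := 1
  ct := 1
  it := 2
  J := 8
  mid :=
    [(-1, 0, 1), (-1, 1, 1), (1, 0, 2), (1, 1, 2), (-1, 0, 3), (-1, 1, 3), (-1, 2, 3), (1, 0,
    4), (1, 1, 4), (1, 2, 4), (-1, 0, 5), (-1, 1, 5), (-1, 2, 5), (1, 1, 6), (1, 2, 6), (-1, 1,
    7), (-1, 2, 7)]
  g0 := (0, 0)
  w' := (12, 1)
  b1' := (-2, 0)
  b2' := (-5, -1)
  T' :=
    [(1, 0, 0), (-1, 6, 0), (-1, 0, 1), (-1, 7, 1), (-1, 1, 2), (1, 7, 2)]
  J' := 2
  r := 0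
  j := 1
  i := 1

/-- integer separation certificates -/
def c56 : List ICert :=
  [⟨-1, 0, [5, -7, 4, 18, 0, -3, -19, 6], [7, 3, -3, -19, 1, 7, 8, -3], 5⟩, ⟨1, 0, [19, -1, 40,
  -62, 84, -49, 71, -74], [-39, 41, -43, 65, -87, 33, -54, 37], 19⟩]

theorem lp56 : IsLimitPoint mahlerSet (mQ q56) :=
  d56.main q56 (by decide +kernel) (by decide +kernel) c56 (by decide +kernel)
    (by decide +kernel)

/-- terms of the polynomial number 57 -/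
def q57 : List (ℤ × (ℤ × ℤ)) :=
  [(1, 10, 11), (-1, 0, 9), (-1, 9, 0), (-1, -9, 0), (-1, 0, -9), (1, -10, -11)]

/-- certificate for the polynomial number 57 -/
def d57 : Dat where
  w := (9, 0)
  b1 := (2, 4)
  b2 := (-9, -9)
  cy := [(1, 0, 0)]
  cy' := [(1, 0, 0), (-1, 1, 0)]
  g1 := (0, 0)
  g2 := (1, 0)
  cb := -1
  ct := -1
  it := 9
  J := 4
  mid :=
    [(-1, 0, 1), (1, 5, 1), (1, 4, 3), (-1, 9, 3)]
  g0 := (0, 0)
  w' := (15, 12)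
  b1' := (-5, -1)
  b2' := (-2, -4)
  T' :=
    [(1, 1, 0), (-1, 3, 0), (-1, 4, 2), (-1, 0, 3), (-1, 1, 5), (1, 3, 5)]
  J' := 5
  r := 0
  j := 2
  i := 1

/-- integer separation certificates -/
def c57 : List ICert :=
  [⟨-1, -2, [-1, -1, 1, 1], [3, 1, -2, -1], 1⟩]

theorem lp57 : IsLimitPoint mahlerSet (mQ q57) :=
  d57.main q57 (by decide +kernel) (by decide +kernel) c57 (by decide +kernel)
    (by decide +kernel)

/-- terms of the polynomial number 58 -/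
def q58 : List (ℤ × (ℤ × ℤ)) :=
  [(1, 14, 1), (-1, 0, 1), (1, 11, 0), (-1, -11, 0), (1, 0, -1), (-1, -14, -1)]

/-- certificate for the polynomial number 58 -/
def d58 : Dat where
  w := (11, 0)
  b1 := (9, 1)
  b2 := (-11, -1)
  cy := [(1, 0, 0), (-1, 1, 1)]
  cy' := [(1, 0, 0)]
  g1 := (0, 0)
  g2 := (1, 1)
  cb := 1
  ct := 1
  it := 10
  J := 10
  mid :=
    [(1, 0, 1), (1, 1, 1), (1, 1, 2), (1, 2, 2), (1, 2, 3), (1, 3, 3), (1, 4, 3), (1, 3, 4),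
    (1, 4, 4), (1, 5, 4), (1, 4, 5), (1, 5, 5), (1, 6, 5), (1, 5, 6), (1, 6, 6), (1, 7, 6), (1,
    6, 7), (1, 7, 7), (1, 8, 7), (1, 8, 8), (1, 9, 8), (1, 9, 9), (1, 10, 9)]
  g0 := (0, 0)
  w' := (0, 1)
  b1' := (-11, -1)
  b2' := (2, 0)
  T' :=
    [(-1, 0, 0), (-1, 1, 0), (-1, 2, 4), (1, 0, 7), (1, 1, 11), (1, 2, 11)]
  J' := 11
  r := 2
  j := 4
  i := 1

/-- integer separation certificates -/
def c58 : List ICert :=
  [⟨-1, -1, [3, -2, -1, 1, 2, 1, -1, 1, -3], [-2, -3, 1, -2, 3, -1, 5, 3, 2, 3], 3⟩, ⟨1, -1,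
  [25, 34, -7, -7, 18, -7, -7, -7, -41], [84, 27, 95, 72, 99, 51, 103, 55, 48, 41], 25⟩]

theorem lp58 : IsLimitPoint mahlerSet (mQ q58) :=
  d58.main q58 (by decide +kernel) (by decide +kernel) c58 (by decide +kernel)
    (by decide +kernel)

/-- terms of the polynomial number 59 -/
def q59 : List (ℤ × (ℤ × ℤ)) :=
  [(1, 0, 9), (-1, 4, 7), (1, 9, 0), (1, -9, 0), (-1, -4, -7), (1, 0, -9)]

/-- certificate for the polynomial number 59 -/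
def d59 : Dat where
  w := (-9, 0)
  b1 := (1, -5)
  b2 := (3, 3)
  cy := [(1, 0, 0)]
  cy' := [(1, 0, 0), (-1, 1, 0)]
  g1 := (0, 0)
  g2 := (1, 0)
  cb := 1
  ct := 1
  it := 3
  J := 5
  mid :=
    [(-1, 2, 1), (1, 3, 2), (1, 0, 3), (-1, 1, 4)]
  g0 := (0, 0)
  w' := (0, 9)
  b1' := (-3, -3)
  b2' := (4, -2)
  T' :=
    [(1, 0, 0), (1, 3, 0), (-1, 0, 1), (-1, 4, 2), (1, 1, 3), (1, 4, 3)]
  J' := 3
  r := 2
  j := 1
  i := 1

/-- integer separation certificates -/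
def c59 : List ICert :=
  [⟨1, 0, [1, -5, 3, 9, 0], [-3, 0, 1, -3, 0], 1⟩]

theorem lp59 : IsLimitPoint mahlerSet (mQ q59) :=
  d59.main q59 (by decide +kernel) (by decide +kernel) c59 (by decide +kernel)
    (by decide +kernel)

/-- terms of the polynomial number 60 -/
def q60 : List (ℤ × (ℤ × ℤ)) :=
  [(1, 6, 11), (-1, 0, 1), (-1, 1, 0), (-1, -1, 0), (-1, 0, -1), (1, -6, -11)]

/-- certificate for the polynomial number 60 -/
def d60 : Dat where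
  w := (1, 0)
  b1 := (2, 4)
  b2 := (-3, -5)
  cy := [(1, 0, 0)]
  cy' := [(1, 0, 0), (-1, 1, 0)]
  g1 := (0, 0)
  g2 := (1, 0)
  cb := -1
  ct := -1
  it := 5
  J := 4
  mid :=
    [(-1, 1, 1), (1, 4, 1), (1, 1, 3), (-1, 4, 3)]
  g0 := (0, 0)
  w' := (-1, 0)
  b1' := (-5, -11)
  b2' := (2, 4)
  T' :=
    [(-1, 0, 0), (1, 1, 0), (-1, 1, 3), (-1, 3, 8), (1, 3, 11), (-1, 4, 11)]
  J' := 11
  r := 0
  j := 3
  i := 3

/-- integer separation certificates -/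
def c60 : List ICert :=
  [⟨1, -2, [-3, 3, 3, -3], [1, 1, 0, -1], 3⟩, ⟨-1, 0, [-5, 5, 5, -5], [3, -1, -2, 1], 5⟩]

theorem lp60 : IsLimitPoint mahlerSet (mQ q60) :=
  d60.main q60 (by decide +kernel) (by decide +kernel) c60 (by decide +kernel)
    (by decide +kernel)

/-- terms of the polynomial number 61 -/
def q61 : List (ℤ × (ℤ × ℤ)) :=
  [(1, 0, 1), (1, 5, 0), (1, 4, 0), (1, -4, 0), (1, -5, 0), (1, 0, -1)]

/-- certificate for the polynomial number 61 -/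
def d61 : Dat where
  w := (0, -1)
  b1 := (1, 0)
  b2 := (-5, 1)
  cy := [(1, 0, 0)]
  cy' := [(1, 0, 0), (-1, 1, 0)]
  g1 := (0, 0)
  g2 := (1, 0)
  cb := 1
  ct := 1
  it := 10
  J := 2
  mid :=
    [(1, 0, 1), (1, 1, 1), (1, 9, 1), (1, 10, 1)]
  g0 := (0, 0)
  w' := (10, -1)
  b1' := (-5, 1)
  b2' := (-1, 0)
  T' :=
    [(1, 1, 0), (1, 2, 0), (1, 1, 1), (1, 1, 9), (1, 0, 10), (1, 1, 10)]
  J' := 10
  r := 2
  j := 1
  i := 0

/-- integer separation certificates -/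
def c61 : List ICert :=
  [⟨-1, -3, [4, 0], [-1, 0], 4⟩]

theorem lp61 : IsLimitPoint mahlerSet (mQ q61) :=
  d61.main' q61 (by decide +kernel) (by decide +kernel) c61 (by decide +kernel) 8
    (by decide +kernel) 0 [1] [0, 3] (by decide +kernel)

end Pool.Agent.Lib.MP_5efc61_nt
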